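import Pool.Agent.Equi60.Rels

/-! Antisymmetry in the elliptic curve. -/

noncomputable section

namespace Pool.Agent.Equi60

open Polynomial Pool.Agent.Voisin60

variable {A : Fin 5 → MvPolynomial (Fin 2) ℂ}

/-- The relation for the chords through a point `(xf, yf)`. -/
theorem chord (hA : Hyp A) (f g : Fib A) {xf yf : ℂ} (hf : yf ^ 2 = 4 * xf ^ 3 - 1)
    (s₀ x₁ x₂ : ℂ) (hsum : x₁ + x₂ = s₀ ^ 2 / 4 - xf)
    (hprod : x₁ * x₂ = -s₀ * (yf - s₀ * xf) / 2 - xf * (s₀ ^ 2 / 4 - xf)) :
    Sy f g x₁ (s₀ * x₁ + (yf - s₀ * xf)) x₂ (s₀ * x₂ + (yf - s₀ * xf))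
      + Sy f g x₂ (s₀ * x₂ + (yf - s₀ * xf)) x₁ (s₀ * x₁ + (yf - s₀ * xf)) = 0 := by
  -- a 2-torsion point
  obtain ⟨xe, he, hne⟩ : ∃ xe : ℂ, 4 * xe ^ 3 = 1 ∧ xf - xe ≠ 0 := by
    obtain ⟨z, hz⟩ := IsAlgClosed.exists_pow_nat_eq (1 / 4 : ℂ) (n := 3) (by norm_num)
    by_cases h : xf - z = 0
    · refine ⟨om * z, ?_, ?_⟩
      · rw [mul_pow, om_cube, hz]; norm_num
      · intro h'
        have h3 : (om - 1) * z = 0 := by linear_combination h - h'
        rcases mul_eq_zero.mp h3 with h4 | h4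
        · have : om = 1 := sub_eq_zero.mp h4
          have h5 := om_rel
          rw [this] at h5
          norm_num at h5
        · rw [h4] at hz; norm_num at hz
    · exact ⟨z, by rw [hz]; norm_num, h⟩
  set S : ℂ → ℂ := fun s => s ^ 2 / 4 - xf with hS
  set b : ℂ → ℂ := fun s => yf - s * xf with hb
  set Q : ℂ → ℂ := fun s => -s * b s / 2 - xf * S s with hQ
  -- the cubic splits
  have cub : ∀ s x : ℂ, (s * x + b s) ^ 2 - 4 * x ^ 3 + 1
      = -4 * (x - xf) * (x ^ 2 - S s * x + Q s) := by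
    intro s x
    simp only [hQ, hS, hb]
    linear_combination hf
  have key := sy_rel hA f g (ι := Unit × Fin 2)
    (fun s x => rt ![Q s, -S s] x.2)
    (fun s x => s * rt ![Q s, -S s] x.2 + b s)
    (fun s x => S s - rt ![Q s, -S s] x.2)
    (fun s x => s * (S s - rt ![Q s, -S s] x.2) + b s)
    Set.univ (by simp) (s := s₀) (t := yf / (xf - xe)) (Set.mem_univ _) (Set.mem_univ _)
    (by
      intro U _
      have rS : RegF U S := ((RegF.poly (C (1 / 4) * X ^ 2 - C xf))).congr fun s _ => by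
        simp [hS]; ring
      have rb : RegF U b := ((RegF.poly (C yf - C xf * X))).congr fun s _ => by
        simp [hb]; ring
      have rX : RegF U (fun s => s) := (RegF.poly X).congr fun s _ => by simp
      have rQ : RegF U Q := ((((rX.mul rb).mul (RegF.const (-1 / 2)))).sub
        ((RegF.const xf).mul rS)).congr fun s _ => by simp only [hQ]; ring
      obtain ⟨C', c1, c2⟩ := (Cover.triv U).root2 (b := fun s _ => -S s) (c := fun s _ => Q s)
        rS.neg rQ
      have mX : C'.mem (fun s _ => s) := C'.base _ rX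
      have mb : C'.mem (fun s _ => b s) := C'.base _ rb
      have mS : C'.mem (fun s _ => S s) := C'.base _ rS
      exact ⟨C', c2, C'.add (C'.mul mX c2) mb, C'.sub mS c2,
        C'.add (C'.mul mX (C'.sub mS c2)) mb⟩)
    (by
      intro s _ x
      have h := rt2_root (-S s) (Q s) x.2
      have c := cub s (rt ![Q s, -S s] x.2)
      have : rt ![Q s, -S s] x.2 ^ 2 - S s * rt ![Q s, -S s] x.2 + Q s = 0 := by
        linear_combination h
      rw [this] at c
      linear_combination c)
    (by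
      intro s _ x
      have h := rt2_root (-S s) (Q s) x.2
      have c := cub s (S s - rt ![Q s, -S s] x.2)
      have : (S s - rt ![Q s, -S s] x.2) ^ 2 - S s * (S s - rt ![Q s, -S s] x.2) + Q s = 0 := by
        linear_combination h
      rw [this] at c
      linear_combination c)
  rw [Fintype.sum_prod_type, Fintype.sum_prod_type] at key
  simp only [Finset.univ_unique, Finset.sum_singleton] at key
  rw [rt_sum2 (b := -S s₀) (c := Q s₀) (α := x₁) (β := x₂)
    (by rw [neg_neg]; simpa [hS] using hsum) (by simpa [hQ, hS, hb] using hprod)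
    (fun t => Sy f g t (s₀ * t + b s₀) (S s₀ - t) (s₀ * (S s₀ - t) + b s₀))] at key
  have e1 : S s₀ - x₁ = x₂ := by
    simp only [hS]
    linear_combination -hsum
  have e2 : S s₀ - x₂ = x₁ := by
    simp only [hS]
    linear_combination -hsum
  rw [e1, e2] at key
  set s₁ := yf / (xf - xe) with hs1
  have hline : s₁ * xe + b s₁ = 0 := by
    simp only [hb, hs1]
    field_simp
    ring
  have hroot : xe ^ 2 - S s₁ * xe + Q s₁ = 0 := by
    have c := cub s₁ xe
    rw [hline] at c
    have h4 : -4 * (xe - xf) * (xe ^ 2 - S s₁ * xe + Q s₁) = 0 := by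
      rw [← c]; linear_combination -he
    rcases mul_eq_zero.mp h4 with h5 | h5
    · exfalso; apply hne
      linear_combination h5 / 4
    · exact h5
  rw [rt_sum2 (b := -S s₁) (c := Q s₁) (α := xe) (β := S s₁ - xe)
    (by ring) (by linear_combination -hroot)
    (fun t => Sy f g t (s₁ * t + b s₁) (S s₁ - t) (s₁ * (S s₁ - t) + b s₁))] at key
  rw [hline, Sy_zero_left, zero_add] at key
  have e3 : S s₁ - (S s₁ - xe) = xe := by ring
  rw [e3, hline, Sy_zero_right] at key
  exact key

/-- Antisymmetry in the elliptic curve. -/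
theorem E_rel (hA : Hyp A) (f g : Fib A) {ξ η ξ' η' : ℂ} (h1 : η ^ 2 = 4 * ξ ^ 3 - 1)
    (h2 : η' ^ 2 = 4 * ξ' ^ 3 - 1) :
    Sy f g ξ η ξ' η' + Sy f g ξ' η' ξ η = 0 := by
  by_cases hx : ξ = ξ'
  · subst hx
    have tang : Sy f g ξ η ξ η + Sy f g ξ η ξ η = 0 := by
      by_cases hη : η = 0
      · rw [hη, Sy_zero_left, add_zero]
      · set s := 6 * ξ ^ 2 / η with hs
        have hsη : s * η = 6 * ξ ^ 2 := by rw [hs]; field_simp
        set xf := s ^ 2 / 4 - 2 * ξ with hxf
        set yf := η + s * (xf - ξ) with hyf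
        have hf : yf ^ 2 = 4 * xf ^ 3 - 1 := by
          rw [hyf]
          have e : s ^ 2 = 4 * (xf + 2 * ξ) := by rw [hxf]; ring
          linear_combination h1 + (xf - ξ) ^ 2 * e + 2 * (xf - ξ) * hsη
        have hb : yf - s * xf = η - s * ξ := by rw [hyf]; ring
        have := chord hA f g hf s ξ ξ (by rw [hxf]; ring) (by
          rw [hb]
          have e : s ^ 2 = 4 * (xf + 2 * ξ) := by rw [hxf]; ring
          linear_combination hsη / 2 + (-ξ / 2 + xf / 4) * e)
        rw [hb] at this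
        have e2 : s * ξ + (η - s * ξ) = η := by ring
        rw [e2] at this
        exact this
    have hη : η' = η ∨ η' = -η := by
      rw [← sq_eq_sq_iff_eq_or_eq_neg, h1, h2]
    rcases hη with h | h
    · rw [h]; exact tang
    · rw [h, Sy_neg_right, Sy_neg_left, ← neg_add, tang, neg_zero]
  · set s := (η - η') / (ξ - ξ') with hs
    have hd : ξ - ξ' ≠ 0 := sub_ne_zero.mpr hx
    have hsd : s * (ξ - ξ') = η - η' := by rw [hs]; field_simp
    set xf := s ^ 2 / 4 - ξ - ξ' with hxf
    set yf := η + s * (xf - ξ) with hyf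
    have e : s ^ 2 = 4 * (xf + ξ + ξ') := by rw [hxf]; ring
    have hs2 : s * (η + η') = 4 * (ξ ^ 2 + ξ * ξ' + ξ' ^ 2) := by
      have : (ξ - ξ') * (s * (η + η') - 4 * (ξ ^ 2 + ξ * ξ' + ξ' ^ 2)) = 0 := by
        linear_combination (η + η') * hsd + h1 - h2
      rcases mul_eq_zero.mp this with h | h
      · exact absurd h hd
      · exact sub_eq_zero.mp h
    have hη' : η' = η - s * (ξ - ξ') := by rw [hsd]; ring
    have hs3 : 2 * s * η = 4 * (ξ ^ 2 + ξ * ξ' + ξ' ^ 2) + s ^ 2 * (ξ - ξ') := by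
      rw [← hs2, hη']; ring
    have hf : yf ^ 2 = 4 * xf ^ 3 - 1 := by
      rw [hyf]
      linear_combination h1 + ((xf - ξ) ^ 2 + (ξ - ξ') * (xf - ξ)) * e + (xf - ξ) * hs3
    have hb : yf - s * xf = η - s * ξ := by rw [hyf]; ring
    have := chord hA f g hf s ξ ξ' (by rw [hxf]; ring) (by
      rw [hb]
      linear_combination hs3 / 4 + ((xf - ξ - ξ') / 4) * e)
    rw [hb] at this
    have e2 : s * ξ + (η - s * ξ) = η := by ring
    have e3 : s * ξ' + (η - s * ξ) = η' := by rw [hη']; ring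
    rw [e2, e3] at this
    exact this

end Pool.Agent.Equi60
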