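import Pool.Agent.Equi60.Targets

/-! Finite covers of the affine line: algebras of functions with regular traces. -/

noncomputable section

namespace Pool.Agent.Equi60

open Polynomial

/-- Rational functions regular on `U`. -/
def RegF (U : Set ℂ) (g : ℂ → ℂ) : Prop :=
  ∃ A B : ℂ[X], ∀ s ∈ U, B.eval s ≠ 0 ∧ g s = A.eval s / B.eval s

variable {U : Set ℂ}

lemma RegF.congr {g h : ℂ → ℂ} (hg : RegF U g) (e : ∀ s ∈ U, h s = g s) : RegF U h := by
  obtain ⟨A, B, hAB⟩ := hg
  exact ⟨A, B, fun s hs => ⟨(hAB s hs).1, (e s hs).trans (hAB s hs).2⟩⟩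

lemma RegF.poly (p : ℂ[X]) : RegF U (fun s => p.eval s) :=
  ⟨p, 1, fun s _ => by simp⟩

lemma RegF.const (c : ℂ) : RegF U (fun _ => c) :=
  ⟨C c, 1, fun s _ => by simp⟩

lemma RegF.add {g h : ℂ → ℂ} (hg : RegF U g) (hh : RegF U h) : RegF U (fun s => g s + h s) := by
  obtain ⟨A, B, h1⟩ := hg
  obtain ⟨A', B', h2⟩ := hh
  refine ⟨A * B' + A' * B, B * B', fun s hs => ?_⟩
  obtain ⟨n1, e1⟩ := h1 s hs
  obtain ⟨n2, e2⟩ := h2 s hs
  rw [eval_mul]
  refine ⟨mul_ne_zero n1 n2, ?_⟩
  simp only [e1, e2, eval_add, eval_mul]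
  field_simp

lemma RegF.mul {g h : ℂ → ℂ} (hg : RegF U g) (hh : RegF U h) : RegF U (fun s => g s * h s) := by
  obtain ⟨A, B, h1⟩ := hg
  obtain ⟨A', B', h2⟩ := hh
  refine ⟨A * A', B * B', fun s hs => ?_⟩
  obtain ⟨n1, e1⟩ := h1 s hs
  obtain ⟨n2, e2⟩ := h2 s hs
  rw [eval_mul]
  refine ⟨mul_ne_zero n1 n2, ?_⟩
  simp only [e1, e2, eval_mul]
  field_simp

lemma RegF.pow {g : ℂ → ℂ} (hg : RegF U g) (n : ℕ) : RegF U (fun s => g s ^ n) := by
  induction n with
  | zero => simpa using RegF.const (U := U) 1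
  | succ n ih =>
    exact (ih.mul hg).congr fun s _ => pow_succ _ _

lemma RegF.neg {g : ℂ → ℂ} (hg : RegF U g) : RegF U (fun s => - g s) :=
  ((RegF.const (-1)).mul hg).congr fun s _ => by ring

lemma RegF.sub {g h : ℂ → ℂ} (hg : RegF U g) (hh : RegF U h) : RegF U (fun s => g s - h s) :=
  (hg.add hh.neg).congr fun s _ => by ring

lemma RegF.inv {g : ℂ → ℂ} (hg : RegF U g) (h0 : ∀ s ∈ U, g s ≠ 0) :
    RegF U (fun s => (g s)⁻¹) := by
  obtain ⟨A, B, h1⟩ := hg
  refine ⟨B, A, fun s hs => ?_⟩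
  obtain ⟨n1, e1⟩ := h1 s hs
  have hA : A.eval s ≠ 0 := by
    intro h
    apply h0 s hs
    rw [e1, h, zero_div]
  exact ⟨hA, by simp only [e1, inv_div]⟩

lemma RegF.sum {κ : Type*} (S : Finset κ) (g : κ → ℂ → ℂ) (h : ∀ k ∈ S, RegF U (g k)) :
    RegF U (fun s => ∑ k ∈ S, g k s) := by
  classical
  induction S using Finset.induction_on with
  | empty => simpa using RegF.const (U := U) 0
  | insert a S ha ih =>
    have h1 := (h a (Finset.mem_insert_self _ _)).add
      (ih fun k hk => h k (Finset.mem_insert_of_mem hk))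
    exact h1.congr fun s _ => Finset.sum_insert ha

/-- A finite cover of `U` with sheets indexed by `ι`: an algebra of functions on the sheets, with
regular traces. -/
structure Cover (U : Set ℂ) (ι : Type) [Fintype ι] where
  mem : (ℂ → ι → ℂ) → Prop
  base : ∀ g, RegF U g → mem (fun s _ => g s)
  add : ∀ {φ ψ}, mem φ → mem ψ → mem (fun s i => φ s i + ψ s i)
  mul : ∀ {φ ψ}, mem φ → mem ψ → mem (fun s i => φ s i * ψ s i)
  congr : ∀ {φ ψ}, mem φ → (∀ s ∈ U, ∀ i, ψ s i = φ s i) → mem ψ
  tr : ∀ {φ}, mem φ → RegF U (fun s => ∑ i, φ s i)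

/-- The trivial cover. -/
def Cover.triv (U : Set ℂ) : Cover U Unit where
  mem := fun φ => RegF U (fun s => φ s ())
  base := fun _ h => h
  add := fun h1 h2 => h1.add h2
  mul := fun h1 h2 => h1.mul h2
  congr := fun h e => h.congr fun s hs => e s hs ()
  tr := fun h => h.congr fun s _ => by simp

namespace Cover

variable {ι : Type} [Fintype ι] (C : Cover U ι)

lemma const (c : ℂ) : C.mem (fun _ _ => c) := C.base _ (RegF.const c)

lemma poly (p : ℂ[X]) : C.mem (fun s _ => p.eval s) := C.base _ (RegF.poly p)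

lemma neg {φ : ℂ → ι → ℂ} (h : C.mem φ) : C.mem (fun s i => - φ s i) :=
  C.congr (C.mul (C.const (-1)) h) fun s _ i => by ring

lemma sub {φ ψ : ℂ → ι → ℂ} (h : C.mem φ) (h' : C.mem ψ) : C.mem (fun s i => φ s i - ψ s i) :=
  C.congr (C.add h (C.neg h')) fun s _ i => by ring

lemma pow {φ : ℂ → ι → ℂ} (h : C.mem φ) (n : ℕ) : C.mem (fun s i => φ s i ^ n) := by
  induction n with
  | zero => exact C.congr (C.const 1) fun s _ i => by simp
  | succ n ih => exact C.congr (C.mul ih h) fun s _ i => pow_succ _ _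

lemma sum {κ : Type*} (S : Finset κ) (φ : κ → ℂ → ι → ℂ) (h : ∀ k ∈ S, C.mem (φ k)) :
    C.mem (fun s i => ∑ k ∈ S, φ k s i) := by
  classical
  induction S using Finset.induction_on with
  | empty => exact C.congr (C.const 0) fun s _ i => by simp
  | insert a S ha ih =>
    exact C.congr (C.add (h a (Finset.mem_insert_self _ _))
      (ih fun k hk => h k (Finset.mem_insert_of_mem hk))) fun s _ i => Finset.sum_insert ha

lemma prod {κ : Type*} (S : Finset κ) (φ : κ → ℂ → ι → ℂ) (h : ∀ k ∈ S, C.mem (φ k)) :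
    C.mem (fun s i => ∏ k ∈ S, φ k s i) := by
  classical
  induction S using Finset.induction_on with
  | empty => exact C.congr (C.const 1) fun s _ i => by simp
  | insert a S ha ih =>
    exact C.congr (C.mul (h a (Finset.mem_insert_self _ _))
      (ih fun k hk => h k (Finset.mem_insert_of_mem hk))) fun s _ i => Finset.prod_insert ha

lemma mvPoly {σ : Type*} (f : MvPolynomial σ ℂ) (g : σ → ℂ → ι → ℂ) (hg : ∀ j, C.mem (g j)) :
    C.mem (fun s i => MvPolynomial.eval (fun j => g j s i) f) := by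
  induction f using MvPolynomial.induction_on with
  | C a => exact C.congr (C.const a) fun s _ i => by simp
  | add p q hp hq => exact C.congr (C.add hp hq) fun s _ i => by simp
  | mul_X p j hp => exact C.congr (C.mul hp (hg j)) fun s _ i => by simp

/-- The elementary symmetric functions of an element are regular. -/
lemma esymm_reg {φ : ℂ → ι → ℂ} (h : C.mem φ) (k : ℕ) :
    RegF U (fun s => MvPolynomial.eval (φ s) (MvPolynomial.esymm ι ℂ k)) := by
  classical
  induction k using Nat.strong_induction_on with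
  | _ k ih =>
    rcases Nat.eq_zero_or_pos k with rfl | hk
    · exact (RegF.const 1).congr fun s _ => by simp
    · have newt := MvPolynomial.mul_esymm_eq_sum ι ℂ k
      have hs : RegF U (fun s => (k : ℂ)⁻¹ * ((-1) ^ (k + 1) *
          ∑ a ∈ (Finset.HasAntidiagonal.antidiagonal k).filter (fun a : ℕ × ℕ => a.1 < k), (-1) ^ a.1 *
            MvPolynomial.eval (φ s) (MvPolynomial.esymm ι ℂ a.1) *
            MvPolynomial.eval (φ s) (MvPolynomial.psum ι ℂ a.2))) := by
        refine (RegF.const _).mul ((RegF.const _).mul (RegF.sum _ _ fun a ha => ?_))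
        have ha' : a.1 < k := (Finset.mem_filter.mp ha).2
        refine ((RegF.const _).mul (ih a.1 ha')).mul ?_
        refine (C.tr (C.pow h a.2)).congr fun s _ => ?_
        simp [MvPolynomial.psum]
      refine hs.congr fun s _ => ?_
      have e := congrArg (MvPolynomial.eval (φ s)) newt
      simp only [map_mul, map_natCast, map_pow, map_neg, map_one, map_sum] at e
      rw [← e]
      have hk' : (k : ℂ) ≠ 0 := Nat.cast_ne_zero.mpr hk.ne'
      field_simp

lemma eval_esymm_card (x : ι → ℂ) :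
    MvPolynomial.eval x (MvPolynomial.esymm ι ℂ (Fintype.card ι)) = ∏ i, x i := by
  classical
  rw [MvPolynomial.esymm, ← Finset.card_univ, Finset.powersetCard_self]
  simp

lemma root_rel (x : ι → ℂ) (i : ι) :
    ∑ j ∈ Finset.range (Fintype.card ι + 1),
      (-1) ^ j * MvPolynomial.eval x (MvPolynomial.esymm ι ℂ j) * x i ^ (Fintype.card ι - j) = 0 := by
  classical
  have h := Multiset.prod_X_sub_X_eq_sum_esymm (Finset.univ.val.map x)
  have h2 := congrArg (Polynomial.eval (x i)) h
  have e1 : Polynomial.eval (x i)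
      (((Finset.univ.val.map x).map fun t => X - Polynomial.C t).prod) = 0 := by
    rw [Multiset.map_map, Polynomial.eval_multiset_prod]
    apply Multiset.prod_eq_zero
    rw [Multiset.mem_map]
    refine ⟨X - Polynomial.C (x i), ?_, by simp⟩
    rw [Multiset.mem_map]
    exact ⟨i, Finset.mem_univ_val i, rfl⟩
  rw [e1, Polynomial.eval_finsetSum] at h2
  have hc : Multiset.card (Finset.univ.val.map x) = Fintype.card ι := by
    simp [Finset.card_univ]
  rw [hc] at h2
  rw [h2]
  refine Finset.sum_congr rfl fun j _ => ?_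
  have e4 : (Finset.univ.val.map x).esymm j = MvPolynomial.eval x (MvPolynomial.esymm ι ℂ j) := by
    rw [← MvPolynomial.aeval_esymm_eq_multiset_esymm ι ℂ j x, MvPolynomial.aeval_eq_eval]
  simp only [Polynomial.eval_mul, Polynomial.eval_pow, Polynomial.eval_neg, Polynomial.eval_one,
    Polynomial.eval_C, Polynomial.eval_X, e4]
  ring

/-- Inverses of nonvanishing elements. -/
lemma inv {φ : ℂ → ι → ℂ} (h : C.mem φ) (h0 : ∀ s ∈ U, ∀ i, φ s i ≠ 0) :
    C.mem (fun s i => (φ s i)⁻¹) := by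
  classical
  set n := Fintype.card ι with hn
  have hE := fun k => C.esymm_reg h k
  have hprod : ∀ s ∈ U, MvPolynomial.eval (φ s) (MvPolynomial.esymm ι ℂ n) ≠ 0 := by
    intro s hs
    rw [eval_esymm_card, Finset.prod_ne_zero_iff]
    intro i _
    exact h0 s hs i
  have m1 : C.mem (fun s i => (-((-1) ^ n *
      MvPolynomial.eval (φ s) (MvPolynomial.esymm ι ℂ n)))⁻¹ *
      ∑ j ∈ Finset.range n, (-1) ^ j * MvPolynomial.eval (φ s) (MvPolynomial.esymm ι ℂ j)
        * φ s i ^ (n - 1 - j)) := by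
    refine C.mul (C.base (fun s => (-((-1) ^ n *
      MvPolynomial.eval (φ s) (MvPolynomial.esymm ι ℂ n)))⁻¹) ?_) ?_
    · refine RegF.inv (((RegF.const _).mul (hE n)).neg) fun s hs => ?_
      exact neg_ne_zero.mpr (mul_ne_zero (pow_ne_zero _ (by norm_num)) (hprod s hs))
    · refine C.sum _ _ fun j _ => ?_
      exact C.mul (C.mul (C.const _) (C.base _ (hE j))) (C.pow h _)
  refine C.congr m1 fun s hs i => ?_
  have rel := root_rel (φ s) i
  rw [Finset.sum_range_succ, ← hn, Nat.sub_self, pow_zero, mul_one] at rel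
  have hφ := h0 s hs i
  have e2 : ∑ j ∈ Finset.range n,
      (-1) ^ j * MvPolynomial.eval (φ s) (MvPolynomial.esymm ι ℂ j) * φ s i ^ (n - j)
      = φ s i * ∑ j ∈ Finset.range n, (-1) ^ j *
        MvPolynomial.eval (φ s) (MvPolynomial.esymm ι ℂ j) * φ s i ^ (n - 1 - j) := by
    rw [Finset.mul_sum]
    refine Finset.sum_congr rfl fun j hj => ?_
    have hj' : n - j = (n - 1 - j) + 1 := by
      have := Finset.mem_range.mp hj; omega
    rw [hj', pow_succ]
    ring
  rw [e2] at rel
  have hne : -((-1) ^ n * MvPolynomial.eval (φ s) (MvPolynomial.esymm ι ℂ n)) ≠ 0 :=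
    neg_ne_zero.mpr (mul_ne_zero (pow_ne_zero _ (by norm_num)) (hprod s hs))
  have e3 := eq_neg_of_add_eq_zero_left rel
  rw [inv_eq_iff_eq_inv, mul_inv, inv_inv, ← e3, mul_assoc, mul_inv_cancel₀, mul_one]
  intro h00
  rw [h00, mul_zero] at e3
  exact hne e3.symm

/-- The set where an element vanishes somewhere is finite, if it vanishes nowhere over one
point. -/
lemma finite_zero {φ : ℂ → ι → ℂ} (h : C.mem φ) {s₀ : ℂ} (hs : s₀ ∈ U)
    (h0 : ∀ i, φ s₀ i ≠ 0) : {s | s ∈ U ∧ ∃ i, φ s i = 0}.Finite := by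
  classical
  obtain ⟨A, B, hAB⟩ := C.esymm_reg h (Fintype.card ι)
  have key : ∀ s ∈ U, (∏ i, φ s i) * B.eval s = A.eval s := by
    intro s hs
    obtain ⟨n1, e1⟩ := hAB s hs
    simp only at e1
    rw [← eval_esymm_card, e1]
    field_simp
  have hA : A ≠ 0 := by
    intro hA
    have := key s₀ hs
    rw [hA, eval_zero, mul_eq_zero] at this
    rcases this with h1 | h1
    · rw [Finset.prod_eq_zero_iff] at h1
      obtain ⟨i, _, hi⟩ := h1
      exact h0 i hi
    · exact (hAB s₀ hs).1 h1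
  refine (A.roots.toFinset.finite_toSet).subset ?_
  rintro s ⟨hs, i, hi⟩
  simp only [Finset.mem_coe, Multiset.mem_toFinset, mem_roots hA, IsRoot.def]
  rw [← key s hs, Finset.prod_eq_zero (Finset.mem_univ i) hi, zero_mul]

end Cover

end Pool.Agent.Equi60
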