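import Pool.Agent.Equi60.Root

/-! Rational equivalences from covers. -/

noncomputable section

namespace Pool.Agent.Equi60

open Polynomial Pool.Agent.Voisin60

/-- The normalised vector. -/
def nv (l : Fin 3 → ℂ) (u : Fin 4 → ℂ) : Fin 4 → ℂ := scale (lin l u)⁻¹ u

lemma onPlane_of_lin' {F : MvPolynomial (Fin 3) ℂ} {l : Fin 3 → ℂ} {u : Fin 4 → ℂ}
    (hl : lin l u ≠ 0) (h : u 3 ^ 2 = u 2 * MvPolynomial.eval ![u 0, u 1, u 2] F) :
    OnPlane F u := by
  refine ⟨?_, h⟩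
  rintro ⟨h0, h1, h2⟩
  apply hl
  simp [lin, h0, h1, h2]

lemma Cover.lin_mem {U : Set ℂ} {ι : Type} [Fintype ι] (C : Cover U ι) (l : Fin 3 → ℂ)
    {u : ℂ → ι → Fin 4 → ℂ} (h : ∀ k, C.mem (fun s i => u s i k)) :
    C.mem (fun s i => lin l (u s i)) := by
  refine C.congr (C.add (C.add (C.mul (C.const (l 0)) (h 0)) (C.mul (C.const (l 1)) (h 1)))
    (C.mul (C.const (l 2)) (h 2))) fun s _ i => rfl

lemma Cover.nv_mem {U : Set ℂ} {ι : Type} [Fintype ι] (C : Cover U ι) (l : Fin 3 → ℂ)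
    {u : ℂ → ι → Fin 4 → ℂ} (h : ∀ k, C.mem (fun s i => u s i k))
    (h0 : ∀ s ∈ U, ∀ i, lin l (u s i) ≠ 0) (k : Fin 4) :
    C.mem (fun s i => nv l (u s i) k) := by
  have hi := C.inv (C.lin_mem l h) h0
  fin_cases k
  · exact C.mul hi (h 0)
  · exact C.mul hi (h 1)
  · exact C.mul hi (h 2)
  · exact C.mul (C.pow hi 3) (h 3)

/-- The cycle of a member. -/
def cycI (F : MvPolynomial (Fin 3) ℂ) {ι : Type} [Fintype ι] (u v : ℂ → ι → Fin 4 → ℂ) (s : ℂ) :
    (Pt F × Pt F) →₀ ℤ :=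
  ∑ i, Finsupp.single (P F (u s i), P F (v s i)) (1 : ℤ)

section
variable {F : MvPolynomial (Fin 3) ℂ} (hF : F.IsHomogeneous 5) {ι : Type} [Fintype ι]
  (u v : ℂ → ι → Fin 4 → ℂ) (l m : Fin 3 → ℂ) (U : Set ℂ)
  (hu : ∀ s ∈ U, ∀ i, u s i 3 ^ 2 = u s i 2 * MvPolynomial.eval ![u s i 0, u s i 1, u s i 2] F)
  (hv : ∀ s ∈ U, ∀ i, v s i 3 ^ 2 = v s i 2 * MvPolynomial.eval ![v s i 0, v s i 1, v s i 2] F)
  (hl : ∀ s ∈ U, ∀ i, lin l (u s i) ≠ 0) (hm : ∀ s ∈ U, ∀ i, lin m (v s i) ≠ 0)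

include hF hu hl in
lemma nv_onPlane {s : ℂ} (hs : s ∈ U) (i : ι) : OnPlane F (nv l (u s i)) :=
  onPlane_scale hF (onPlane_of_lin' (hl s hs i) (hu s hs i)) (inv_ne_zero (hl s hs i))

include hF hu hl in
lemma P_nv {s : ℂ} (hs : s ∈ U) (i : ι) : P F (nv l (u s i)) = P F (u s i) :=
  P_scale hF (onPlane_of_lin' (hl s hs i) (hu s hs i)) (inv_ne_zero (hl s hs i))

open Classical in
/-- The rational family of a cover. -/
def covFamily (hU : Uᶜ.Finite) (C : Cover U ι) (cu : ∀ k, C.mem (fun s i => u s i k))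
    (cv : ∀ k, C.mem (fun s i => v s i k)) : RatFamily F where
  l := l
  m := m
  bad := hU.toFinset
  Z := fun s => if h : s ∈ U then
      Finset.univ.val.map (fun i : ι =>
        ((⟨nv l (u s i), nv_onPlane hF u l U hu hl h i⟩ : Rep F),
        (⟨nv m (v s i), nv_onPlane hF v m U hv hm h i⟩ : Rep F)))
    else 0
  normalised := by
    intro s hs z hz
    have h : s ∈ U := by
      by_contra h0
      exact hs (by simpa using h0)
    rw [dif_pos h] at hz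
    obtain ⟨i, _, rfl⟩ := Multiset.mem_map.mp hz
    refine ⟨?_, ?_⟩
    · simp only [nv]
      rw [lin_scale, inv_mul_cancel₀ (hl s h i)]
    · simp only [nv]
      rw [lin_scale, inv_mul_cancel₀ (hm s h i)]
  regular := by
    intro f
    have hmem := C.mvPoly f (fun k s i => Sum.elim (nv l (u s i)) (nv m (v s i)) k) (by
      intro k
      rcases k with k | k
      · exact C.nv_mem l cu hl k
      · exact C.nv_mem m cv hm k)
    obtain ⟨A, B, hAB⟩ := C.tr hmem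
    refine ⟨A, B, fun s hs => ?_⟩
    have h : s ∈ U := by
      by_contra h0
      exact hs (by simpa using h0)
    obtain ⟨n1, e1⟩ := hAB s h
    refine ⟨n1, ?_⟩
    rw [dif_pos h, Multiset.map_map, ← e1]
    rfl

lemma covFamily_cyc (hU : Uᶜ.Finite) (C : Cover U ι) (cu : ∀ k, C.mem (fun s i => u s i k))
    (cv : ∀ k, C.mem (fun s i => v s i k)) {s : ℂ} (hs : s ∈ U) :
    cyc ((covFamily hF u v l m U hu hv hl hm hU C cu cv).Z s) = cycI F u v s := by
  unfold cyc cycI covFamily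
  simp only
  rw [dif_pos hs, Multiset.map_map]
  change ∑ i, _ = ∑ i, _
  refine Finset.sum_congr rfl fun i _ => ?_
  simp only [Function.comp]
  rw [← P_eq (nv_onPlane hF u l U hu hl hs i), ← P_eq (nv_onPlane hF v m U hv hm hs i),
    P_nv hF u l U hu hl hs i, P_nv hF v m U hv hm hs i]

end

/-- Two members of a family of cycles given by a cover are equivalent. -/
theorem cover_rel {F : MvPolynomial (Fin 3) ℂ} (hF : F.IsHomogeneous 5) {ι : Type} [Fintype ι]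
    (u v : ℂ → ι → Fin 4 → ℂ) (U₁ : Set ℂ) (hU₁ : U₁ᶜ.Finite) {s t : ℂ} (hs : s ∈ U₁)
    (ht : t ∈ U₁)
    (hcov : ∀ U ⊆ U₁, ∃ C : Cover U ι, (∀ k, C.mem (fun s i => u s i k)) ∧
      (∀ k, C.mem (fun s i => v s i k)))
    (hu : ∀ s ∈ U₁, ∀ i,
      u s i 3 ^ 2 = u s i 2 * MvPolynomial.eval ![u s i 0, u s i 1, u s i 2] F)
    (hv : ∀ s ∈ U₁, ∀ i,
      v s i 3 ^ 2 = v s i 2 * MvPolynomial.eval ![v s i 0, v s i 1, v s i 2] F)
    (us : ∀ i, ¬ (u s i 0 = 0 ∧ u s i 1 = 0 ∧ u s i 2 = 0))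
    (ut : ∀ i, ¬ (u t i 0 = 0 ∧ u t i 1 = 0 ∧ u t i 2 = 0))
    (vs : ∀ i, ¬ (v s i 0 = 0 ∧ v s i 1 = 0 ∧ v s i 2 = 0))
    (vt : ∀ i, ¬ (v t i 0 = 0 ∧ v t i 1 = 0 ∧ v t i 2 = 0)) :
    ∑ i, e (P F (u s i)) (P F (v s i)) = ∑ i, e (P F (u t i)) (P F (v t i)) := by
  classical
  obtain ⟨l, hl⟩ := exists_lin (Finset.univ.image (u s) ∪ Finset.univ.image (u t)) (by
    intro w hw
    rcases Finset.mem_union.mp hw with h | h
    · obtain ⟨i, _, rfl⟩ := Finset.mem_image.mp h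
      exact us i
    · obtain ⟨i, _, rfl⟩ := Finset.mem_image.mp h
      exact ut i)
  obtain ⟨m, hm⟩ := exists_lin (Finset.univ.image (v s) ∪ Finset.univ.image (v t)) (by
    intro w hw
    rcases Finset.mem_union.mp hw with h | h
    · obtain ⟨i, _, rfl⟩ := Finset.mem_image.mp h
      exact vs i
    · obtain ⟨i, _, rfl⟩ := Finset.mem_image.mp h
      exact vt i)
  have ls : ∀ i, lin l (u s i) ≠ 0 := fun i => hl _ (Finset.mem_union_left _
    (Finset.mem_image_of_mem _ (Finset.mem_univ i)))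
  have lt : ∀ i, lin l (u t i) ≠ 0 := fun i => hl _ (Finset.mem_union_right _
    (Finset.mem_image_of_mem _ (Finset.mem_univ i)))
  have ms : ∀ i, lin m (v s i) ≠ 0 := fun i => hm _ (Finset.mem_union_left _
    (Finset.mem_image_of_mem _ (Finset.mem_univ i)))
  have mt : ∀ i, lin m (v t i) ≠ 0 := fun i => hm _ (Finset.mem_union_right _
    (Finset.mem_image_of_mem _ (Finset.mem_univ i)))
  set U₂ : Set ℂ := {x | x ∈ U₁ ∧ (∀ i, lin l (u x i) ≠ 0) ∧ (∀ i, lin m (v x i) ≠ 0)} with hU₂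
  have hsub : U₂ ⊆ U₁ := fun x hx => hx.1
  obtain ⟨C₁, c1u, c1v⟩ := hcov U₁ (le_refl _)
  have f1 := C₁.finite_zero (C₁.lin_mem l c1u) hs ls
  have f2 := C₁.finite_zero (C₁.lin_mem m c1v) hs ms
  have hfin : U₂ᶜ.Finite := by
    refine ((hU₁.union f1).union f2).subset ?_
    intro x hx
    by_cases h1 : x ∈ U₁
    · by_cases h2 : ∀ i, lin l (u x i) ≠ 0
      · right
        refine ⟨h1, ?_⟩
        by_contra h3
        push Not at h3
        exact hx ⟨h1, h2, h3⟩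
      · left; right
        push Not at h2
        exact ⟨h1, h2⟩
    · left; left; exact h1
  have sU : s ∈ U₂ := ⟨hs, ls, ms⟩
  have tU : t ∈ U₂ := ⟨ht, lt, mt⟩
  obtain ⟨C₂, c2u, c2v⟩ := hcov U₂ hsub
  have key : cycI F u v s - cycI F u v t ∈ RatEquiv F := by
    apply AddSubgroup.subset_closure
    refine ⟨covFamily hF u v l m U₂ (fun x hx => hu x hx.1) (fun x hx => hv x hx.1)
      (fun x hx => hx.2.1) (fun x hx => hx.2.2) hfin C₂ c2u c2v, s, t, ?_, ?_, ?_⟩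
    · simp [covFamily, sU]
    · simp [covFamily, tU]
    · rw [covFamily_cyc _ _ _ _ _ _ _ _ _ _ _ _ _ _ sU,
        covFamily_cyc _ _ _ _ _ _ _ _ _ _ _ _ _ _ tU]
  have mk : ∀ x, (QuotientAddGroup.mk (cycI F u v x) : CH F)
      = ∑ i, e (P F (u x i)) (P F (v x i)) := by
    intro x
    unfold cycI e
    exact map_sum (QuotientAddGroup.mk' (RatEquiv F)) _ _
  rw [← mk s, ← mk t, QuotientAddGroup.eq]
  have : -cycI F u v s + cycI F u v t = -(cycI F u v s - cycI F u v t) := by abel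
  rw [this]
  exact (RatEquiv F).neg_mem key

end Pool.Agent.Equi60
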