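import Pool.Agent.Equi60.Points

/-! Further targets of the project EQ60. -/

noncomputable section

namespace Pool.Agent.Equi60

open Polynomial Pool.Agent.Voisin60

/-- EQ-R0. Independence of the root. `f` is a line `(Y,Z)` with root `ρ = (r, 1 + k r)`, and
`ρ' = (r', 1 + k r')` is another root of the same quartic `Q = Qh (av A Y Z)`. Then
`P(e) - P(-e)` is the same for both roots (in both factors).

Proof (write `n = 1 + k r`, `n' = 1 + k r'`, `x = f.ρ ξ`, `y = f.σ η`). If `r = r'` or `η = 0`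
nothing is to be shown. Let `δ = r - r' ≠ 0`, so `(1,k) = (ρ - ρ')/δ`. Put
`A1 = Q(ρ,ρ,ρ,ρ') = q3 a r n r' n'`, `A2 = Q(ρ,ρ,ρ',ρ') = q2 a r n r' n'`,
`A3 = Q(ρ,ρ',ρ',ρ') = q3 a r' n' r n`. Then `Q(tρ + ρ') = t (4 A1 t^2 + 6 A2 t + 4 A3)`
(`Qh_basis`), `q3 a r n 1 k = -A1/δ`, `q3 a r' n' 1 k = A3/δ` (so `A1, A3 ≠ 0` by `q3_ne`),
`D0 := x - A2/(2δ^2)`, and (X,m) of `pv` is `D0 ρ + (A1/δ^2) ρ'` for the root `r` and
`(A3/δ^2) ρ + D0 ρ'` for the root `r'`. `D0 ≠ 0`, since otherwise `(X,m)` is a multiple of `ρ'`,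
so `Q(X,m) = 0` and `y = 0` by `Qh_pt`.
Family with parameter `s ∈ ℂ`: `t` runs through the two roots of the monic quadratic
`t^2 + ((6 Z A2 - s^2)/(4 Z A1)) t + A3/A1` (`Cover.exists_root` with `d = 2`, base `Cover.triv`),
point `u(s,t) = (t r + r', m Y, m Z, m s t)`, `m = t n + n'`; the equation of the double plane
holds because `s^2 t = Z (4 A1 t^2 + 6 A2 t + 4 A3)`; second factor constant. At
`s = s1 = -y δ/D0` the two values are `t1 = D0 δ^2/A1` and `t2 = A3/(δ^2 D0)` (product `A3/A1`, and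
`t1` is a root because `pv` is on the plane) and `u(s1,t1)` is a multiple (`scale`) of
`pv .. r x y`, `u(s1,t2)` a multiple of `pv .. r' x (-y)`. At `s = -s1` the `t` are the same and the
fourth coordinates change sign. So `P(r,y) + P(r',-y) ~ P(r,-y) + P(r',y)`; use `cover_rel`. -/
def T_R0 : Prop :=
  ∀ (A : Fin 5 → MvPolynomial (Fin 2) ℂ), Hyp A → ∀ (f : Fib A) (r' : ℂ)
    (h' : Qh (av A f.Y f.Z) r' (1 + f.k * r') = 0) (ξ η : ℂ), η ^ 2 = 4 * ξ ^ 3 - 1 →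
    ∀ z : Pt (quintic A),
      (e (P (quintic A) (f.pt ξ η)) z - e (P (quintic A) (f.pt ξ (-η))) z
        = e (P (quintic A) (({f with r := r', root := h'} : Fib A).pt ξ η)) z
          - e (P (quintic A) (({f with r := r', root := h'} : Fib A).pt ξ (-η))) z) ∧
      (e z (P (quintic A) (f.pt ξ η)) - e z (P (quintic A) (f.pt ξ (-η)))
        = e z (P (quintic A) (({f with r := r', root := h'} : Fib A).pt ξ η))
          - e z (P (quintic A) (({f with r := r', root := h'} : Fib A).pt ξ (-η))))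

/-- EQ-SING. Points over singular lines are trivial.

Proof. Let `u = (X,Y,Z,W)`, `Q = Qh (av A Y Z)`, `I = J = 0` for this quartic. If `W = 0` use
`triv_of_zero`. Otherwise `Z ≠ 0`, and by `T_QUART` `Q(X,m) = (αX+βm)^3 (γX+δm)` for all `X, m`.
The points over the line are `(X, mY, mZ, W)` with `W^2 = Z m^2 Q(X,m)` (`eval_quintic'`).
If the linear forms `αX+βm`, `γX+δm` are independent, use them as coordinates:
`(X,m) = s^2 (x1,m1) + c (x2,m2)` where `αX+βm = s^2`, `γX+δm = c` with `c` the (nonzero) value at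
`(X,m) = (u 0, 1)`; `W = z m s^3` with `z^2 = Z c`; the one-point family `s ↦ ...` joins `u`
(`s^2 = αX+βm ≠ 0`, sign of `s` suitable) to `s = 0`, where `W = 0` (`one_family` in
Voisin60/Basic with a `Half` with `q = 0`, and `triv_of_zero`). If they are dependent,
`Q = κ (αX+βm)^4` (`Q ≠ 0` as `W ≠ 0`), and `W = z m (αX+βm)^2` with `z^2 = Z κ`: move `(X,m)` along
a line to a nonzero zero of `αX+βm`. -/
def T_SING : Prop :=
  ∀ (A : Fin 5 → MvPolynomial (Fin 2) ℂ), Hyp A → ∀ u : Fin 4 → ℂ, OnPlane (quintic A) u →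
    Ja (av A (u 1) (u 2)) = 0 → Triv (P (quintic A) u)

/-- EQ-PARAM. Every point with `W ≠ 0`, `J ≠ 0` has parameters `x, y`, for a chosen root direction
`(R,N)`; they transform well under rescaling `(Y,Z)` and change of `k`.

Proof. Let `u = (X0,Y,Z,W)`, `a = av A Y Z`, `Q = Qh a`. `W ≠ 0` gives `Z ≠ 0` and
`Q(X0,1) ≠ 0` (`eval_quintic`). Take a nonzero zero `(R,N)` of `Q` (ℂ algebraically closed; `J ≠ 0`
gives `Q ≠ 0`). For any `(w,v)` with `w N - v R = 1` put `q = q3 a R N w v` (≠ 0 by `q3_ne`),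
`q0 = X0 N - R` (≠ 0, else `Q(X0,1) = 0`), `s = q/q0`, `D = s (w - v X0)`, `x = D + q2 a R N w v/2`,
`y = s^2 W/q`; then `(D R + q w, D N + q v) = s (X0, 1)`, so `y^2 = Z (4 x^3 - J)` by `Qh_pt`.
Then for `c ≠ 0`, `κ` with `c N - κ R ≠ 0`, `r = R/(c N - κ R)`: `1 + κ r = c N/(c N - κ R)`,
`av A (Y/c) (Z/c) i = c^{-(i+1)} a i`, and `pv ... κ r (x/c^3) (y/c^5)` is `scale μ u` for a
suitable `μ ≠ 0` (`P_scale`): with `ρ' = (R, cN)/(cN - κR)`, `ω' = (1,κ)`; `q3`, `q2` for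
`a' = av A (Y/c) (Z/c)` and `ρ', ω'` are expressed by those for `a` and `(R,N), (w,v)` since
`(1, κ/c)·const` equals `(w,v)` times a constant plus a multiple of `(R,N)`, and
`Q(R,N) = 0`. -/
def T_PARAM : Prop :=
  ∀ (A : Fin 5 → MvPolynomial (Fin 2) ℂ), Hyp A → ∀ u : Fin 4 → ℂ, OnPlane (quintic A) u →
    u 3 ≠ 0 → Ja (av A (u 1) (u 2)) ≠ 0 →
    ∃ R N x y : ℂ, (R ≠ 0 ∨ N ≠ 0) ∧ y ≠ 0 ∧
      y ^ 2 = u 2 * (4 * x ^ 3 - Ja (av A (u 1) (u 2))) ∧
      ∀ c κ : ℂ, c ≠ 0 → c * N - κ * R ≠ 0 →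
        Qh (av A (u 1 / c) (u 2 / c)) (R / (c * N - κ * R))
          (1 + κ * (R / (c * N - κ * R))) = 0 ∧
        P (quintic A) (pv (av A (u 1 / c) (u 2 / c)) (u 1 / c) (u 2 / c) κ (R / (c * N - κ * R))
          (x / c ^ 3) (y / c ^ 5)) = P (quintic A) u

end Pool.Agent.Equi60
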