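import Pool.Agent.Equi60.T3Fam
import Pool.Agent.Equi60.Targets2

/-! The relation coming from the rational curves on the threefold. -/

noncomputable section

namespace Pool.Agent.Equi60

open Polynomial Pool.Agent.Voisin60

variable {A : Fin 5 → MvPolynomial (Fin 2) ℂ}

lemma Sy_left (hR : T_R0) (hA : Hyp A) (f g : Fib A) (r' : ℂ)
    (h' : Qh (av A f.Y f.Z) r' (1 + f.k * r') = 0) {ξ η : ℂ} (h1 : η ^ 2 = 4 * ξ ^ 3 - 1)
    (ξ' η' : ℂ) :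
    Sy ({f with r := r', root := h'} : Fib A) g ξ η ξ' η' = Sy f g ξ η ξ' η' := by
  have e1 := (hR A hA f r' h' ξ η h1 (P (quintic A) (g.pt ξ' η'))).1
  have e2 := (hR A hA f r' h' ξ η h1 (P (quintic A) (g.pt ξ' (-η')))).1
  unfold Sy
  rw [← e1]
  have : ∀ a b c d : CH (quintic A), a - b - c + d = (a - b) - (c - d) := by
    intro a b c d; abel
  rw [sub_add, ← e2]
  abel

lemma Sy_right (hR : T_R0) (hA : Hyp A) (f g : Fib A) (r' : ℂ)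
    (h' : Qh (av A g.Y g.Z) r' (1 + g.k * r') = 0) (ξ η : ℂ) {ξ' η' : ℂ}
    (h1 : η' ^ 2 = 4 * ξ' ^ 3 - 1) :
    Sy f ({g with r := r', root := h'} : Fib A) ξ η ξ' η' = Sy f g ξ η ξ' η' := by
  have e1 := (hR A hA g r' h' ξ' η' h1 (P (quintic A) (f.pt ξ η))).2
  have e2 := (hR A hA g r' h' ξ' η' h1 (P (quintic A) (f.pt ξ (-η)))).2
  have s : ∀ a b c d : CH (quintic A), a - b - c + d = (a - c) - (b - d) := by
    intro a b c d; abel
  unfold Sy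
  rw [s, s, ← e1, ← e2]

/-- The alternating sum over all roots. -/
lemma RS_alt (hR : T_R0) (hA : Hyp A) (f g : Fib A) (hk : g.k = f.k)
    (l1 : Qh (av A f.Y f.Z) 1 f.k ≠ 0) (l2 : Qh (av A g.Y g.Z) 1 f.k ≠ 0) {ξ η ξ' η' : ℂ}
    (h1 : η ^ 2 = 4 * ξ ^ 3 - 1) (h2 : η' ^ 2 = 4 * ξ' ^ 3 - 1) :
    RS A f.k f.Y f.Z (f.ρ * ξ) (f.σ * η) g.Y g.Z (g.ρ * ξ') (g.σ * η')
      - RS A f.k f.Y f.Z (f.ρ * ξ) (-(f.σ * η)) g.Y g.Z (g.ρ * ξ') (g.σ * η')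
      - RS A f.k f.Y f.Z (f.ρ * ξ) (f.σ * η) g.Y g.Z (g.ρ * ξ') (-(g.σ * η'))
      + RS A f.k f.Y f.Z (f.ρ * ξ) (-(f.σ * η)) g.Y g.Z (g.ρ * ξ') (-(g.σ * η'))
      = (16 : ℕ) • Sy f g ξ η ξ' η' := by
  have r1 := fun j => rq_root l1 j
  have r2 : ∀ j, Qh (av A g.Y g.Z) (rq (av A g.Y g.Z) f.k j)
      (1 + g.k * rq (av A g.Y g.Z) f.k j) = 0 := by
    intro j; rw [hk]; exact rq_root l2 j
  have key : ∀ j j', Sy ({f with r := rq (av A f.Y f.Z) f.k j, root := r1 j} : Fib A)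
      ({g with r := rq (av A g.Y g.Z) f.k j', root := r2 j'} : Fib A) ξ η ξ' η'
      = Sy f g ξ η ξ' η' := by
    intro j j'
    rw [Sy_left hR hA f _ _ (r1 j) h1, Sy_right hR hA f g _ (r2 j') ξ η h2]
  have s : (16 : ℕ) • Sy f g ξ η ξ' η' = ∑ j : Fin 4, ∑ j' : Fin 4,
      Sy ({f with r := rq (av A f.Y f.Z) f.k j, root := r1 j} : Fib A)
      ({g with r := rq (av A g.Y g.Z) f.k j', root := r2 j'} : Fib A) ξ η ξ' η' := by
    simp only [key, Finset.sum_const, Finset.card_univ, Fintype.card_fin, smul_smul]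
    norm_num
  rw [s]
  unfold RS Sy Fib.pt
  simp only [Finset.sum_add_distrib, Finset.sum_sub_distrib, hk, mul_neg]

end Pool.Agent.Equi60
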