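import Pool.Agent.Equi60.D

/-! The relation coming from the rational curves on the threefold: the main computation. -/

noncomputable section

namespace Pool.Agent.Equi60

open Polynomial Pool.Agent.Voisin60

variable {A : Fin 5 → MvPolynomial (Fin 2) ℂ}

/-- The sum over the radicals for a pair of lines `θ, θ'`. -/
def TT (A : Fin 5 → MvPolynomial (Fin 2) ℂ) (κ β x y X W θ θ' : ℂ) : CH (quintic A) :=
  ∑ k : Fin 3, ∑ l : Fin 2,
    RS A κ (1 - β * θ) θ (rt ![-(Ja (av A (1 - β * θ) θ)), 0, 0] k * x)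
      (rt ![-(θ * Ja (av A (1 - β * θ) θ)), 0] l * y) (1 - β * θ') θ'
      (X / rt ![-(Ja (av A (1 - β * θ) θ)), 0, 0] k)
      (W / rt ![-(θ * Ja (av A (1 - β * θ) θ)), 0] l)

/-- The alternating sum over the signs. -/
def TA (A : Fin 5 → MvPolynomial (Fin 2) ℂ) (κ β x y X W θ θ' : ℂ) : CH (quintic A) :=
  TT A κ β x y X W θ θ' - TT A κ β x (-y) X W θ θ' - TT A κ β x y X (-W) θ θ'
    + TT A κ β x (-y) X (-W) θ θ'

/-- The alternating sum in terms of the symbol. -/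
lemma TA_eq (hR : T_R0) (hA : Hyp A) (f g : Fib A) (hk : g.k = f.k) {β : ℂ}
    (hf : f.Y = 1 - β * f.Z) (hg : g.Y = 1 - β * g.Z)
    (l1 : Qh (av A f.Y f.Z) 1 f.k ≠ 0) (l2 : Qh (av A g.Y g.Z) 1 f.k ≠ 0) {ξ η ξ' η' : ℂ}
    (h1 : η ^ 2 = 4 * ξ ^ 3 - 1) (h2 : η' ^ 2 = 4 * ξ' ^ 3 - 1) (n1 : ξ ≠ 0) (n2 : ξ' ≠ 0) :
    (3 : ℕ) • TA A f.k β ξ η (f.ρ * g.ρ * ξ') (f.σ * g.σ * η') f.Z g.Z
      = (288 : ℕ) • Sy f g ξ η ξ' η' := by
  have hρ0 : f.ρ ≠ 0 := by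
    intro h; apply f.hJ; rw [← f.hρ, h]; norm_num
  have hσ0 : f.σ ≠ 0 := by
    intro h
    have := f.hσ
    rw [h] at this
    have h3 : f.Z * Ja (av A f.Y f.Z) = 0 := by rw [← this]; norm_num
    rcases mul_eq_zero.mp h3 with h4 | h4
    · exact f.hZ h4
    · exact f.hJ h4
  -- expansion of TT
  have exp : ∀ y W : ℂ, TT A f.k β ξ y (f.ρ * g.ρ * ξ') W f.Z g.Z
      = ∑ z ∈ ({0, 1, 2} : Finset ℕ),
        (RS A f.k f.Y f.Z (f.ρ * (om ^ z * ξ)) (f.σ * y) g.Y g.Z (g.ρ * (om ^ (2 * z) * ξ'))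
            (W / f.σ)
          + RS A f.k f.Y f.Z (f.ρ * (om ^ z * ξ)) (-(f.σ * y)) g.Y g.Z
            (g.ρ * (om ^ (2 * z) * ξ')) (-(W / f.σ))) := by
    intro y W
    unfold TT
    rw [← hf, ← hg]
    have hl : ∀ G : ℂ → CH (quintic A), ∑ l : Fin 2, G (rt ![-(f.Z * Ja (av A f.Y f.Z)), 0] l)
        = G f.σ + G (-f.σ) := fun G =>
      rt_sum2 (b := 0) (c := -(f.Z * Ja (av A f.Y f.Z))) (α := f.σ) (β := -f.σ) (by ring)
        (by linear_combination -f.hσ) G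
    have hk3 : ∀ G : ℂ → CH (quintic A), ∑ k : Fin 3, G (rt ![-(Ja (av A f.Y f.Z)), 0, 0] k)
        = G f.ρ + (G (om * f.ρ) + G (om ^ 2 * f.ρ)) := fun G => rt_sum3 f.hρ G
    rw [hk3 (fun t => ∑ l : Fin 2,
      RS A f.k f.Y f.Z (t * ξ) (rt ![-(f.Z * Ja (av A f.Y f.Z)), 0] l * y) g.Y g.Z
        (f.ρ * g.ρ * ξ' / t) (W / rt ![-(f.Z * Ja (av A f.Y f.Z)), 0] l))]
    have hl2 : ∀ p q : ℂ, ∑ l : Fin 2, RS A f.k f.Y f.Z p
        (rt ![-(f.Z * Ja (av A f.Y f.Z)), 0] l * y) g.Y g.Z q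
        (W / rt ![-(f.Z * Ja (av A f.Y f.Z)), 0] l)
        = RS A f.k f.Y f.Z p (f.σ * y) g.Y g.Z q (W / f.σ)
          + RS A f.k f.Y f.Z p (-f.σ * y) g.Y g.Z q (W / -f.σ) := fun p q =>
      hl (fun t => RS A f.k f.Y f.Z p (t * y) g.Y g.Z q (W / t))
    simp only [hl2]
    have i1 : om⁻¹ = om ^ 2 :=
      inv_eq_of_mul_eq_one_right (by linear_combination om_cube)
    have a0 : f.ρ * g.ρ * ξ' / f.ρ = g.ρ * (om ^ (2 * 0) * ξ') := by field_simp; ring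
    have a1 : f.ρ * g.ρ * ξ' / (om * f.ρ) = g.ρ * (om ^ (2 * 1) * ξ') := by
      rw [mul_one, ← i1]
      have := om_ne
      field_simp
    have a2 : f.ρ * g.ρ * ξ' / (om ^ 2 * f.ρ) = g.ρ * (om ^ (2 * 2) * ξ') := by
      have := om_ne
      have e4 : om ^ (2 * 2) = om := by
        linear_combination om * om_cube
      rw [e4]
      rw [div_eq_iff (mul_ne_zero (pow_ne_zero _ om_ne) hρ0)]
      linear_combination (-(g.ρ * ξ' * f.ρ)) * om_cube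
    have b0 : f.ρ * (om ^ 0 * ξ) = f.ρ * ξ := by ring
    have b1 : f.ρ * (om ^ 1 * ξ) = om * f.ρ * ξ := by ring
    have b2 : f.ρ * (om ^ 2 * ξ) = om ^ 2 * f.ρ * ξ := by ring
    have c0 : -f.σ * y = -(f.σ * y) := by ring
    have d0 : W / -f.σ = -(W / f.σ) := by rw [div_neg]
    rw [a0, a1, a2, c0, d0]
    rw [Finset.sum_insert (by decide), Finset.sum_insert (by decide), Finset.sum_singleton,
      b0, b1, b2]
  have hW : f.σ * g.σ * η' / f.σ = g.σ * η' := by field_simp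
  have hW' : -(f.σ * g.σ * η') / f.σ = -(g.σ * η') := by field_simp
  have e3 : ∀ z : ℕ, (om ^ z) ^ 3 = 1 := fun z => by
    rw [← pow_mul, mul_comm, pow_mul, om_cube, one_pow]
  have H1 : ∀ z : ℕ, η ^ 2 = 4 * (om ^ z * ξ) ^ 3 - 1 := fun z => by
    rw [mul_pow, e3, one_mul]; exact h1
  have H2 : ∀ z : ℕ, η' ^ 2 = 4 * (om ^ (2 * z) * ξ') ^ 3 - 1 := fun z => by
    rw [mul_pow, e3, one_mul]; exact h2
  have alt : ∀ z : ℕ, _ := fun z => RS_alt hR hA f g hk l1 l2 (H1 z) (H2 z)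
  have step : TA A f.k β ξ η (f.ρ * g.ρ * ξ') (f.σ * g.σ * η') f.Z g.Z
      = ∑ z ∈ ({0, 1, 2} : Finset ℕ),
        (32 : ℕ) • Sy f g (om ^ z * ξ) η (om ^ (2 * z) * ξ') η' := by
    unfold TA
    rw [exp, exp, exp, exp, hW, hW']
    rw [← Finset.sum_sub_distrib, ← Finset.sum_sub_distrib, ← Finset.sum_add_distrib]
    refine Finset.sum_congr rfl fun z _ => ?_
    have a := alt z
    simp only [mul_neg, neg_neg]
    have : (32 : ℕ) • Sy f g (om ^ z * ξ) η (om ^ (2 * z) * ξ') η'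
        = (2 : ℕ) • ((16 : ℕ) • Sy f g (om ^ z * ξ) η (om ^ (2 * z) * ξ') η') := by
      rw [smul_smul]; norm_num
    rw [this, ← a]
    simp only [succ_nsmul, zero_nsmul]
    abel
  have K := K_rel hA f g h1 h2 n1 n2
  rw [step, Finset.sum_insert (by decide), Finset.sum_insert (by decide),
    Finset.sum_singleton]
  simp only [pow_zero, one_mul, mul_zero, pow_one, mul_one]
  have e4 : om ^ (2 * 2) = om := by linear_combination om * om_cube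
  rw [e4]
  have : (3 : ℕ) • ((32 : ℕ) • Sy f g ξ η ξ' η' + ((32 : ℕ) • Sy f g (om * ξ) η (om ^ 2 * ξ') η'
      + (32 : ℕ) • Sy f g (om ^ 2 * ξ) η (om * ξ') η'))
      = (96 : ℕ) • Sy f g ξ η ξ' η' + (32 : ℕ) • ((3 : ℕ) • Sy f g (om * ξ) η (om ^ 2 * ξ') η')
        + (32 : ℕ) • ((3 : ℕ) • Sy f g (om ^ 2 * ξ) η (om * ξ') η') := by
    simp only [smul_add, smul_smul]
    norm_num
    abel
  rw [this, K.1, K.2, smul_smul, ← add_smul, ← add_smul]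
  norm_num

end Pool.Agent.Equi60
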