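import Pool.Agent.Equi60.Targets

/-!
# A binary quartic with vanishing invariants has a triple linear factor
-/

noncomputable section

namespace Pool.Agent.Equi60

open Polynomial

lemma quart_of_a4 (a : Fin 5 → ℂ) (h4 : a 4 = 0) (hI : Ia a = 0) (hJ : Ja a = 0) :
    ∃ α β γ δ : ℂ, ∀ X m : ℂ, Qh a X m = (α * X + β * m) ^ 3 * (γ * X + δ * m) := by
  unfold Ia at hI
  unfold Ja at hJ
  unfold Qh
  rw [h4] at hI hJ
  by_cases h3 : a 3 = 0
  · rw [h3] at hI hJ
    have h2 : a 2 = 0 := by
      have : a 2 ^ 2 = 0 := by linear_combination hI / 3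
      exact pow_eq_zero_iff (two_ne_zero) |>.1 this
    refine ⟨1, 0, a 0, 4 * a 1, fun X m => ?_⟩
    rw [h4, h3, h2]
    ring
  · have h1 : a 1 = 3 * a 2 ^ 2 / (4 * a 3) := by
      rw [eq_div_iff (by simpa using h3)]
      linear_combination -hI
    have h0 : a 0 = a 2 ^ 3 / (2 * a 3 ^ 2) := by
      rw [eq_div_iff (by simpa using h3)]
      have e : a 1 * a 3 = 3 * a 2 ^ 2 / 4 := by linear_combination -hI / 4
      linear_combination -2 * hJ + 4 * a 2 * e
    refine ⟨a 2 / (2 * a 3), 1, 4 * a 3, 0, fun X m => ?_⟩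
    rw [h0, h1, h4]
    field_simp
    ring

theorem p_QUART : T_QUART := by
  intro a hI hJ
  by_cases h0 : a 0 = 0
  · obtain ⟨α, β, γ, δ, h⟩ := quart_of_a4 ![a 4, a 3, a 2, a 1, a 0] (by simpa using h0)
      (by
        unfold Ia at hI ⊢
        simp only [Matrix.cons_val]
        linear_combination hI)
      (by
        unfold Ja at hJ ⊢
        simp only [Matrix.cons_val]
        linear_combination hJ)
    refine ⟨β, α, δ, γ, fun X m => ?_⟩
    have := h m X
    unfold Qh at this ⊢
    simp only [Matrix.cons_val] at this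
    linear_combination this
  · set p : ℂ[X] := C (a 0) * X ^ 4 + C (4 * a 1) * X ^ 3 + C (6 * a 2) * X ^ 2 +
      C (4 * a 3) * X + C (a 4) with hp
    have hc : p.coeff 4 = a 0 := by
      rw [hp]
      simp only [coeff_add, coeff_C_mul, coeff_X_pow, coeff_X, coeff_C]
      norm_num
    have hd : p.degree ≠ 0 := by
      intro h
      have := coeff_eq_zero_of_degree_lt (p := p) (n := 4) (by rw [h]; norm_num)
      rw [hc] at this
      exact h0 this
    obtain ⟨r, hr⟩ := IsAlgClosed.exists_root p hd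
    have hr' : a 0 * r ^ 4 + 4 * a 1 * r ^ 3 + 6 * a 2 * r ^ 2 + 4 * a 3 * r + a 4 = 0 := by
      have : p.eval r = 0 := hr
      rw [hp] at this
      simpa using this
    obtain ⟨α, β, γ, δ, h⟩ := quart_of_a4 ![a 0, a 1 + a 0 * r, a 2 + 2 * a 1 * r + a 0 * r ^ 2,
      a 3 + 3 * a 2 * r + 3 * a 1 * r ^ 2 + a 0 * r ^ 3, 0] (by simp)
      (by
        unfold Ia at hI ⊢
        simp only [Matrix.cons_val]
        linear_combination hI - a 0 * hr')
      (by
        unfold Ja at hJ ⊢
        simp only [Matrix.cons_val]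
        linear_combination hJ - (a 0 * a 2 - a 1 ^ 2) * hr')
    refine ⟨α, β - α * r, γ, δ - γ * r, fun X m => ?_⟩
    have := h (X - r * m) m
    unfold Qh at this ⊢
    simp only [Matrix.cons_val] at this
    linear_combination this + m ^ 4 * hr'

end Pool.Agent.Equi60
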