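import Pool.Agent.Equi60.Targets2

/-! EQ-R0: independence of the root. -/

noncomputable section

namespace Pool.Agent.Equi60

open Polynomial Pool.Agent.Voisin60

namespace R0_

/-- The family. -/
def uf (Y Z k r r' s t : ℂ) : Fin 4 → ℂ :=
  ![t * r + r', (t * (1 + k * r) + (1 + k * r')) * Y, (t * (1 + k * r) + (1 + k * r')) * Z,
    (t * (1 + k * r) + (1 + k * r')) * s * t]

/-- The coefficients of the quadratic. -/
def cf (A1 A2 A3 Z s : ℂ) : Fin 2 → ℂ :=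
  ![A3 / A1, (6 * Z * A2 - s ^ 2) / (4 * Z * A1)]

lemma mon_roots (c : Fin 2 → ℂ) {t1 t2 : ℂ} (h0 : t1 * t2 = c 0) (h1 : t1 + t2 = - c 1) :
    (mon c).roots = {t1, t2} := by
  have e : mon c = (X - C t1) * (X - C t2) := by
    unfold mon
    rw [Fin.sum_univ_two]
    simp only [Fin.val_zero, Fin.val_one, pow_zero, pow_one, mul_one]
    have h1' : c 1 = -(t1 + t2) := by rw [h1]; ring
    rw [h1', ← h0, C_neg, C_add, C_mul]
    ring
  rw [e, roots_mul (mul_ne_zero (X_sub_C_ne_zero _) (X_sub_C_ne_zero _)), roots_X_sub_C,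
    roots_X_sub_C]
  rfl

lemma sum_two {M : Type*} [AddCommMonoid M] (c : Fin 2 → ℂ) {t1 t2 : ℂ} (h0 : t1 * t2 = c 0)
    (h1 : t1 + t2 = - c 1) (g : ℂ → M) :
    ∑ i : Unit × Fin 2, g (rt c i.2) = g t1 + g t2 := by
  rw [Fintype.sum_prod_type]
  simp only [Finset.univ_unique, Finset.sum_singleton]
  rw [rt_sum, mon_roots c h0 h1]
  simp

lemma fam {A : Fin 5 → MvPolynomial (Fin 2) ℂ} (hA : Hyp A) {Y Z k r r' : ℂ} (hZ : Z ≠ 0)
    (hδ : r - r' ≠ 0) (h0 : Qh (av A Y Z) r (1 + k * r) = 0)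
    (h0' : Qh (av A Y Z) r' (1 + k * r') = 0) {A1 A2 A3 : ℂ}
    (e1 : A1 = q3 (av A Y Z) r (1 + k * r) r' (1 + k * r'))
    (e2 : A2 = q2 (av A Y Z) r (1 + k * r) r' (1 + k * r'))
    (e3 : A3 = q3 (av A Y Z) r' (1 + k * r') r (1 + k * r))
    (hA1 : A1 ≠ 0) {s t1 t2 : ℂ} (p : t1 * t2 = A3 / A1)
    (q : t1 + t2 = -((6 * Z * A2 - s ^ 2) / (4 * Z * A1))) {v : Fin 4 → ℂ}
    (hv : OnPlane (quintic A) v) :
    (e (P (quintic A) (uf Y Z k r r' s t1)) (P (quintic A) v)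
      + e (P (quintic A) (uf Y Z k r r' s t2)) (P (quintic A) v)
      = e (P (quintic A) (uf Y Z k r r' (-s) t1)) (P (quintic A) v)
      + e (P (quintic A) (uf Y Z k r r' (-s) t2)) (P (quintic A) v)) ∧
    (e (P (quintic A) v) (P (quintic A) (uf Y Z k r r' s t1))
      + e (P (quintic A) v) (P (quintic A) (uf Y Z k r r' s t2))
      = e (P (quintic A) v) (P (quintic A) (uf Y Z k r r' (-s) t1))
      + e (P (quintic A) v) (P (quintic A) (uf Y Z k r r' (-s) t2))) := by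
  have hcov : ∀ U ⊆ (Set.univ : Set ℂ), ∃ C : Cover U (Unit × Fin 2),
      (∀ j, C.mem (fun s i => uf Y Z k r r' s (rt (cf A1 A2 A3 Z s) i.2) j)) ∧
      (∀ j, C.mem (fun _ _ => v j)) := by
    intro U _
    obtain ⟨C, hC, hr⟩ := (Cover.triv U).exists_root (d := 2)
      (fun j s _ => cf A1 A2 A3 Z s j) (by
        intro j
        fin_cases j
        · exact RegF.const _
        · refine ((RegF.poly (C (6 * Z * A2) - X ^ 2)).mul
            (RegF.const (4 * Z * A1)⁻¹)).congr fun s _ => ?_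
          simp [cf, div_eq_mul_inv])
    have hr' : C.mem (fun s i => rt (cf A1 A2 A3 Z s) i.2) := hr
    have hs : C.mem (fun s _ => s) := by
      refine C.congr (C.poly X) fun s _ i => by simp
    have hm : C.mem (fun s i => rt (cf A1 A2 A3 Z s) i.2 * (1 + k * r) + (1 + k * r')) :=
      C.add (C.mul hr' (C.const _)) (C.const _)
    refine ⟨C, ?_, fun j => C.const _⟩
    intro j
    fin_cases j
    · exact C.add (C.mul hr' (C.const _)) (C.const _)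
    · exact C.mul hm (C.const _)
    · exact C.mul hm (C.const _)
    · exact C.mul (C.mul hm hs) hr'
  have hu : ∀ s ∈ (Set.univ : Set ℂ), ∀ i : Unit × Fin 2,
      uf Y Z k r r' s (rt (cf A1 A2 A3 Z s) i.2) 3 ^ 2
        = uf Y Z k r r' s (rt (cf A1 A2 A3 Z s) i.2) 2 *
          MvPolynomial.eval ![uf Y Z k r r' s (rt (cf A1 A2 A3 Z s) i.2) 0,
            uf Y Z k r r' s (rt (cf A1 A2 A3 Z s) i.2) 1,
            uf Y Z k r r' s (rt (cf A1 A2 A3 Z s) i.2) 2] (quintic A) := by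
    intro s _ i
    have hroot := rt_root (cf A1 A2 A3 Z s) i.2
    set t := rt (cf A1 A2 A3 Z s) i.2 with ht
    simp only [uf, Matrix.cons_val]
    rw [eval_quintic' hA.hom]
    have hb := Qh_basis (av A Y Z) r (1 + k * r) r' (1 + k * r') t 1
    rw [h0, h0', ← e1, ← e2, ← e3] at hb
    rw [one_mul, one_mul] at hb
    rw [hb]
    rw [Fin.sum_univ_two] at hroot
    simp only [cf, Fin.val_zero, Fin.val_one, pow_zero, pow_one, mul_one,
      Matrix.cons_val_zero, Matrix.cons_val_one] at hroot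
    have h2 : s ^ 2 * t = Z * (4 * A1 * t ^ 2 + 6 * A2 * t + 4 * A3) := by
      field_simp at hroot
      linear_combination -hroot
    linear_combination ((t * (1 + k * r) + (1 + k * r')) ^ 2 * t) * h2
  have hne : ∀ s t, ¬ (uf Y Z k r r' s t 0 = 0 ∧ uf Y Z k r r' s t 1 = 0 ∧
      uf Y Z k r r' s t 2 = 0) := by
    rintro s t ⟨z0, -, z2⟩
    simp only [uf, Matrix.cons_val] at z0 z2
    have z3 := (mul_eq_zero.mp z2).resolve_right hZ
    apply hδ
    linear_combination (-1 - r * k) * z0 + r * z3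
  have c0 : ∀ s : ℂ, t1 * t2 = cf A1 A2 A3 Z s 0 := fun s => p
  have c1 : t1 + t2 = - cf A1 A2 A3 Z s 1 := q
  have c1' : t1 + t2 = - cf A1 A2 A3 Z (-s) 1 := by
    rw [q]; simp [cf]
  have hvv : ∀ s ∈ (Set.univ : Set ℂ), ∀ _i : Unit × Fin 2,
      v 3 ^ 2 = v 2 * MvPolynomial.eval ![v 0, v 1, v 2] (quintic A) := fun _ _ _ => hv.2
  constructor
  · have h := cover_rel (quintic_hom hA.hom)
      (fun s (i : Unit × Fin 2) => uf Y Z k r r' s (rt (cf A1 A2 A3 Z s) i.2)) (fun _ _ => v)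
      Set.univ (by simp) (Set.mem_univ s) (Set.mem_univ (-s)) hcov hu hvv
      (fun i => hne _ _) (fun i => hne _ _) (fun _ => hv.1) (fun _ => hv.1)
    rw [sum_two _ (c0 s) c1 (fun t => e (P (quintic A) (uf Y Z k r r' s t)) (P (quintic A) v)),
      sum_two _ (c0 (-s)) c1'
        (fun t => e (P (quintic A) (uf Y Z k r r' (-s) t)) (P (quintic A) v))] at h
    exact h
  · have h := cover_rel (quintic_hom hA.hom) (fun _ _ => v)
      (fun s (i : Unit × Fin 2) => uf Y Z k r r' s (rt (cf A1 A2 A3 Z s) i.2))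
      Set.univ (by simp) (Set.mem_univ s) (Set.mem_univ (-s))
      (fun U hU => by
        obtain ⟨C, a, b⟩ := hcov U hU
        exact ⟨C, b, a⟩) hvv hu
      (fun _ => hv.1) (fun _ => hv.1) (fun i => hne _ _) (fun i => hne _ _)
    rw [sum_two _ (c0 s) c1 (fun t => e (P (quintic A) v) (P (quintic A) (uf Y Z k r r' s t))),
      sum_two _ (c0 (-s)) c1'
        (fun t => e (P (quintic A) v) (P (quintic A) (uf Y Z k r r' (-s) t)))] at h
    exact h

set_option linter.unusedSimpArgs false in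
lemma main {A : Fin 5 → MvPolynomial (Fin 2) ℂ} (hA : Hyp A) {Y Z k r r' : ℂ} (hZ : Z ≠ 0)
    (hJ : Ja (av A Y Z) ≠ 0)
    (hδ : r - r' ≠ 0) (h0 : Qh (av A Y Z) r (1 + k * r) = 0)
    (h0' : Qh (av A Y Z) r' (1 + k * r') = 0) {x y : ℂ}
    (hy : y ^ 2 = Z * (4 * x ^ 3 - Ja (av A Y Z))) (hy0 : y ≠ 0) :
    ∃ A1 A2 A3 s t1 t2 μ μ' : ℂ,
      A1 = q3 (av A Y Z) r (1 + k * r) r' (1 + k * r') ∧
      A2 = q2 (av A Y Z) r (1 + k * r) r' (1 + k * r') ∧
      A3 = q3 (av A Y Z) r' (1 + k * r') r (1 + k * r) ∧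
      A1 ≠ 0 ∧ t1 * t2 = A3 / A1 ∧ t1 + t2 = -((6 * Z * A2 - s ^ 2) / (4 * Z * A1)) ∧
      μ ≠ 0 ∧ μ' ≠ 0 ∧
      uf Y Z k r r' s t1 = scale μ (pv (av A Y Z) Y Z k r x y) ∧
      uf Y Z k r r' (-s) t1 = scale μ (pv (av A Y Z) Y Z k r x (-y)) ∧
      uf Y Z k r r' s t2 = scale μ' (pv (av A Y Z) Y Z k r' x (-y)) ∧
      uf Y Z k r r' (-s) t2 = scale μ' (pv (av A Y Z) Y Z k r' x y) := by
  have hI := hA.I0 Y Z
  set a := av A Y Z with ha
  obtain ⟨A1, e1⟩ : ∃ A1, A1 = q3 a r (1 + k * r) r' (1 + k * r') := ⟨_, rfl⟩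
  obtain ⟨A2, e2⟩ : ∃ A2, A2 = q2 a r (1 + k * r) r' (1 + k * r') := ⟨_, rfl⟩
  obtain ⟨A3, e3⟩ : ∃ A3, A3 = q3 a r' (1 + k * r') r (1 + k * r) := ⟨_, rfl⟩
  obtain ⟨δ, hd⟩ : ∃ δ, δ = r - r' := ⟨_, rfl⟩
  rw [← hd] at hδ
  have hr : r = r' + δ := by rw [hd]; ring
  have f1 : q3 a r (1 + k * r) 1 k * δ = -A1 := by
    have : q3 a r (1 + k * r) 1 k * δ = Qh a r (1 + k * r)
        - q3 a r (1 + k * r) r' (1 + k * r') := by
      rw [hd]; unfold q3 Qh; ring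
    rw [this, h0, e1]; ring
  have f3 : q3 a r' (1 + k * r') 1 k * δ = A3 := by
    have : q3 a r' (1 + k * r') 1 k * δ = q3 a r' (1 + k * r') r (1 + k * r)
        - Qh a r' (1 + k * r') := by
      rw [hd]; unfold q3 Qh; ring
    rw [this, h0', e3]; ring
  have g1 : q2 a r (1 + k * r) 1 k * δ ^ 2 = A2 - 2 * A1 := by
    have : q2 a r (1 + k * r) 1 k * δ ^ 2 = Qh a r (1 + k * r)
        - 2 * q3 a r (1 + k * r) r' (1 + k * r') + q2 a r (1 + k * r) r' (1 + k * r') := by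
      rw [hd]; unfold q3 q2 Qh; ring
    rw [this, h0, e1, e2]; ring
  have g3 : q2 a r' (1 + k * r') 1 k * δ ^ 2 = A2 - 2 * A3 := by
    have : q2 a r' (1 + k * r') 1 k * δ ^ 2 = Qh a r' (1 + k * r')
        - 2 * q3 a r' (1 + k * r') r (1 + k * r) + q2 a r (1 + k * r) r' (1 + k * r') := by
      rw [hd]; unfold q3 q2 Qh; ring
    rw [this, h0', e3, e2]; ring
  have n1 : q3 a r (1 + k * r) 1 k ≠ 0 := q3_ne hI hJ h0 (by ring)
  have n3 : q3 a r' (1 + k * r') 1 k ≠ 0 := q3_ne hI hJ h0' (by ring)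
  have hA1 : A1 ≠ 0 := by
    intro h; rw [h, neg_zero] at f1
    exact (mul_ne_zero n1 hδ) f1
  have hA3 : A3 ≠ 0 := by
    intro h; rw [h] at f3
    exact (mul_ne_zero n3 hδ) f3
  have v1 : q3 a r (1 + k * r) 1 k = -A1 / δ := by field_simp; linear_combination f1
  have v3 : q3 a r' (1 + k * r') 1 k = A3 / δ := by field_simp; linear_combination f3
  have w1 : q2 a r (1 + k * r) 1 k = (A2 - 2 * A1) / δ ^ 2 := by
    field_simp; linear_combination g1
  have w3 : q2 a r' (1 + k * r') 1 k = (A2 - 2 * A3) / δ ^ 2 := by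
    field_simp; linear_combination g3
  obtain ⟨D0, hD⟩ : ∃ D0, D0 = x - A2 / (2 * δ ^ 2) := ⟨_, rfl⟩
  have hx : x = D0 + A2 / (2 * δ ^ 2) := by rw [hD]; ring
  -- the cubic
  have cub : 4 * x ^ 3 - Ja a = 4 * D0 ^ 3 + 6 * D0 ^ 2 * A2 / δ ^ 2
      + 4 * D0 * A1 * A3 / δ ^ 4 := by
    have h := Qh_pt hI h0 (by ring : (1 : ℂ) * (1 + k * r) - k * r = 1) x
    have h' := Qh_basis a r (1 + k * r) r' (1 + k * r') D0 (A1 / δ ^ 2)
    rw [h0, h0', ← e1, ← e2, ← e3] at h'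
    rw [v1, w1] at h
    have c1 : (x - (A2 - 2 * A1) / δ ^ 2 / 2) * r + -A1 / δ * 1 = D0 * r + A1 / δ ^ 2 * r' := by
      rw [hx, hr]; field_simp; ring
    have c2 : (x - (A2 - 2 * A1) / δ ^ 2 / 2) * (1 + k * r) + -A1 / δ * k
        = D0 * (1 + k * r) + A1 / δ ^ 2 * (1 + k * r') := by
      rw [hx, hr]; field_simp; ring
    rw [c1, c2, h'] at h
    have h2 : (-A1 / δ) ^ 2 * (4 * x ^ 3 - Ja a) = (-A1 / δ) ^ 2 *
        (4 * D0 ^ 3 + 6 * D0 ^ 2 * A2 / δ ^ 2 + 4 * D0 * A1 * A3 / δ ^ 4) := by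
      rw [← h]; field_simp; ring
    exact mul_left_cancel₀ (pow_ne_zero 2 (div_ne_zero (neg_ne_zero.mpr hA1) hδ)) h2
  have hD0 : D0 ≠ 0 := by
    intro h
    rw [cub, h] at hy
    apply hy0
    have : y ^ 2 = 0 := by rw [hy]; ring
    exact pow_eq_zero_iff (two_ne_zero) |>.mp this
  refine ⟨A1, A2, A3, -y * δ / D0, D0 * δ ^ 2 / A1, A3 / (δ ^ 2 * D0), δ ^ 2 / A1, 1 / D0,
    e1, e2, e3, hA1, ?_, ?_, ?_, ?_, ?_, ?_, ?_, ?_⟩
  · field_simp
  · have hs : (-y * δ / D0) ^ 2 = Z * (4 * D0 * δ ^ 2 + 6 * A2 + 4 * A1 * A3 / (D0 * δ ^ 2)) := by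
      have : (-y * δ / D0) ^ 2 = y ^ 2 * δ ^ 2 / D0 ^ 2 := by ring
      rw [this, hy, cub]
      field_simp
    rw [hs]
    field_simp
    ring
  · exact div_ne_zero (pow_ne_zero 2 hδ) hA1
  · exact one_div_ne_zero hD0
  · funext i
    fin_cases i <;>
      (simp only [uf, scale, pv, v1, w1, Matrix.cons_val, Fin.zero_eta, Fin.mk_one,
        Fin.reduceFinMk]
       rw [hx, hr]; field_simp; ring)
  · funext i
    fin_cases i <;>
      (simp only [uf, scale, pv, v1, w1, Matrix.cons_val, Fin.zero_eta, Fin.mk_one,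
        Fin.reduceFinMk]
       rw [hx, hr]; field_simp; ring)
  · funext i
    fin_cases i <;>
      (simp only [uf, scale, pv, v3, w3, Matrix.cons_val, Fin.zero_eta, Fin.mk_one,
        Fin.reduceFinMk]
       rw [hx, hr]; field_simp; ring)
  · funext i
    fin_cases i <;>
      (simp only [uf, scale, pv, v3, w3, Matrix.cons_val, Fin.zero_eta, Fin.mk_one,
        Fin.reduceFinMk]
       rw [hx, hr]; field_simp; ring)

end R0_

theorem p_R0 : T_R0 := by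
  intro A hA f r' h' ξ η hη z
  obtain ⟨v, hv, rfl⟩ := exists_rep z
  by_cases hrr : f.r = r'
  · subst hrr
    exact ⟨rfl, rfl⟩
  by_cases hη0 : η = 0
  · subst hη0
    simp
  have hF := quintic_hom hA.hom
  have hσ : f.σ ≠ 0 := by
    intro h
    have := f.hσ
    rw [h] at this
    exact mul_ne_zero f.hZ f.hJ (by rw [← this]; ring)
  have hy := f.y_eq hη
  have hy0 : f.σ * η ≠ 0 := mul_ne_zero hσ hη0
  have hy' : (-(f.σ * η)) ^ 2 = f.Z * (4 * (f.ρ * ξ) ^ 3 - Ja (av A f.Y f.Z)) := by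
    rw [neg_sq, hy]
  obtain ⟨A1, A2, A3, s, t1, t2, μ, μ', e1, e2, e3, hA1, p, q, hμ, hμ', k1, k2, k3, k4⟩ :=
    R0_.main hA f.hZ f.hJ (sub_ne_zero.mpr hrr) f.root h' hy hy0
  obtain ⟨m1, m2⟩ := R0_.fam hA f.hZ (sub_ne_zero.mpr hrr) f.root h' e1 e2 e3 hA1 p q hv
  rw [k1, k2, k3, k4, P_scale hF (pv_onPlane hA f.root f.hJ hy) hμ,
    P_scale hF (pv_onPlane hA f.root f.hJ hy') hμ, P_scale hF (pv_onPlane hA h' f.hJ hy) hμ',
    P_scale hF (pv_onPlane hA h' f.hJ hy') hμ'] at m1 m2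
  simp only [Fib.pt, mul_neg]
  constructor
  · rw [sub_eq_sub_iff_add_eq_add, m1, add_comm]
  · rw [sub_eq_sub_iff_add_eq_add, m2, add_comm]

end Pool.Agent.Equi60
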