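import Pool.Agent.Equi60.Targets2

/-! EQ-SING: points over singular lines are trivial. -/

noncomputable section

namespace Pool.Agent.Equi60

open Polynomial Pool.Agent.Voisin60

namespace Sing_

lemma triv_of_family {F : MvPolynomial (Fin 3) ℂ} (hF : F.IsHomogeneous 5) {x : Half}
    (hx : x.Holds F 0 0) {s t : ℂ} (xs : x.Good 0 s) (xt : x.Good 0 t) {u : Fin 4 → ℂ}
    (h1 : x.pt s 0 0 = u) (h2 : x.pt t 0 0 3 = 0) : Triv (P F u) := by
  have ht : OnPlane F (x.pt t 0 0) := ⟨xt 0 (by simp), hx t 0 0 (by simp) (by simp)⟩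
  have h3 := triv_of_zero hF ht h2
  intro y
  have h4 := one_family hF hx xs xt y
  rw [h1] at h4
  exact ⟨h4.1.trans (h3 y).1, h4.2.trans (h3 y).2⟩

/-- A one-point family over a fixed line. -/
def fam (Xp mp wp : ℂ[X]) (Y Z : ℂ) : Half where
  p := ![Xp, mp * C Y, mp * C Z]
  q := 0
  w := ![wp, 0, 0]

lemma fam_pt (Xp mp wp : ℂ[X]) (Y Z s ζ υ : ℂ) : (fam Xp mp wp Y Z).pt s ζ υ =
    ![Xp.eval s, mp.eval s * Y, mp.eval s * Z, wp.eval s] := by
  funext i
  fin_cases i <;> simp [fam, Half.pt]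

lemma fam_holds {A : Fin 5 → MvPolynomial (Fin 2) ℂ} (hA : Hyp A) (Xp mp wp : ℂ[X]) (Y Z : ℂ)
    (h : ∀ s : ℂ, (wp.eval s) ^ 2 = mp.eval s * Z *
      (mp.eval s * Qh (av A Y Z) (Xp.eval s) (mp.eval s))) :
    (fam Xp mp wp Y Z).Holds (quintic A) 0 0 := by
  intro s ζ υ _ _
  rw [fam_pt]
  simp only [Matrix.cons_val]
  rw [eval_quintic' hA.hom, h s]

lemma fam_good (Xp mp wp : ℂ[X]) {Y Z : ℂ} (hZ : Z ≠ 0) {s : ℂ}
    (h : ¬ (Xp.eval s = 0 ∧ mp.eval s = 0)) : (fam Xp mp wp Y Z).Good 0 s := by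
  intro ζ _
  rw [fam_pt]
  simp only [Matrix.cons_val]
  rintro ⟨h0, _, h2⟩
  exact h ⟨h0, (mul_eq_zero.mp h2).resolve_right hZ⟩

end Sing_

open Sing_

/-- EQ-SING. Points over singular lines are trivial. -/
theorem p_SING (hQ : T_QUART) : T_SING := by
  intro A hA u hu hJ
  have hF := quintic_hom hA.hom
  by_cases h3 : u 3 = 0
  · exact triv_of_zero hF hu h3
  obtain ⟨α, β, γ, δ, hq⟩ := hQ _ (hA.I0 (u 1) (u 2)) hJ
  have hpl := hu.2
  have hev : MvPolynomial.eval ![u 0, u 1, u 2] (quintic A)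
      = (α * u 0 + β) ^ 3 * (γ * u 0 + δ) := by
    rw [eval_quintic, hq]
    ring
  rw [hev] at hpl
  have hZ : u 2 ≠ 0 := by
    intro h
    apply h3
    rw [h, zero_mul] at hpl
    exact pow_eq_zero_iff (two_ne_zero) |>.mp hpl
  have hL : α * u 0 + β ≠ 0 := by
    intro h
    apply h3
    rw [h] at hpl
    have : u 3 ^ 2 = 0 := by linear_combination hpl
    exact pow_eq_zero_iff (two_ne_zero) |>.mp this
  have hc : γ * u 0 + δ ≠ 0 := by
    intro h
    apply h3
    rw [h] at hpl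
    have : u 3 ^ 2 = 0 := by linear_combination hpl
    exact pow_eq_zero_iff (two_ne_zero) |>.mp this
  obtain ⟨L, hLd⟩ : ∃ L, L = α * u 0 + β := ⟨_, rfl⟩
  obtain ⟨c, hcd⟩ : ∃ c, c = γ * u 0 + δ := ⟨_, rfl⟩
  rw [← hLd] at hL
  rw [← hcd] at hc
  rw [← hLd, ← hcd] at hpl
  by_cases hD : α * δ - β * γ = 0
  · -- dependent linear forms
    have hγ : γ * L = α * c := by
      rw [hLd, hcd]
      linear_combination (-1 : ℂ) * hD
    have hδ : δ * L = β * c := by
      rw [hLd, hcd]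
      linear_combination (u 0) * hD
    refine triv_of_family hF (x := fam (X * C (u 0) + (1 - X) * C β) (X - (1 - X) * C α)
      (C (u 3) * (X - (1 - X) * C α) * X ^ 2) (u 1) (u 2)) (s := 1) (t := 0)
      (fam_holds hA _ _ _ _ _ ?_) (fam_good _ _ _ hZ ?_) (fam_good _ _ _ hZ ?_) ?_ ?_
    · intro s
      rw [hq]
      simp only [eval_mul, eval_C, eval_add, eval_sub, eval_X, eval_one, eval_pow]
      have h1 : α * (s * u 0 + (1 - s) * β) + β * (s - (1 - s) * α) = s * L := by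
        rw [hLd]
        ring
      have h2 : (γ * (s * u 0 + (1 - s) * β) + δ * (s - (1 - s) * α)) = s * c := by
        have h4 : γ * β - δ * α = 0 := by linear_combination (-1 : ℂ) * hD
        rw [hcd]
        linear_combination (1 - s) * h4
      rw [h1, h2]
      linear_combination (s - (1 - s) * α) ^ 2 * s ^ 4 * hpl
    · simp
    · simp only [eval_mul, eval_C, eval_add, eval_sub, eval_X, eval_one]
      rintro ⟨h5, h6⟩
      apply hL
      rw [hLd]
      linear_combination h5 - u 0 * h6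
    · rw [fam_pt]
      funext i
      fin_cases i <;> simp
    · rw [fam_pt]
      simp
  · -- independent linear forms
    obtain ⟨s0, hs0⟩ := IsAlgClosed.exists_pow_nat_eq L (n := 2) (by norm_num)
    have hs0n : s0 ≠ 0 := by
      rintro rfl
      apply hL
      rw [← hs0]
      ring
    obtain ⟨D, hDd⟩ : ∃ D, D = α * δ - β * γ := ⟨_, rfl⟩
    rw [← hDd] at hD
    have hz : (u 3 / s0 ^ 3) ^ 2 = u 2 * c := by
      rw [div_pow, hpl, ← hs0]
      field_simp
    have eX : ∀ s : ℂ, α * ((δ * s ^ 2 - β * c) / D) + β * ((α * c - γ * s ^ 2) / D) = s ^ 2 := by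
      intro s
      field_simp
      rw [hDd]
      ring
    have eM : ∀ s : ℂ, γ * ((δ * s ^ 2 - β * c) / D) + δ * ((α * c - γ * s ^ 2) / D) = c := by
      intro s
      field_simp
      rw [hDd]
      ring
    have pX : ∀ s : ℂ, (C (δ / D) * X ^ 2 - C (β * c / D)).eval s = (δ * s ^ 2 - β * c) / D := by
      intro s
      simp only [eval_sub, eval_mul, eval_C, eval_pow, eval_X]
      ring
    have pM : ∀ s : ℂ, (C (α * c / D) - C (γ / D) * X ^ 2).eval s = (α * c - γ * s ^ 2) / D := by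
      intro s
      simp only [eval_sub, eval_mul, eval_C, eval_pow, eval_X]
      ring
    have good : ∀ s : ℂ, ¬ ((C (δ / D) * X ^ 2 - C (β * c / D)).eval s = 0 ∧
        (C (α * c / D) - C (γ / D) * X ^ 2).eval s = 0) := by
      rintro s ⟨h5, h6⟩
      rw [pX] at h5
      rw [pM] at h6
      apply hc
      rw [← eM s, h5, h6]
      ring
    have x0 : (δ * s0 ^ 2 - β * c) / D = u 0 := by
      rw [div_eq_iff hD, hs0, hDd, hLd, hcd]
      ring
    have m0 : (α * c - γ * s0 ^ 2) / D = 1 := by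
      rw [div_eq_iff hD, hs0, hDd, hLd, hcd]
      ring
    refine triv_of_family hF (x := fam (C (δ / D) * X ^ 2 - C (β * c / D))
      (C (α * c / D) - C (γ / D) * X ^ 2)
      (C (u 3 / s0 ^ 3) * (C (α * c / D) - C (γ / D) * X ^ 2) * X ^ 3) (u 1) (u 2))
      (s := s0) (t := 0)
      (fam_holds hA _ _ _ _ _ ?_) (fam_good _ _ _ hZ (good _)) (fam_good _ _ _ hZ (good _)) ?_ ?_
    · intro s
      rw [hq, eval_mul, eval_mul, eval_C, eval_pow, eval_X, pX, pM, eX, eM, mul_pow, mul_pow, hz]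
      ring
    · rw [fam_pt, eval_mul, eval_mul, eval_C, eval_pow, eval_X, pX, pM, x0, m0]
      funext i
      fin_cases i
      · simp
      · simp
      · simp
      · simp [hs0n]
    · rw [fam_pt]
      simp

end Pool.Agent.Equi60
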