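import Pool.Agent.Equi60.Targets
import Pool.Agent.KRL.NonzeroZero

/-! Proof of EQ-T3. -/

noncomputable section

namespace Pool.Agent.Equi60

open Polynomial

lemma T3_J2p_eval (a b : Fin 9 → ℂ) (p0 p1 p2 : ℂ[X]) (s : ℂ) :
    (J2p a b p0 p1 p2).eval s = J2 a b (p0.eval s) (p1.eval s) (p2.eval s) := by
  unfold J2p J2
  rw [Polynomial.eval_prod]
  simp

lemma T3_J2_smul (a b : Fin 9 → ℂ) (c p0 p1 p2 : ℂ) :
    J2 a b (c * p0) (c * p1) (c * p2) = c ^ 9 * J2 a b p0 p1 p2 := by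
  unfold J2
  have : ∀ j, b j ^ 2 * (c * p0) - a j * b j * (c * p1) + a j ^ 2 * (c * p2)
      = c * (b j ^ 2 * p0 - a j * b j * p1 + a j ^ 2 * p2) := fun j => by ring
  simp only [this]
  rw [Finset.prod_mul_distrib]
  simp

/-- The Vandermonde argument. -/
lemma T3_vand {a b : Fin 9 → ℂ} (hab : ∀ i j, i ≠ j → a i * b j - a j * b i ≠ 0)
    {i j k : Fin 9} (hij : i ≠ j) (hik : i ≠ k) (hjk : j ≠ k) {P0 P1 P2 : ℂ}
    (hi : b i ^ 2 * P0 - a i * b i * P1 + a i ^ 2 * P2 = 0)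
    (hj : b j ^ 2 * P0 - a j * b j * P1 + a j ^ 2 * P2 = 0)
    (hk : b k ^ 2 * P0 - a k * b k * P1 + a k ^ 2 * P2 = 0) :
    P0 = 0 ∧ P1 = 0 ∧ P2 = 0 := by
  have h1 := hab i j hij
  have h2 := hab i k hik
  have h3 := hab j k hjk
  have hd : (a i * b j - a j * b i) * (a i * b k - a k * b i) * (a j * b k - a k * b j) ≠ 0 :=
    mul_ne_zero (mul_ne_zero h1 h2) h3
  refine ⟨?_, ?_, ?_⟩
  · have : (a i * b j - a j * b i) * (a i * b k - a k * b i) * (a j * b k - a k * b j) * P0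
        = 0 := by
      linear_combination (a j * a k * (a j * b k - a k * b j)) * hi
        - (a i * a k * (a i * b k - a k * b i)) * hj
        + (a i * a j * (a i * b j - a j * b i)) * hk
    rcases mul_eq_zero.mp this with h | h
    · exact absurd h hd
    · exact h
  · have : (a i * b j - a j * b i) * (a i * b k - a k * b i) * (a j * b k - a k * b j) * P1
        = 0 := by
      linear_combination ((a j * b k - a k * b j) * (a j * b k + a k * b j)) * hi
        - ((a i * b k - a k * b i) * (a i * b k + a k * b i)) * hj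
        + ((a i * b j - a j * b i) * (a i * b j + a j * b i)) * hk
    rcases mul_eq_zero.mp this with h | h
    · exact absurd h hd
    · exact h
  · have : (a i * b j - a j * b i) * (a i * b k - a k * b i) * (a j * b k - a k * b j) * P2
        = 0 := by
      linear_combination (b j * b k * (a j * b k - a k * b j)) * hi
        - (b i * b k * (a i * b k - a k * b i)) * hj
        + (b i * b j * (a i * b j - a j * b i)) * hk
    rcases mul_eq_zero.mp this with h | h
    · exact absurd h hd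
    · exact h

/-- The general polynomial whose coefficients are the equations. -/
def T3_F {R : Type} [CommRing R] [Algebra ℂ R] (a b : Fin 9 → ℂ) (q0 q1 q2 x0 l0 : ℂ)
    (t : Fin 10 → R) : R[X] :=
  4 * (C (algebraMap ℂ R x0) + C (t 2) * X + C (t 3) * X ^ 2 + C (t 4) * X ^ 3) ^ 3
    - ∏ j, (C (algebraMap ℂ R (b j ^ 2)) * (C (algebraMap ℂ R q0) + C (t 0) * X)
        - C (algebraMap ℂ R (a j * b j)) * (C (algebraMap ℂ R q1) + C (t 1) * X)
        + C (algebraMap ℂ R (a j ^ 2)) * C (algebraMap ℂ R q2))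
    - (C (algebraMap ℂ R l0) + C (t 9) * X)
      * (1 + C (t 5) * X + C (t 6) * X ^ 2 + C (t 7) * X ^ 3 + C (t 8) * X ^ 4) ^ 2

lemma T3_F_map {R S : Type} [CommRing R] [Algebra ℂ R] [CommRing S] [Algebra ℂ S]
    (φ : R →+* S) (hφ : ∀ c : ℂ, φ (algebraMap ℂ R c) = algebraMap ℂ S c)
    (a b : Fin 9 → ℂ) (q0 q1 q2 x0 l0 : ℂ)
    (t : Fin 10 → R) :
    (T3_F a b q0 q1 q2 x0 l0 t).map φ = T3_F a b q0 q1 q2 x0 l0 (fun i => φ (t i)) := by
  unfold T3_F
  simp only [Polynomial.map_sub, Polynomial.map_mul, Polynomial.map_add, Polynomial.map_pow,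
    Polynomial.map_prod, Polynomial.map_C, Polynomial.map_X, Polynomial.map_one, hφ,
    Polynomial.map_ofNat]

lemma T3_F_deg (a b : Fin 9 → ℂ) (q0 q1 q2 x0 l0 : ℂ) (t : Fin 10 → ℂ) :
    (T3_F a b q0 q1 q2 x0 l0 t).natDegree ≤ 9 := by
  unfold T3_F
  have h1 : (4 * (C (algebraMap ℂ ℂ x0) + C (t 2) * X + C (t 3) * X ^ 2 + C (t 4) * X ^ 3) ^ 3 :
      ℂ[X]).natDegree ≤ 9 := by
    have : (4 : ℂ[X]) = C 4 := (map_ofNat C 4).symm
    rw [this]
    refine (natDegree_C_mul_le _ _).trans ?_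
    refine (natDegree_pow_le).trans ?_
    have : (C (algebraMap ℂ ℂ x0) + C (t 2) * X + C (t 3) * X ^ 2 + C (t 4) * X ^ 3 :
      ℂ[X]).natDegree ≤ 3 := by compute_degree
    omega
  have h2 : (∏ j, (C (algebraMap ℂ ℂ (b j ^ 2)) * (C (algebraMap ℂ ℂ q0) + C (t 0) * X)
        - C (algebraMap ℂ ℂ (a j * b j)) * (C (algebraMap ℂ ℂ q1) + C (t 1) * X)
        + C (algebraMap ℂ ℂ (a j ^ 2)) * C (algebraMap ℂ ℂ q2)) : ℂ[X]).natDegree ≤ 9 := by
    refine (natDegree_prod_le _ _).trans ?_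
    refine (Finset.sum_le_card_nsmul _ _ 1 ?_).trans (by simp)
    intro j _
    compute_degree
  have h3 : ((C (algebraMap ℂ ℂ l0) + C (t 9) * X)
      * (1 + C (t 5) * X + C (t 6) * X ^ 2 + C (t 7) * X ^ 3 + C (t 8) * X ^ 4) ^ 2 :
      ℂ[X]).natDegree ≤ 9 := by
    refine (natDegree_mul_le).trans ?_
    have e1 : (C (algebraMap ℂ ℂ l0) + C (t 9) * X : ℂ[X]).natDegree ≤ 1 := by compute_degree
    have e2 : ((1 + C (t 5) * X + C (t 6) * X ^ 2 + C (t 7) * X ^ 3 + C (t 8) * X ^ 4) :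
      ℂ[X]).natDegree ≤ 4 := by compute_degree
    have e3 : ((1 + C (t 5) * X + C (t 6) * X ^ 2 + C (t 7) * X ^ 3 + C (t 8) * X ^ 4) ^ 2 :
      ℂ[X]).natDegree ≤ 8 := (natDegree_pow_le).trans (by omega)
    omega
  exact natDegree_sub_le_of_le (natDegree_sub_le_of_le h1 h2) h3

/-- A nonzero solution of the system. -/
lemma T3_exists (a b : Fin 9 → ℂ) (q0 q1 q2 x0 l0 : ℂ)
    (hl : l0 = 4 * x0 ^ 3 - J2 a b q0 q1 q2) :
    ∃ t : Fin 10 → ℂ, t ≠ 0 ∧ T3_F a b q0 q1 q2 x0 l0 t = 0 := by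
  have hc : ∀ t : Fin 10 → ℂ, (T3_F a b q0 q1 q2 x0 l0 t).coeff 0 = 0 := by
    intro t
    rw [coeff_zero_eq_eval_zero]
    unfold T3_F
    simp only [eval_sub, eval_mul, eval_add, eval_pow, eval_prod, eval_C, eval_X, eval_one,
      eval_ofNat, Algebra.algebraMap_self, RingHom.id_apply]
    rw [hl]
    unfold J2
    simp
  set P : (MvPolynomial (Fin 10) ℂ)[X] :=
    T3_F a b q0 q1 q2 x0 l0 (fun i => MvPolynomial.X i) with hP
  have hmap : ∀ t : Fin 10 → ℂ, P.map (MvPolynomial.eval t) = T3_F a b q0 q1 q2 x0 l0 t := by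
    intro t
    rw [hP, T3_F_map (MvPolynomial.eval t)]
    · simp
    · intro c
      rw [MvPolynomial.algebraMap_eq]
      simp
  have h0 : ∀ i : Fin 9, MvPolynomial.eval 0 (P.coeff (i.val + 1)) = 0 := by
    intro i
    rw [← Polynomial.coeff_map, hmap 0]
    have : T3_F a b q0 q1 q2 x0 l0 (0 : Fin 10 → ℂ)
        = C (4 * x0 ^ 3 - J2 a b q0 q1 q2 - l0) := by
      unfold T3_F J2
      simp [Polynomial.C_ofNat]
    rw [this, hl]
    simp
  obtain ⟨t, ht, hz⟩ := Pool.Agent.KRL.exists_nonzero_zero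
    (n := 9) (fun i => P.coeff (i.val + 1)) h0
  refine ⟨t, ht, ?_⟩
  ext n
  rw [coeff_zero]
  rcases Nat.eq_zero_or_pos n with h | h
  · rw [h]; exact hc t
  · by_cases hn : n ≤ 9
    · have := hz ⟨n - 1, by omega⟩
      simp only at this
      rw [← Polynomial.coeff_map, hmap t] at this
      have e : n - 1 + 1 = n := by omega
      rw [e] at this
      exact this
    · exact coeff_eq_zero_of_natDegree_lt (lt_of_le_of_lt (T3_F_deg a b q0 q1 q2 x0 l0 t)
        (by omega))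

/-- The direction of a nonzero solution is not zero. -/
lemma T3_dir {a b : Fin 9 → ℂ} {q0 q1 q2 x0 l0 : ℂ} (hJ : J2 a b q0 q1 q2 ≠ 0)
    (hl0 : l0 ≠ 0) {t : Fin 10 → ℂ} (ht : t ≠ 0)
    (hF : T3_F a b q0 q1 q2 x0 l0 t = 0) : ¬ (t 0 = 0 ∧ t 1 = 0) := by
  rintro ⟨ht0, ht1⟩
  set Xp : ℂ[X] := C x0 + C (t 2) * X + C (t 3) * X ^ 2 + C (t 4) * X ^ 3 with hXp
  set M : ℂ[X] := 1 + C (t 5) * X + C (t 6) * X ^ 2 + C (t 7) * X ^ 3 + C (t 8) * X ^ 4 with hM
  set L : ℂ[X] := C l0 + C (t 9) * X with hL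
  set c : ℂ := J2 a b q0 q1 q2 with hc
  have hid : 4 * Xp ^ 3 - C c - L * M ^ 2 = 0 := by
    rw [← hF, hc]
    unfold T3_F J2
    rw [map_prod]
    simp [ht0, ht1, hXp, hM, hL]
  have hid' : 4 * Xp ^ 3 - C c = L * M ^ 2 := by linear_combination hid
  have hM0 : M.eval 0 = 1 := by simp [hM]
  have hL0 : L.eval 0 = l0 := by simp [hL]
  have hMne : M ≠ 0 := by
    intro h; rw [h] at hM0; simp at hM0
  have hLne : L ≠ 0 := by
    intro h; rw [h] at hL0; simp at hL0; exact hl0 hL0.symm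
  have hcop : IsCoprime M Xp := by
    refine ⟨-(L * M * C c⁻¹), 4 * Xp ^ 2 * C c⁻¹, ?_⟩
    have e : C c * C c⁻¹ = (1 : ℂ[X]) := by
      rw [← C_mul, mul_inv_cancel₀ hJ, C_1]
    linear_combination (C c⁻¹) * hid' + e
  have hder : 4 * (3 * Xp ^ 2 * derivative Xp) = M * (derivative L * M + 2 * L * derivative M) := by
    have := congrArg derivative hid'
    simp only [derivative_sub, derivative_mul, derivative_pow, derivative_C, sub_zero] at this
    simp at this
    rw [show (C (3 : ℂ) : ℂ[X]) = 3 from map_ofNat C 3,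
      show (C (2 : ℂ) : ℂ[X]) = 2 from map_ofNat C 2] at this
    linear_combination this
  have hdvd : M ∣ derivative Xp := by
    have h1 : M ∣ Xp ^ 2 * derivative Xp := by
      refine ⟨C (1 / 12) * (derivative L * M + 2 * L * derivative M), ?_⟩
      have e : (12 : ℂ[X]) * C (1 / 12) = 1 := by
        have : (12 : ℂ[X]) = C 12 := (map_ofNat C 12).symm
        rw [this, ← C_mul]; norm_num
      linear_combination (C (1 / 12)) * hder - Xp ^ 2 * derivative Xp * e
    exact (IsCoprime.pow_right hcop).dvd_of_dvd_mul_left h1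
  have hdeg : 3 * Xp.natDegree = L.natDegree + 2 * M.natDegree := by
    have h1 : (4 * Xp ^ 3 - C c).natDegree = 3 * Xp.natDegree := by
      have : (4 : ℂ[X]) = C 4 := (map_ofNat C 4).symm
      rw [natDegree_sub_C, this, natDegree_C_mul (by norm_num), natDegree_pow]
    have h2 : (L * M ^ 2).natDegree = L.natDegree + 2 * M.natDegree := by
      rw [natDegree_mul hLne (pow_ne_zero 2 hMne), natDegree_pow]
    rw [← h1, ← h2, hid']
  have hLd : L.natDegree ≤ 1 := by rw [hL]; compute_degree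
  have hX0 : Xp.natDegree = 0 := by
    by_contra hne
    have hd : derivative Xp ≠ 0 := by
      intro h
      exact hne (Polynomial.derivative_eq_zero.mp h)
    have h1 := natDegree_le_of_dvd hdvd hd
    have h2 := natDegree_derivative_lt hne
    omega
  have hM0' : M.natDegree = 0 := by omega
  have hL0' : L.natDegree = 0 := by omega
  apply ht
  have hx : ∀ k, 0 < k → Xp.coeff k = 0 := fun k hk =>
    coeff_eq_zero_of_natDegree_lt (by omega)
  have hm : ∀ k, 0 < k → M.coeff k = 0 := fun k hk =>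
    coeff_eq_zero_of_natDegree_lt (by omega)
  have hl : ∀ k, 0 < k → L.coeff k = 0 := fun k hk =>
    coeff_eq_zero_of_natDegree_lt (by omega)
  have x1 := hx 1 (by norm_num)
  have x2 := hx 2 (by norm_num)
  have x3 := hx 3 (by norm_num)
  have m1 := hm 1 (by norm_num)
  have m2 := hm 2 (by norm_num)
  have m3 := hm 3 (by norm_num)
  have m4 := hm 4 (by norm_num)
  have l1 := hl 1 (by norm_num)
  simp [hXp, coeff_C, coeff_X_pow] at x1 x2 x3
  simp [hM, coeff_X_pow, coeff_one] at m1 m2 m3 m4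
  simp [hL, coeff_C] at l1
  funext i
  fin_cases i <;> simp_all

/-- Homogenisation of the identity. -/
lemma T3_hom {a b : Fin 9 → ℂ} {q0 q1 q2 x0 l0 : ℂ} {t : Fin 10 → ℂ}
    (hF : T3_F a b q0 q1 q2 x0 l0 t = 0) (D E : ℂ[X]) (hD : D ≠ 0) :
    4 * (C x0 * D ^ 3 + C (t 2) * D ^ 2 * E + C (t 3) * D * E ^ 2 + C (t 4) * E ^ 3) ^ 3
      - J2p a b (D * C q0 + E * C (t 0)) (D * C q1 + E * C (t 1)) (D * C q2)
    = (D * C l0 + E * C (t 9))
      * (D ^ 4 + C (t 5) * D ^ 3 * E + C (t 6) * D ^ 2 * E ^ 2 + C (t 7) * D * E ^ 3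
        + C (t 8) * E ^ 4) ^ 2 := by
  have hlam : ∀ z : ℂ, 4 * (x0 + t 2 * z + t 3 * z ^ 2 + t 4 * z ^ 3) ^ 3
      - J2 a b (q0 + t 0 * z) (q1 + t 1 * z) q2
      = (l0 + t 9 * z) * (1 + t 5 * z + t 6 * z ^ 2 + t 7 * z ^ 3 + t 8 * z ^ 4) ^ 2 := by
    intro z
    have := congrArg (eval z) hF
    unfold T3_F at this
    simp only [eval_sub, eval_mul, eval_add, eval_pow, eval_prod, eval_C, eval_X, eval_one,
      eval_ofNat, Algebra.algebraMap_self, RingHom.id_apply, eval_zero] at this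
    unfold J2
    linear_combination this
  refine mul_left_cancel₀ hD (Polynomial.funext fun u => ?_)
  simp only [eval_mul, eval_sub, eval_add, eval_pow, eval_C, eval_ofNat, T3_J2p_eval]
  set d := D.eval u with hd
  set e := E.eval u with he
  by_cases h0 : d = 0
  · rw [h0]; ring
  · congr 1
    have h1 := hlam (e / d)
    have h2 := T3_J2_smul a b d (q0 + t 0 * (e / d)) (q1 + t 1 * (e / d)) q2
    have e0 : d * (q0 + t 0 * (e / d)) = d * q0 + e * t 0 := by field_simp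
    have e1 : d * (q1 + t 1 * (e / d)) = d * q1 + e * t 1 := by field_simp
    rw [e0, e1] at h2
    rw [h2]
    have h3 : d ^ 9 * (4 * (x0 + t 2 * (e / d) + t 3 * (e / d) ^ 2 + t 4 * (e / d) ^ 3) ^ 3
      - J2 a b (q0 + t 0 * (e / d)) (q1 + t 1 * (e / d)) q2)
      = d ^ 9 * ((l0 + t 9 * (e / d)) * (1 + t 5 * (e / d) + t 6 * (e / d) ^ 2
        + t 7 * (e / d) ^ 3 + t 8 * (e / d) ^ 4) ^ 2) := by rw [h1]
    have e2 : d ^ 9 * ((l0 + t 9 * (e / d)) * (1 + t 5 * (e / d) + t 6 * (e / d) ^ 2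
        + t 7 * (e / d) ^ 3 + t 8 * (e / d) ^ 4) ^ 2)
        = (d * l0 + e * t 9)
      * (d ^ 4 + t 5 * d ^ 3 * e + t 6 * d ^ 2 * e ^ 2 + t 7 * d * e ^ 3 + t 8 * e ^ 4) ^ 2 := by
      field_simp
    have e3 : d ^ 9 * (4 * (x0 + t 2 * (e / d) + t 3 * (e / d) ^ 2 + t 4 * (e / d) ^ 3) ^ 3)
        = 4 * (x0 * d ^ 3 + t 2 * d ^ 2 * e + t 3 * d * e ^ 2 + t 4 * e ^ 3) ^ 3 := by
      field_simp
    rw [e2] at h3
    rw [← h3, mul_sub, e3]

/-- A product of nine linear polynomials, no three with a common root, has no triple root. -/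
lemma T3_no_cube (G : Fin 9 → ℂ[X]) (hne : ∀ j, G j ≠ 0) (hdeg : ∀ j, (G j).natDegree ≤ 1)
    (s : ℂ) (h3 : ∀ i j k, i ≠ j → i ≠ k → j ≠ k → (G i).eval s = 0 → (G j).eval s = 0 →
      (G k).eval s = 0 → False) :
    ¬ (X - C s) ^ 3 ∣ ∏ j, G j := by
  classical
  intro hdvd
  have hP : (∏ j, G j) ≠ 0 := Finset.prod_ne_zero_iff.mpr fun j _ => hne j
  have h1 : 3 ≤ rootMultiplicity s (∏ j, G j) := (le_rootMultiplicity_iff hP).mpr hdvd
  rw [← count_roots, roots_prod _ _ hP, Multiset.count_bind] at h1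
  have h2 : (Multiset.map (fun b => Multiset.count s (G b).roots)
      (Finset.univ : Finset (Fin 9)).val).sum
      = ∑ j, rootMultiplicity s (G j) := by
    simp only [count_roots]
    rfl
  rw [h2] at h1
  have h4 : ∑ j, rootMultiplicity s (G j) ≤ ∑ j, if (G j).eval s = 0 then 1 else 0 := by
    refine Finset.sum_le_sum fun j _ => ?_
    split_ifs with h
    · have := Polynomial.card_roots' (G j)
      rw [← count_roots]
      exact (Multiset.count_le_card _ _).trans (this.trans (hdeg j))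
    · rw [rootMultiplicity_eq_zero (by rwa [IsRoot])]
  have h5 : (∑ j : Fin 9, if (G j).eval s = 0 then 1 else 0)
      = (Finset.univ.filter fun j => (G j).eval s = 0).card := by
    rw [Finset.card_filter]
  have h6 : 2 < (Finset.univ.filter fun j => (G j).eval s = 0).card := by omega
  obtain ⟨i, j, k, hi, hj, hk, hij, hik, hjk⟩ := Finset.two_lt_card_iff.mp h6
  simp only [Finset.mem_filter, Finset.mem_univ, true_and] at hi hj hk
  exact h3 i j k hij hik hjk hi hj hk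

/-- The root of `m` with `J ≠ 0` in the degenerate case. -/
lemma T3_root {a b : Fin 9 → ℂ} (hab : ∀ i j, i ≠ j → a i * b j - a j * b i ≠ 0)
    {q0 q1 q2 x0 l0 : ℂ} (hq2 : q2 ≠ 0) (hJ : J2 a b q0 q1 q2 ≠ 0) (hx0 : x0 ≠ 0)
    {t : Fin 10 → ℂ} (hv : ¬ (t 0 = 0 ∧ t 1 = 0)) (D : ℂ[X]) (ε : ℂ) (hD : D = 1 - C ε * X)
    (Xt M : ℂ[X])
    (hXt : Xt = C x0 * D ^ 3 + C (t 2) * D ^ 2 * X + C (t 3) * D * X ^ 2 + C (t 4) * X ^ 3)
    (hM : M.natDegree = 4)
    (hid : 4 * Xt ^ 3 - J2p a b (D * C q0 + X * C (t 0)) (D * C q1 + X * C (t 1)) (D * C q2)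
      = D * C l0 * M ^ 2) :
    ∃ s : ℂ, M.eval s = 0 ∧ J2 a b (D.eval s * q0 + s * t 0) (D.eval s * q1 + s * t 1)
      (D.eval s * q2) ≠ 0 := by
  classical
  by_contra hcon
  push Not at hcon
  have hM0 : M ≠ 0 := by
    intro h; rw [h] at hM; simp at hM
  -- the roots of `M` are roots of `Xt`
  have hroot : ∀ s, M.eval s = 0 → Xt.eval s = 0 := by
    intro s hs
    have h1 := congrArg (eval s) hid
    simp only [eval_mul, eval_sub, eval_add, eval_pow, eval_C, eval_X, eval_ofNat,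
      T3_J2p_eval] at h1
    rw [hcon s hs, hs] at h1
    have h2 : (Xt.eval s) ^ 3 = 0 := by linear_combination (1 / 4) * h1
    exact pow_eq_zero_iff (by norm_num) |>.mp h2
  -- the roots are simple
  have hsimple : ∀ s, rootMultiplicity s M ≤ 1 := by
    intro s
    by_contra h
    have h2 : (X - C s) ^ 2 ∣ M := (le_rootMultiplicity_iff hM0).mp (by omega)
    have hs : M.eval s = 0 := by
      obtain ⟨R, hR⟩ := h2
      rw [hR]; simp
    have h3 : (X - C s) ∣ Xt := dvd_iff_isRoot.mpr (hroot s hs)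
    have h4 : (X - C s) ^ 3 ∣ J2p a b (D * C q0 + X * C (t 0)) (D * C q1 + X * C (t 1))
        (D * C q2) := by
      have e : J2p a b (D * C q0 + X * C (t 0)) (D * C q1 + X * C (t 1)) (D * C q2)
          = 4 * Xt ^ 3 - D * C l0 * M ^ 2 := by linear_combination -hid
      rw [e]
      refine dvd_sub ((pow_dvd_pow_of_dvd h3 3).mul_left _) (Dvd.dvd.mul_left ?_ _)
      have h5 : ((X - C s) ^ 2) ^ 2 ∣ M ^ 2 := pow_dvd_pow_of_dvd h2 2
      refine dvd_trans ?_ h5
      rw [← pow_mul]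
      exact pow_dvd_pow _ (by norm_num)
    unfold J2p at h4
    refine T3_no_cube _ ?_ ?_ s ?_ h4
    · intro j h
      have h6 := congrArg (eval 0) h
      rw [hD] at h6
      simp at h6
      apply hJ
      unfold J2
      exact Finset.prod_eq_zero (Finset.mem_univ j) (by linear_combination h6)
    · intro j
      rw [hD]
      have e : C (b j ^ 2) * ((1 - C ε * X) * C q0 + X * C (t 0))
          - C (a j * b j) * ((1 - C ε * X) * C q1 + X * C (t 1))
          + C (a j ^ 2) * ((1 - C ε * X) * C q2)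
          = C (b j ^ 2 * q0 - a j * b j * q1 + a j ^ 2 * q2)
            + C (b j ^ 2 * (t 0 - ε * q0) - a j * b j * (t 1 - ε * q1) - a j ^ 2 * ε * q2) * X := by
        simp only [map_add, map_sub, map_mul, map_pow]
        ring
      rw [e]
      compute_degree
    · intro i j k hij hik hjk hi hj hk
      rw [hD] at hi hj hk
      simp only [eval_mul, eval_sub, eval_add, eval_C, eval_X, eval_one] at hi hj hk
      obtain ⟨z0, z1, z2⟩ := T3_vand hab hij hik hjk hi hj hk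
      have hd : 1 - ε * s = 0 := by
        rcases mul_eq_zero.mp z2 with h | h
        · exact h
        · exact absurd h hq2
      have hs0 : s ≠ 0 := by
        intro h; rw [h] at hd; simp at hd
      rw [hd] at z0 z1
      simp [hs0] at z0 z1
      exact hv ⟨z0, z1⟩
  -- count
  have hcard : M.roots.card = 4 := by
    rw [IsAlgClosed.card_roots_eq_natDegree, hM]
  have hnd : M.roots.Nodup := by
    rw [Multiset.nodup_iff_count_le_one]
    intro s
    rw [count_roots]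
    exact hsimple s
  have hXt0 : Xt.eval 0 = x0 := by rw [hXt, hD]; simp
  have hXtne : Xt ≠ 0 := by
    intro h; rw [h] at hXt0; simp at hXt0; exact hx0 hXt0.symm
  have hXtd : Xt.natDegree ≤ 3 := by
    have e : Xt = C x0 + C (t 2 - 3 * ε * x0) * X + C (3 * ε ^ 2 * x0 - 2 * ε * t 2 + t 3) * X ^ 2
        + C (t 4 - ε * t 3 + ε ^ 2 * t 2 - ε ^ 3 * x0) * X ^ 3 := by
      rw [hXt, hD]
      simp only [map_add, map_sub, map_mul, map_pow, map_ofNat]
      ring
    rw [e]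
    compute_degree
  have hle : M.roots ≤ Xt.roots := by
    rw [Multiset.le_iff_subset hnd]
    intro s hs
    rw [mem_roots hM0] at hs
    rw [mem_roots hXtne]
    exact hroot s hs
  have := Multiset.card_le_card hle
  have h7 := card_roots' Xt
  omega

/-- EQ-T3. -/
theorem p_T3 : T_T3 := by
  intro a b hab q0 q1 q2 x0 w0 hq2 hJ hx0 hw0 hw
  set l0 : ℂ := 4 * x0 ^ 3 - J2 a b q0 q1 q2 with hl0
  have hl0ne : l0 ≠ 0 := by
    intro h
    rw [h] at hw
    simp at hw
    exact hw0 hw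
  obtain ⟨t, ht, hF⟩ := T3_exists a b q0 q1 q2 x0 l0 hl0
  have hv := T3_dir hJ hl0ne ht hF
  by_cases h9 : t 9 = 0
  · -- the degenerate case
    obtain ⟨ε, hε⟩ : ∃ ε : ℂ, ε ^ 4 - t 5 * ε ^ 3 + t 6 * ε ^ 2 - t 7 * ε + t 8 ≠ 0 := by
      by_contra hcon
      push Not at hcon
      have h0 : (X ^ 4 - C (t 5) * X ^ 3 + C (t 6) * X ^ 2 - C (t 7) * X + C (t 8) : ℂ[X]) = 0 := by
        refine Polynomial.funext fun z => ?_
        simp [hcon z]
      have h1 := congrArg (fun P => coeff P 4) h0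
      simp [coeff_X_pow] at h1
    set D : ℂ[X] := 1 - C ε * X with hD
    have hDne : D ≠ 0 := by
      intro h
      have := congrArg (eval 0) h
      simp [hD] at this
    set Xt : ℂ[X] := C x0 * D ^ 3 + C (t 2) * D ^ 2 * X + C (t 3) * D * X ^ 2
      + C (t 4) * X ^ 3 with hXt
    set M : ℂ[X] := D ^ 4 + C (t 5) * D ^ 3 * X + C (t 6) * D ^ 2 * X ^ 2 + C (t 7) * D * X ^ 3
        + C (t 8) * X ^ 4 with hM
    have hid := T3_hom hF D X hDne
    rw [h9] at hid
    rw [← hXt, ← hM] at hid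
    have hid' : 4 * Xt ^ 3 - J2p a b (D * C q0 + X * C (t 0)) (D * C q1 + X * C (t 1)) (D * C q2)
      = D * C l0 * M ^ 2 := by
      rw [hid]; simp
    have hMd : M.natDegree = 4 := by
      have e : M = C (ε ^ 4 - t 5 * ε ^ 3 + t 6 * ε ^ 2 - t 7 * ε + t 8) * X ^ 4
          + C (-4 * ε ^ 3 + 3 * t 5 * ε ^ 2 - 2 * t 6 * ε + t 7) * X ^ 3
          + C (6 * ε ^ 2 - 3 * t 5 * ε + t 6) * X ^ 2
          + C (-4 * ε + t 5) * X + 1 := by
        rw [hM, hD]
        simp only [map_add, map_sub, map_mul, map_pow, map_ofNat, map_neg]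
        ring
      rw [e]
      compute_degree!
    obtain ⟨s, hs, hJs⟩ := T3_root hab hq2 hJ hx0 hv D ε hD Xt M hXt hMd hid'
    have hmu : (w0 / q2) ^ 2 * q2 = l0 := by
      field_simp
      linear_combination hw
    refine ⟨D * C q0 + X * C (t 0), D * C q1 + X * C (t 1), D * C q2, Xt,
      (D * C q2) * (C (w0 / q2) * M), 0, s, 1, one_ne_zero, ?_, ?_, ?_, ?_, ?_, ?_, ?_⟩
    · rw [hid', ← hmu]
      simp only [map_mul, map_pow]
      ring
    · simp [hD]
    · simp [hD]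
    · simp [hD]
    · simp [hXt, hD]
    · simp [hM, hD]
      field_simp
    · right
      refine ⟨C (w0 / q2) * M, rfl, ?_, ?_⟩
      · simp [hs]
      · simpa only [eval_add, eval_mul, eval_C, eval_X] using hJs
  · -- the main case
    set D : ℂ[X] := C (t 9) * X ^ 2 with hD
    set E : ℂ[X] := C q2 - C l0 * X ^ 2 with hE
    have hDne : D ≠ 0 := by
      rw [hD]
      exact mul_ne_zero (C_ne_zero.mpr h9) (pow_ne_zero 2 X_ne_zero)
    have hid := T3_hom hF D E hDne
    set Xt : ℂ[X] := C x0 * D ^ 3 + C (t 2) * D ^ 2 * E + C (t 3) * D * E ^ 2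
      + C (t 4) * E ^ 3 with hXt
    set M : ℂ[X] := D ^ 4 + C (t 5) * D ^ 3 * E + C (t 6) * D ^ 2 * E ^ 2 + C (t 7) * D * E ^ 3
        + C (t 8) * E ^ 4 with hM
    have hE0 : ∀ z : ℂ, z ^ 2 = q2 / l0 → E.eval z = 0 := by
      intro z hz
      simp only [hE, eval_sub, eval_mul, eval_pow, eval_C, eval_X, hz]
      field_simp
      ring
    have hD0 : ∀ z : ℂ, z ^ 2 = q2 / l0 → D.eval z = t 9 * (q2 / l0) := by
      intro z hz
      simp only [hD, eval_mul, eval_pow, eval_C, eval_X, hz]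
    have hu : (q2 / w0) ^ 2 = q2 / l0 := by
      rw [div_pow, hw]
      field_simp
    have hu' : (-(q2 / w0)) ^ 2 = q2 / l0 := by rw [neg_sq, hu]
    have hc0 : t 9 * (q2 / l0) ≠ 0 := mul_ne_zero h9 (div_ne_zero hq2 hl0ne)
    have hwl : w0 / l0 = q2 / w0 := by
      field_simp
      linear_combination hw
    refine ⟨D * C q0 + E * C (t 0), D * C q1 + E * C (t 1), D * C q2, Xt,
      C (t 9 * q2) * X * M, q2 / w0, -(q2 / w0), t 9 * (q2 / l0), hc0, ?_, ?_, ?_, ?_, ?_, ?_,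
      Or.inl ⟨t 9 * (q2 / l0), hc0, ?_, ?_, ?_, ?_, ?_⟩⟩
    · rw [hid, hD, hE]
      simp only [map_mul]
      ring
    · simp only [eval_add, eval_mul, eval_C, hE0 _ hu, hD0 _ hu]; ring
    · simp only [eval_add, eval_mul, eval_C, hE0 _ hu, hD0 _ hu]; ring
    · simp only [eval_mul, eval_C, hD0 _ hu]
    · simp only [hXt, eval_add, eval_mul, eval_pow, eval_C, hE0 _ hu, hD0 _ hu]; ring
    · simp only [hM, eval_add, eval_mul, eval_pow, eval_C, eval_X, hE0 _ hu, hD0 _ hu]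
      have : t 9 * (q2 / l0) * w0 = t 9 * q2 * (q2 / w0) := by
        rw [← hwl]; ring
      linear_combination (-(t 9 * (q2 / l0)) ^ 4) * this
    · simp only [eval_add, eval_mul, eval_C, hE0 _ hu', hD0 _ hu']; ring
    · simp only [eval_add, eval_mul, eval_C, hE0 _ hu', hD0 _ hu']; ring
    · simp only [eval_mul, eval_C, hD0 _ hu']
    · simp only [hXt, eval_add, eval_mul, eval_pow, eval_C, hE0 _ hu', hD0 _ hu']; ring
    · simp only [hM, eval_add, eval_mul, eval_pow, eval_C, eval_X, hE0 _ hu', hD0 _ hu']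
      have : t 9 * (q2 / l0) * w0 = t 9 * q2 * (q2 / w0) := by
        rw [← hwl]; ring
      linear_combination ((t 9 * (q2 / l0)) ^ 4) * this

end Pool.Agent.Equi60
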