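import Pool.Agent.Equi60.GenPair
import Pool.Agent.Equi60.T3
import Pool.Agent.Equi60.Quart
import Pool.Agent.Equi60.R0
import Pool.Agent.Equi60.Sing
import Pool.Agent.Voisin60.Bilin

/-! Voisin's identity for all pairs of cycles. -/

noncomputable section

namespace Pool.Agent.Equi60

open Polynomial Pool.Agent.Voisin60

variable {A : Fin 5 → MvPolynomial (Fin 2) ℂ}

/-- The covering involution. -/
def iPt (F : MvPolynomial (Fin 3) ℂ) (x : Pt F) : Pt F := P F (neg3 x.out.1)

lemma iPt_P {F : MvPolynomial (Fin 3) ℂ} {u : Fin 4 → ℂ} (hu : OnPlane F u) :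
    iPt F (P F u) = P F (neg3 u) := by
  unfold iPt
  refine P_neg3 hu (P F u).out.2 ?_
  rw [P_eq (P F u).out.2]
  exact Quotient.out_eq _

/-- The class of `(x - ιx) × (y - ιy)`. -/
def C4 (F : MvPolynomial (Fin 3) ℂ) (x y : Pt F) : CH F :=
  e x y - e (iPt F x) y - e x (iPt F y) + e (iPt F x) (iPt F y)

lemma C4_P {F : MvPolynomial (Fin 3) ℂ} {u v : Fin 4 → ℂ} (hu : OnPlane F u)
    (hv : OnPlane F v) : C4 F (P F u) (P F v) = B4 F u v := by
  unfold C4 B4
  rw [iPt_P hu, iPt_P hv]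

lemma C4_triv_left {F : MvPolynomial (Fin 3) ℂ} {x y : Pt F} (h1 : Triv x)
    (h2 : Triv (iPt F x)) : (4 : ℕ) • C4 F x y = 0 := by
  unfold C4
  rw [nsmul_add, nsmul_sub, nsmul_sub, (h1 y).1, (h2 y).1, (h1 _).1, (h2 _).1]
  abel

lemma C4_triv_right {F : MvPolynomial (Fin 3) ℂ} {x y : Pt F} (h1 : Triv x)
    (h2 : Triv (iPt F x)) : (4 : ℕ) • C4 F y x = 0 := by
  unfold C4
  rw [nsmul_add, nsmul_sub, nsmul_sub, (h1 y).2, (h2 y).2, (h1 _).2, (h2 _).2]
  abel

/-- Every point is trivial together with its conjugate, or in general position. -/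
lemma classify (hA : Hyp A) (x : Pt (quintic A)) :
    (Triv x ∧ Triv (iPt (quintic A) x)) ∨
      ∃ u, OnPlane (quintic A) u ∧ Nonempty (Dat A u) ∧ x = P (quintic A) u := by
  obtain ⟨u, hu, rfl⟩ := exists_rep x
  by_cases hJ : Ja (av A (u 1) (u 2)) = 0
  · left
    rw [iPt_P hu]
    exact ⟨p_SING p_QUART A hA u hu hJ, p_SING p_QUART A hA (neg3 u) (onPlane_neg3 hu) hJ⟩
  · by_cases h3 : u 3 = 0
    · left
      rw [iPt_P hu]
      exact ⟨triv_of_zero (quintic_hom hA.hom) hu h3,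
        triv_of_zero (quintic_hom hA.hom) (onPlane_neg3 hu) (by simp [neg3, h3])⟩
    · right
      exact ⟨u, hu, exists_dat p_PARAM hA hu h3 hJ, rfl⟩

/-- Symmetry for two points. -/
theorem C4_swap (hA : Hyp A) {a b : Fin 9 → ℂ} (hab : ∀ i j, i ≠ j → a i * b j - a j * b i ≠ 0)
    (hJ : ∀ Y Z, Ja (av A Y Z) = ∏ j, (b j * Y - a j * Z)) (x y : Pt (quintic A)) :
    (288 : ℕ) • (C4 (quintic A) x y - C4 (quintic A) y x) = 0 := by
  have e4 : ∀ x : CH (quintic A), (288 : ℕ) • x = (72 : ℕ) • ((4 : ℕ) • x) := fun x => by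
    rw [← mul_nsmul]
  rcases classify hA x with ⟨h1, h2⟩ | ⟨u, hu, ⟨du⟩, rfl⟩
  · rw [nsmul_sub, e4, e4, C4_triv_left h1 h2, C4_triv_right h1 h2, nsmul_zero, sub_zero]
  · rcases classify hA y with ⟨h1, h2⟩ | ⟨v, hv, ⟨dv⟩, rfl⟩
    · rw [nsmul_sub, e4, e4, C4_triv_left h1 h2, C4_triv_right h1 h2, nsmul_zero, sub_zero]
    · rw [C4_P hu hv, C4_P hv hu]
      exact gen_pair p_R0 p_T3 hA hab hJ du dv

section
variable {α M : Type} [AddCommGroup M]

lemma pairing_swap (g : α → α → M) (a b : α →₀ ℤ) :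
    pairing g b a = pairing (fun x y => g y x) a b := by
  unfold pairing
  rw [Finsupp.sum_comm]
  refine Finsupp.sum_congr fun x _ => ?_
  refine Finsupp.sum_congr fun y _ => ?_
  rw [mul_comm]

lemma pairing_sub (g h : α → α → M) (a b : α →₀ ℤ) :
    pairing (fun x y => g x y - h x y) a b = pairing g a b - pairing h a b := by
  have h1 := pairing_add (fun x y => g x y - h x y) h a b
  simp only [sub_add_cancel] at h1
  have : pairing (fun x y => g x y) a b = pairing g a b := rfl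
  rw [this] at h1
  rw [h1, add_sub_cancel_right]

end

/-- `8 (a × b) = 2 (α(a) × α(b))`. -/
lemma pairing_C4 {F : MvPolynomial (Fin 3) ℂ} (hF : F.IsHomogeneous 5) (a b : Pt F →₀ ℤ)
    (ha : deg a = 0) (hb : deg b = 0) :
    (2 : ℕ) • pairing (C4 F) a b = (8 : ℕ) • pairing e a b := by
  have lft : (2 : ℕ) • (pairing e a b + pairing (fun x y => e (iPt F x) y) a b) = 0 := by
    rw [← pairing_add, ← pairing_nsmul]
    have : (fun x y : Pt F => (2 : ℕ) • (e x y + e (iPt F x) y))
        = fun _ y => (4 : ℕ) • e (o F) y := by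
      funext x y
      obtain ⟨u, hu, rfl⟩ := exists_rep x
      rw [iPt_P hu]
      exact (line_rel hF hu y).1
    rw [this]
    exact pairing_left _ a b ha
  have rgt : (2 : ℕ) • (pairing e a b + pairing (fun x y => e x (iPt F y)) a b) = 0 := by
    rw [← pairing_add, ← pairing_nsmul]
    have : (fun x y : Pt F => (2 : ℕ) • (e x y + e x (iPt F y)))
        = fun x _ => (4 : ℕ) • e x (o F) := by
      funext x y
      obtain ⟨u, hu, rfl⟩ := exists_rep y
      rw [iPt_P hu]
      exact (line_rel hF hu x).2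
    rw [this]
    exact pairing_right _ a b hb
  have both : (2 : ℕ) • (pairing (fun x y => e x (iPt F y)) a b
      + pairing (fun x y => e (iPt F x) (iPt F y)) a b) = 0 := by
    rw [← pairing_add, ← pairing_nsmul]
    have : (fun x y : Pt F => (2 : ℕ) • (e x (iPt F y) + e (iPt F x) (iPt F y)))
        = fun _ y => (4 : ℕ) • e (o F) (iPt F y) := by
      funext x y
      obtain ⟨u, hu, rfl⟩ := exists_rep x
      rw [iPt_P hu]
      exact (line_rel hF hu (iPt F y)).1
    rw [this]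
    exact pairing_left (fun y => (4 : ℕ) • e (o F) (iPt F y)) a b ha
  have hC : pairing (C4 F) a b = pairing e a b - pairing (fun x y => e (iPt F x) y) a b
      - pairing (fun x y => e x (iPt F y)) a b + pairing (fun x y => e (iPt F x) (iPt F y)) a b := by
    rw [← pairing_sub, ← pairing_sub, ← pairing_add]
    rfl
  rw [hC]
  have expand : ∀ p q r s : CH F, (2 : ℕ) • (p - q - r + s)
      = (8 : ℕ) • p - (2 : ℕ) • (p + q) - (2 : ℕ) • ((2 : ℕ) • (p + r)) + (2 : ℕ) • (r + s) := by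
    intro p q r s
    simp only [succ_nsmul, zero_nsmul]; abel
  rw [expand, lft, rgt, both]
  simp

/-- The main theorem. -/
theorem main (hA : Hyp A) {a b : Fin 9 → ℂ} (hab : ∀ i j, i ≠ j → a i * b j - a j * b i ≠ 0)
    (hJ : ∀ Y Z, Ja (av A Y Z) = ∏ j, (b j * Y - a j * Z)) (x y : Pt (quintic A) →₀ ℤ)
    (hx : deg x = 0) (hy : deg y = 0) :
    (1152 : ℕ) • (cross x y - cross y x) ∈ RatEquiv (quintic A) := by
  have hF := quintic_hom hA.hom
  rw [← QuotientAddGroup.eq_zero_iff]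
  have hm : (QuotientAddGroup.mk ((1152 : ℕ) • (cross x y - cross y x)) : CH (quintic A))
      = (1152 : ℕ) • (pairing e x y - pairing e y x) := by
    rw [← mk_cross, ← mk_cross]
    rfl
  rw [hm]
  have h1 := pairing_C4 hF x y hx hy
  have h2 := pairing_C4 hF y x hy hx
  have h3 : (288 : ℕ) • (pairing (C4 (quintic A)) x y - pairing (C4 (quintic A)) y x) = 0 := by
    rw [pairing_swap (C4 (quintic A)) x y, ← pairing_sub, ← pairing_nsmul]
    have : (fun p q : Pt (quintic A) => (288 : ℕ) • (C4 (quintic A) p q - C4 (quintic A) q p))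
        = fun _ _ => 0 := by
      funext p q
      exact C4_swap hA hab hJ p q
    rw [this]
    exact pairing_left (fun _ => 0) x y hx
  have e1 : ∀ p q : CH (quintic A), (1152 : ℕ) • (p - q)
      = (144 : ℕ) • ((8 : ℕ) • p - (8 : ℕ) • q) := by
    intro p q
    rw [← nsmul_sub, ← mul_nsmul]
  rw [e1, ← h1, ← h2, ← nsmul_sub, ← mul_nsmul]
  exact h3

end Pool.Agent.Equi60
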