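import Pool.Agent.Equi60.Targets2

/-! EQ-PARAM. -/

noncomputable section

namespace Pool.Agent.Equi60

open Polynomial Pool.Agent.Voisin60

namespace Param_

lemma root_exists (a : Fin 5 → ℂ) : ∃ R N : ℂ, (R ≠ 0 ∨ N ≠ 0) ∧ Qh a R N = 0 := by
  by_cases h0 : a 0 = 0
  · refine ⟨1, 0, Or.inl one_ne_zero, ?_⟩
    unfold Qh
    rw [h0]
    ring
  · set p : Polynomial ℂ := C (a 0) * X ^ 4 + C (4 * a 1) * X ^ 3 + C (6 * a 2) * X ^ 2
      + C (4 * a 3) * X + C (a 4) with hp
    have hd : p.natDegree = 4 := by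
      rw [hp]
      compute_degree!
    have hdeg : p.degree ≠ 0 := by
      have := degree_ne_of_natDegree_ne (p := p) (n := 0) (by omega)
      simpa using this
    obtain ⟨R, hR⟩ := Complex.isAlgClosed.exists_root p hdeg
    refine ⟨R, 1, Or.inr one_ne_zero, ?_⟩
    have h1 : p.eval R = 0 := hR
    rw [hp] at h1
    simp only [eval_add, eval_mul, eval_C, eval_pow, eval_X] at h1
    unfold Qh
    linear_combination h1

lemma frame_exists {R N : ℂ} (h : R ≠ 0 ∨ N ≠ 0) : ∃ w v : ℂ, w * N - v * R = 1 := by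
  by_cases hN : N = 0
  · have hR : R ≠ 0 := h.resolve_right (fun h' => h' hN)
    refine ⟨0, -R⁻¹, ?_⟩
    rw [zero_mul, zero_sub, neg_mul, neg_neg, inv_mul_cancel₀ hR]
  · exact ⟨N⁻¹, 0, by rw [inv_mul_cancel₀ hN, zero_mul, sub_zero]⟩

variable {a a' : Fin 5 → ℂ} {c d : ℂ}

lemma Q_tr (ha : ∀ i : Fin 5, a' i = c⁻¹ ^ (i.1 + 1) * a i) (hc : c ≠ 0) (hd : d ≠ 0) (R N : ℂ) :
    Qh a' (R / d) (c * N / d) = Qh a R N / (c * d ^ 4) := by
  unfold Qh
  rw [ha 0, ha 1, ha 2, ha 3, ha 4]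
  simp only [Fin.val_zero, Fin.val_one, Fin.val_two, Fin.isValue,
    show ((3 : Fin 5) : ℕ) = 3 from rfl, show ((4 : Fin 5) : ℕ) = 4 from rfl, zero_add, pow_one,
    Nat.reduceAdd, inv_pow]
  field_simp

lemma q3_tr (ha : ∀ i : Fin 5, a' i = c⁻¹ ^ (i.1 + 1) * a i) (hc : c ≠ 0) (hd : d ≠ 0)
    (R N κ : ℂ) :
    q3 a' (R / d) (c * N / d) 1 κ = q3 a R N 1 (κ / c) / (c * d ^ 3) := by
  unfold q3
  rw [ha 0, ha 1, ha 2, ha 3, ha 4]
  simp only [Fin.val_zero, Fin.val_one, Fin.val_two, Fin.isValue,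
    show ((3 : Fin 5) : ℕ) = 3 from rfl, show ((4 : Fin 5) : ℕ) = 4 from rfl, zero_add, pow_one,
    Nat.reduceAdd, inv_pow]
  field_simp

lemma q2_tr (ha : ∀ i : Fin 5, a' i = c⁻¹ ^ (i.1 + 1) * a i) (hc : c ≠ 0) (hd : d ≠ 0)
    (R N κ : ℂ) :
    q2 a' (R / d) (c * N / d) 1 κ = q2 a R N 1 (κ / c) / (c * d ^ 2) := by
  unfold q2
  rw [ha 0, ha 1, ha 2, ha 3, ha 4]
  simp only [Fin.val_zero, Fin.val_one, Fin.val_two, Fin.isValue,
    show ((3 : Fin 5) : ℕ) = 3 from rfl, show ((4 : Fin 5) : ℕ) = 4 from rfl, zero_add, pow_one,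
    Nat.reduceAdd, inv_pow]
  field_simp

lemma q3_lin (a : Fin 5 → ℂ) (R N w v α β : ℂ) :
    q3 a R N (α * w + β * R) (α * v + β * N) = α * q3 a R N w v + β * Qh a R N := by
  unfold q3 Qh
  ring

lemma q2_lin (a : Fin 5 → ℂ) (R N w v α β : ℂ) :
    q2 a R N (α * w + β * R) (α * v + β * N)
      = α ^ 2 * q2 a R N w v + 2 * α * β * q3 a R N w v + β ^ 2 * Qh a R N := by
  unfold q2 q3 Qh
  ring

lemma Q_hom (a : Fin 5 → ℂ) (s X m : ℂ) : Qh a (s * X) (s * m) = s ^ 4 * Qh a X m := by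
  unfold Qh
  ring

end Param_

theorem p_PARAM : T_PARAM := by
  intro A hA u hu hW hJ
  obtain ⟨hu1, hu2⟩ := hu
  have hu' : OnPlane (quintic A) u := ⟨hu1, hu2⟩
  rw [eval_quintic] at hu2
  set a := av A (u 1) (u 2) with ha
  have hZ : u 2 ≠ 0 := by
    intro h
    rw [h, zero_mul] at hu2
    exact hW (pow_eq_zero_iff two_ne_zero |>.mp hu2)
  have hQ : Qh a (u 0) 1 ≠ 0 := by
    intro h
    rw [h, mul_zero] at hu2
    exact hW (pow_eq_zero_iff two_ne_zero |>.mp hu2)
  obtain ⟨R, N, hRN, h0⟩ := Param_.root_exists a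
  obtain ⟨w, v, hd⟩ := Param_.frame_exists hRN
  have hI : Ia a = 0 := hA.I0 (u 1) (u 2)
  have hq := q3_ne hI hJ h0 hd
  have hq0 : u 0 * N - R ≠ 0 := by
    intro h
    have hR : R = u 0 * N := by linear_combination -h
    have hN : N ≠ 0 := by
      intro hN
      rw [hN, mul_zero] at hR
      rcases hRN with h | h
      · exact h hR
      · exact h hN
    have h1 : Qh a (N * u 0) (N * 1) = 0 := by
      rw [mul_one, mul_comm N (u 0), ← hR]
      exact h0
    rw [Param_.Q_hom] at h1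
    rcases mul_eq_zero.mp h1 with h2 | h2
    · exact hN (pow_eq_zero_iff (by norm_num) |>.mp h2)
    · exact hQ h2
  set q := q3 a R N w v with hqd
  set p := q2 a R N w v with hpd
  set s := q / (u 0 * N - R) with hs
  have hs0 : s ≠ 0 := div_ne_zero hq hq0
  have hsq : s * (u 0 * N - R) = q := div_mul_cancel₀ q hq0
  set D := s * (w - v * u 0) with hD
  have e1 : D * R + q * w = s * u 0 := by
    rw [hD, ← hsq]
    linear_combination (s * u 0) * hd
  have e2 : D * N + q * v = s * 1 := by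
    rw [hD, ← hsq]
    linear_combination s * hd
  have hy2 : (s ^ 2 * u 3 / q) ^ 2 = u 2 * (4 * (D + p / 2) ^ 3 - Ja a) := by
    have h1 := Qh_pt hI h0 hd (D + p / 2)
    rw [← hqd, ← hpd, add_sub_cancel_right, e1, e2, Param_.Q_hom] at h1
    rw [div_pow, div_eq_iff (pow_ne_zero 2 hq), mul_pow, hu2]
    linear_combination (u 2) * h1
  refine ⟨R, N, D + p / 2, s ^ 2 * u 3 / q, hRN, ?_, hy2, fun c κ hc hdd => ?_⟩
  · exact div_ne_zero (mul_ne_zero (pow_ne_zero 2 hs0) hW) hq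
  · set d := c * N - κ * R with hdef
    have hn : 1 + κ * (R / d) = c * N / d := by
      field_simp
      rw [hdef]
      ring
    have hav : ∀ i : Fin 5, av A (u 1 / c) (u 2 / c) i = c⁻¹ ^ (i.1 + 1) * a i := by
      intro i
      have := av_scale hA.hom c⁻¹ (u 1) (u 2) i
      rw [← ha] at this
      rw [div_eq_inv_mul, div_eq_inv_mul]
      exact this
    have hα : (1 : ℂ) = d / c * w + (w * κ / c - v) * R := by
      rw [hdef]
      field_simp
      linear_combination (-c) * hd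
    have hβ : κ / c = d / c * v + (w * κ / c - v) * N := by
      rw [hdef]
      field_simp
      linear_combination (-κ) * hd
    have hq3 : q3 (av A (u 1 / c) (u 2 / c)) (R / d) (c * N / d) 1 κ = q / (c ^ 2 * d ^ 2) := by
      rw [Param_.q3_tr hav hc hdd]
      have h1 := Param_.q3_lin a R N w v (d / c) (w * κ / c - v)
      rw [← hα, ← hβ, h0, ← hqd] at h1
      rw [h1]
      field_simp
      ring
    have hq2 : q2 (av A (u 1 / c) (u 2 / c)) (R / d) (c * N / d) 1 κ
        = p / c ^ 3 + 2 * (w * κ / c - v) * q / (c ^ 2 * d) := by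
      rw [Param_.q2_tr hav hc hdd]
      have h1 := Param_.q2_lin a R N w v (d / c) (w * κ / c - v)
      rw [← hα, ← hβ, h0, ← hqd, ← hpd] at h1
      rw [h1]
      field_simp
      ring
    rw [hn]
    refine ⟨?_, ?_⟩
    · rw [Param_.Q_tr hav hc hdd, h0, zero_div]
    · have hμ : s / (c ^ 3 * d) ≠ 0 := div_ne_zero hs0 (mul_ne_zero (pow_ne_zero 3 hc) hdd)
      rw [← P_scale (quintic_hom hA.hom) hu' hμ]
      congr 1
      have hDd : (D + p / 2) / c ^ 3 - (p / c ^ 3 + 2 * (w * κ / c - v) * q / (c ^ 2 * d)) / 2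
          = D / c ^ 3 - (w * κ / c - v) * q / (c ^ 2 * d) := by
        ring
      have hX : (D / c ^ 3 - (w * κ / c - v) * q / (c ^ 2 * d)) * (R / d)
          + q / (c ^ 2 * d ^ 2) * 1 = s / (c ^ 3 * d) * u 0 := by
        have h2 : s / (c ^ 3 * d) * u 0 = (D * R + q * w) / (c ^ 3 * d) := by
          rw [e1]; ring
        rw [h2]
        have h3 : q / (c ^ 2 * d ^ 2) * 1 = q / (c ^ 2 * d ^ 2)
            * (d / c * w + (w * κ / c - v) * R) := by rw [← hα]
        rw [h3]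
        field_simp
        ring
      have hm : (D / c ^ 3 - (w * κ / c - v) * q / (c ^ 2 * d)) * (c * N / d)
          + q / (c ^ 2 * d ^ 2) * κ = s / (c ^ 2 * d) := by
        have h2 : s / (c ^ 2 * d) = (D * N + q * v) / (c ^ 2 * d) := by
          rw [e2]; ring
        rw [h2]
        have h3 : q / (c ^ 2 * d ^ 2) * κ = q / (c ^ 2 * d ^ 2) * c
            * (d / c * v + (w * κ / c - v) * N) := by
          rw [← hβ]; field_simp
        rw [h3]
        field_simp
        ring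
      unfold pv
      rw [hn, hq3, hq2, hDd, hX, hm]
      unfold scale
      congr 1
      · congr 1
        · field_simp
        · congr 1
          · field_simp
          · congr 1
            field_simp

end Pool.Agent.Equi60
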