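import Pool.Agent.Equi60.Swap
import Pool.Agent.Equi60.Param

/-! Parameters of points in general position. -/

noncomputable section

namespace Pool.Agent.Equi60

open Polynomial Pool.Agent.Voisin60

variable {A : Fin 5 → MvPolynomial (Fin 2) ℂ}

lemma P_neg3 {F : MvPolynomial (Fin 3) ℂ} {u w : Fin 4 → ℂ} (hu : OnPlane F u)
    (hw : OnPlane F w) (h : P F w = P F u) : P F (neg3 w) = P F (neg3 u) := by
  rw [P_eq hu, P_eq hw] at h
  obtain ⟨c, hc, h2⟩ := Quotient.exact h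
  rw [P_eq (onPlane_neg3 hu), P_eq (onPlane_neg3 hw)]
  refine Quotient.sound ⟨c, hc, ?_⟩
  simp only at h2 ⊢
  rw [h2]
  funext i
  fin_cases i <;> simp [neg3, scale]

lemma Ja_scale (h : ∀ i : Fin 5, (A i).IsHomogeneous (i + 1)) (c Y Z : ℂ) :
    Ja (av A (c * Y) (c * Z)) = c ^ 9 * Ja (av A Y Z) := by
  have e := av_scale h c Y Z
  unfold Ja
  rw [e 0, e 1, e 2, e 3, e 4]
  simp only [Fin.val_zero, Fin.val_one, Fin.val_two, Fin.isValue]
  norm_num [Fin.val]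
  ring

lemma Ja_div (h : ∀ i : Fin 5, (A i).IsHomogeneous (i + 1)) (c Y Z : ℂ) :
    Ja (av A (Y / c) (Z / c)) = Ja (av A Y Z) / c ^ 9 := by
  rw [div_eq_inv_mul, div_eq_inv_mul, Ja_scale h, inv_pow, ← div_eq_inv_mul]

/-- The parameters of a point in general position. -/
structure Dat (A : Fin 5 → MvPolynomial (Fin 2) ℂ) (u : Fin 4 → ℂ) where
  R : ℂ
  N : ℂ
  ρ : ℂ
  σ : ℂ
  ξ : ℂ
  η : ℂ
  hZ : u 2 ≠ 0
  hJ : Ja (av A (u 1) (u 2)) ≠ 0
  hRN : R ≠ 0 ∨ N ≠ 0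
  hη : η ^ 2 = 4 * ξ ^ 3 - 1
  η0 : η ≠ 0
  hρ : ρ ^ 3 = Ja (av A (u 1) (u 2))
  hσ : σ ^ 2 = u 2 * Ja (av A (u 1) (u 2))
  mkf : ∀ c κ : ℂ, c ≠ 0 → c * N - κ * R ≠ 0 → ∃ f : Fib A, f.k = κ ∧ f.Y = u 1 / c ∧
    f.Z = u 2 / c ∧ f.ρ = ρ / c ^ 3 ∧ f.σ = σ / c ^ 5 ∧
    P (quintic A) (f.pt ξ η) = P (quintic A) u ∧
    P (quintic A) (f.pt ξ (-η)) = P (quintic A) (neg3 u)

lemma exists_dat (hP : T_PARAM) (hA : Hyp A) {u : Fin 4 → ℂ} (hu : OnPlane (quintic A) u)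
    (h3 : u 3 ≠ 0) (hJ : Ja (av A (u 1) (u 2)) ≠ 0) : Nonempty (Dat A u) := by
  obtain ⟨R, N, x, y, hRN, hy0, hy, hmk⟩ := hP A hA u hu h3 hJ
  have hZ : u 2 ≠ 0 := by
    intro h
    have := hu.2
    rw [h, zero_mul] at this
    exact h3 (pow_eq_zero_iff (two_ne_zero) |>.mp this)
  obtain ⟨ρ, hρ⟩ := IsAlgClosed.exists_pow_nat_eq (Ja (av A (u 1) (u 2)))
    (by norm_num : 0 < 3)
  obtain ⟨σ, hσ⟩ := IsAlgClosed.exists_pow_nat_eq (u 2 * Ja (av A (u 1) (u 2)))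
    (by norm_num : 0 < 2)
  have ρ0 : ρ ≠ 0 := by
    intro h; rw [h] at hρ; exact hJ (by rw [← hρ]; norm_num)
  have σ0 : σ ≠ 0 := by
    intro h; rw [h] at hσ; exact mul_ne_zero hZ hJ (by rw [← hσ]; norm_num)
  have hη : (y / σ) ^ 2 = 4 * (x / ρ) ^ 3 - 1 := by
    rw [div_pow, div_pow, hσ, hρ, hy]
    field_simp
  refine ⟨⟨R, N, ρ, σ, x / ρ, y / σ, hZ, hJ, hRN, hη, div_ne_zero hy0 σ0, hρ, hσ, ?_⟩⟩
  intro c κ hc hcn
  obtain ⟨h1, h2⟩ := hmk c κ hc hcn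
  have hJ' : Ja (av A (u 1 / c) (u 2 / c)) ≠ 0 := by
    rw [Ja_div hA.hom]
    exact div_ne_zero hJ (pow_ne_zero _ hc)
  have r1 : (ρ / c ^ 3) ^ 3 = Ja (av A (u 1 / c) (u 2 / c)) := by
    rw [Ja_div hA.hom, div_pow, hρ, ← pow_mul]
  have r2 : (σ / c ^ 5) ^ 2 = u 2 / c * Ja (av A (u 1 / c) (u 2 / c)) := by
    rw [Ja_div hA.hom, div_pow, hσ]
    field_simp
  let f : Fib A := ⟨κ, u 1 / c, u 2 / c, R / (c * N - κ * R), ρ / c ^ 3, σ / c ^ 5,
    div_ne_zero hZ hc, hJ', h1, r1, r2⟩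
  have e : f.pt (x / ρ) (y / σ) = pv (av A (u 1 / c) (u 2 / c)) (u 1 / c) (u 2 / c) κ
      (R / (c * N - κ * R)) (x / c ^ 3) (y / c ^ 5) := by
    have a1 : ρ / c ^ 3 * (x / ρ) = x / c ^ 3 := by field_simp
    have a2 : σ / c ^ 5 * (y / σ) = y / c ^ 5 := by field_simp
    simp only [Fib.pt, f, a1, a2]
  have e1 : P (quintic A) (f.pt (x / ρ) (y / σ)) = P (quintic A) u := by
    rw [e]; exact h2
  refine ⟨f, rfl, rfl, rfl, rfl, rfl, e1, ?_⟩
  rw [f.pt_neg]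
  exact P_neg3 hu (f.onPlane hA hη) e1

/-- Rescaling with given values. -/
def Curve3.resc {a b : Fin 9 → ℂ} {q0 q1 q2 X0 W0 : ℂ} (c : Curve3 a b q0 q1 q2 X0 W0)
    {d q0' q1' q2' X0' W0' : ℂ} (hd : d ≠ 0) (h0 : q0 = d * q0') (h1 : q1 = d * q1')
    (h2 : q2 = d * q2') (hx : X0 = d ^ 3 * X0') (hw : W0 = d ^ 5 * W0') :
    Curve3 a b q0' q1' q2' X0' W0' where
  p0 := c.p0
  p1 := c.p1
  p2 := c.p2
  x := c.x
  w := c.w
  u0 := c.u0
  u1 := c.u1
  c0 := c.c0 * d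
  hc0 := mul_ne_zero c.hc0 hd
  curve := c.curve
  e0 := by rw [c.e0]; linear_combination c.c0 * h0
  e1 := by rw [c.e1]; linear_combination c.c0 * h1
  e2 := by rw [c.e2]; linear_combination c.c0 * h2
  ex := by rw [c.ex]; linear_combination c.c0 ^ 3 * hx
  ew := by rw [c.ew]; linear_combination c.c0 ^ 5 * hw
  case := by
    rcases c.case with ⟨c1, h, f0, f1, f2, fx, fw⟩ | h
    · left
      refine ⟨c1 * d, mul_ne_zero h hd, ?_, ?_, ?_, ?_, ?_⟩
      · rw [f0]; linear_combination c1 * h0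
      · rw [f1]; linear_combination c1 * h1
      · rw [f2]; linear_combination c1 * h2
      · rw [fx]; linear_combination c1 ^ 3 * hx
      · rw [fw]; linear_combination -c1 ^ 5 * hw
    · right; exact h

/-- A finite set of complex numbers is avoided by some number. -/
lemma avoid {S : Set ℂ} (h : S.Finite) : ∃ z, z ∉ S := by
  have := h.infinite_compl.nonempty
  exact this

lemma fin_lin {α β : ℂ} (h : α ≠ 0 ∨ β ≠ 0) : {z : ℂ | α + z * β = 0}.Finite := by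
  by_cases hb : β = 0
  · have ha : α ≠ 0 := by
      rcases h with h | h
      · exact h
      · exact absurd hb h
    have : {z : ℂ | α + z * β = 0} = ∅ := by
      ext z
      simp [hb, ha]
    rw [this]
    exact Set.finite_empty
  · refine (Set.finite_singleton (-α / β)).subset fun z hz => ?_
    simp only [Set.mem_ofPred_eq] at hz
    simp only [Set.mem_singleton_iff]
    field_simp
    linear_combination hz

lemma fin_poly {p : ℂ[X]} (h : p ≠ 0) : {z : ℂ | p.eval z = 0}.Finite := by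
  refine (p.roots.toFinset.finite_toSet).subset fun s hs => ?_
  simp only [Finset.mem_coe, Multiset.mem_toFinset, mem_roots h, IsRoot.def]
  exact hs

lemma fin_Qh {a : Fin 5 → ℂ} (hJ : Ja a ≠ 0) : {k : ℂ | Qh a 1 k = 0}.Finite := by
  set p : ℂ[X] := C (a 0) + C (4 * a 1) * X + C (6 * a 2) * X ^ 2 + C (4 * a 3) * X ^ 3
    + C (a 4) * X ^ 4 with hp
  have hne : p ≠ 0 := by
    intro h
    apply hJ
    have c : ∀ n, p.coeff n = 0 := fun n => by rw [h]; simp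
    have c0 := c 0
    have c1 := c 1
    have c2 := c 2
    have c3 := c 3
    have c4 := c 4
    simp only [hp, coeff_add, coeff_C_mul, coeff_X_pow, coeff_X, coeff_C] at c0 c1 c2 c3 c4
    norm_num at c0 c1 c2 c3 c4
    unfold Ja
    rw [c0, c1, c2]
    ring
  refine (fin_poly hne).subset fun k hk => ?_
  simp only [Set.mem_ofPred_eq] at hk ⊢
  rw [← hk, hp]
  unfold Qh
  simp

lemma fin_quad {α β γ : ℂ} (h : α ≠ 0 ∨ β ≠ 0 ∨ γ ≠ 0) :
    {z : ℂ | α + z * β + z ^ 2 * γ = 0}.Finite := by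
  set p : ℂ[X] := C α + C β * X + C γ * X ^ 2 with hp
  have hne : p ≠ 0 := by
    intro h0
    have c : ∀ n, p.coeff n = 0 := fun n => by rw [h0]; simp
    have c0 := c 0
    have c1 := c 1
    have c2 := c 2
    simp only [hp, coeff_add, coeff_C_mul, coeff_X_pow, coeff_X, coeff_C] at c0 c1 c2
    norm_num at c0 c1 c2
    rcases h with h | h | h
    · exact h c0
    · exact h c1
    · exact h c2
  refine (fin_poly hne).subset fun k hk => ?_
  simp only [Set.mem_ofPred_eq] at hk ⊢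
  rw [← hk, hp]
  simp
  ring

end Pool.Agent.Equi60
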