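import Pool.Agent.Equi60.GenDat

/-! Symmetry of the symbol for two points in general position. -/

noncomputable section

namespace Pool.Agent.Equi60

open Polynomial Pool.Agent.Voisin60

variable {A : Fin 5 → MvPolynomial (Fin 2) ℂ}

/-- The class of `(u - ιu) × (v - ιv)`. -/
def B4 (F : MvPolynomial (Fin 3) ℂ) (u v : Fin 4 → ℂ) : CH F :=
  e (P F u) (P F v) - e (P F (neg3 u)) (P F v) - e (P F u) (P F (neg3 v))
    + e (P F (neg3 u)) (P F (neg3 v))

lemma Sy_eq_B4 (f g : Fib A) {ξ η ξ' η' : ℂ} {u v : Fin 4 → ℂ}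
    (h1 : P (quintic A) (f.pt ξ η) = P (quintic A) u)
    (h2 : P (quintic A) (f.pt ξ (-η)) = P (quintic A) (neg3 u))
    (h3 : P (quintic A) (g.pt ξ' η') = P (quintic A) v)
    (h4 : P (quintic A) (g.pt ξ' (-η')) = P (quintic A) (neg3 v)) :
    Sy f g ξ η ξ' η' = B4 (quintic A) u v := by
  unfold Sy B4
  rw [h1, h2, h3, h4]

theorem gen_pair (hR : T_R0) (hT : T_T3) (hA : Hyp A) {a b : Fin 9 → ℂ}
    (hab : ∀ i j, i ≠ j → a i * b j - a j * b i ≠ 0)
    (hJ : ∀ Y Z, Ja (av A Y Z) = ∏ j, (b j * Y - a j * Z)) {u v : Fin 4 → ℂ}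
    (d1 : Dat A u) (d2 : Dat A v) :
    (288 : ℕ) • (B4 (quintic A) u v - B4 (quintic A) v u) = 0 := by
  have hYZ : ∀ {w : Fin 4 → ℂ}, Dat A w → (w 1 ≠ 0 ∨ w 2 ≠ 0) := fun d => Or.inr d.hZ
  by_cases hx : d1.ξ = 0 ∨ d2.ξ = 0
  · -- an endomorphism kills the point
    obtain ⟨β, hβ⟩ := avoid ((fin_lin (hYZ d1)).union (fin_lin (hYZ d2)))
    simp only [Set.mem_union, Set.mem_ofPred_eq, not_or] at hβ
    obtain ⟨b1, b2⟩ := hβ
    have kk : ∀ {w : Fin 4 → ℂ} (d : Dat A w) {c : ℂ}, c ≠ 0 →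
        {k : ℂ | c * d.N + k * -d.R = 0}.Finite := fun d c hc => fin_lin (by
          rcases d.hRN with h | h
          · exact Or.inr (neg_ne_zero.mpr h)
          · exact Or.inl (mul_ne_zero hc h))
    obtain ⟨κ, hκ⟩ := avoid ((kk d1 b1).union (kk d2 b2))
    simp only [Set.mem_union, Set.mem_ofPred_eq, not_or] at hκ
    obtain ⟨k1, k2⟩ := hκ
    obtain ⟨f, f1, f2, f3, f4, f5, f6, f7⟩ := d1.mkf _ κ b1 (by
      intro h; apply k1; linear_combination h)
    obtain ⟨g, g1, g2, g3, g4, g5, g6, g7⟩ := d2.mkf _ κ b2 (by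
      intro h; apply k2; linear_combination h)
    rw [← Sy_eq_B4 f g f6 f7 g6 g7, ← Sy_eq_B4 g f g6 g7 f6 f7]
    have e1 : (3 : ℕ) • Sy f g d1.ξ d1.η d2.ξ d2.η = 0 := by
      rcases hx with h | h
      · have := S3_left hA f g d1.hη d2.hη
        rw [h, mul_zero, mul_zero] at this
        rw [h, ← this]
        simp only [succ_nsmul, zero_nsmul]; abel
      · have := S3_right hA f g d1.hη d2.hη
        rw [h, mul_zero, mul_zero] at this
        rw [h, ← this]
        simp only [succ_nsmul, zero_nsmul]; abel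
    have e2 : (3 : ℕ) • Sy g f d2.ξ d2.η d1.ξ d1.η = 0 := by
      rcases hx with h | h
      · have := S3_right hA g f d2.hη d1.hη
        rw [h, mul_zero, mul_zero] at this
        rw [h, ← this]
        simp only [succ_nsmul, zero_nsmul]; abel
      · have := S3_left hA g f d2.hη d1.hη
        rw [h, mul_zero, mul_zero] at this
        rw [h, ← this]
        simp only [succ_nsmul, zero_nsmul]; abel
    have e3 : ∀ x : CH (quintic A), (288 : ℕ) • x = (96 : ℕ) • ((3 : ℕ) • x) := fun x => by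
      rw [← mul_nsmul]
    rw [nsmul_sub, e3, e3, e1, e2, nsmul_zero, sub_zero]
  · push Not at hx
    obtain ⟨x1, x2⟩ := hx
    have ρne : ∀ {w : Fin 4 → ℂ} (d : Dat A w), d.ρ ≠ 0 := by
      intro w d h
      have := d.hρ
      rw [h] at this
      exact d.hJ (by rw [← this]; norm_num)
    have σne : ∀ {w : Fin 4 → ℂ} (d : Dat A w), d.σ ≠ 0 := by
      intro w d h
      have := d.hσ
      rw [h] at this
      exact mul_ne_zero d.hZ d.hJ (by rw [← this]; norm_num)
    have hJ2 : J2 a b (u 1 * v 1) (u 1 * v 2 + u 2 * v 1) (u 2 * v 2)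
        = Ja (av A (u 1) (u 2)) * Ja (av A (v 1) (v 2)) := by
      rw [J2_pair, ← hJ, ← hJ]
    obtain ⟨c⟩ := exists_curve3 hT hab (q0 := u 1 * v 1) (q1 := u 1 * v 2 + u 2 * v 1)
      (q2 := u 2 * v 2) (x0 := d1.ρ * d2.ρ * d1.ξ) (w0 := d1.σ * d2.σ * d1.η)
      (mul_ne_zero d1.hZ d2.hZ) (by rw [hJ2]; exact mul_ne_zero d1.hJ d2.hJ)
      (mul_ne_zero (mul_ne_zero (ρne d1) (ρne d2)) x1)
      (mul_ne_zero (mul_ne_zero (σne d1) (σne d2)) d1.η0)
      (by
        rw [hJ2, mul_pow, mul_pow, mul_pow, mul_pow, d1.hσ, d2.hσ, d1.hρ, d2.hρ, d1.hη]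
        ring)
    -- the choice of `β`
    set S : Set ℂ := {β | (J2 a b (c.p0.eval c.u1) (c.p1.eval c.u1) (c.p2.eval c.u1) ≠ 0) ∧
      c.p0.eval c.u1 + β * c.p1.eval c.u1 + β ^ 2 * c.p2.eval c.u1 = 0} with hS
    have fS : S.Finite := by
      by_cases h : J2 a b (c.p0.eval c.u1) (c.p1.eval c.u1) (c.p2.eval c.u1) = 0
      · have : S = ∅ := by
          ext z
          simp [hS, h]
        rw [this]
        exact Set.finite_empty
      · have h0 : c.p0.eval c.u1 ≠ 0 ∨ c.p1.eval c.u1 ≠ 0 ∨ c.p2.eval c.u1 ≠ 0 := by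
          by_contra hcon
          push Not at hcon
          apply h
          rw [hcon.1, hcon.2.1, hcon.2.2]
          unfold J2
          simp
        refine (fin_quad h0).subset fun z hz => ?_
        exact hz.2
    obtain ⟨β, hβ⟩ := avoid (((fin_lin (hYZ d1)).union (fin_lin (hYZ d2))).union fS)
    simp only [Set.mem_union, Set.mem_ofPred_eq, not_or] at hβ
    obtain ⟨⟨b1, b2⟩, b3⟩ := hβ
    set c1 := u 1 + β * u 2 with hc1
    set c2 := v 1 + β * v 2 with hc2
    have jne : Ja (av A (u 1 / c1) (u 2 / c1)) ≠ 0 := by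
      rw [Ja_div hA.hom]; exact div_ne_zero d1.hJ (pow_ne_zero _ b1)
    have jne' : Ja (av A (v 1 / c2) (v 2 / c2)) ≠ 0 := by
      rw [Ja_div hA.hom]; exact div_ne_zero d2.hJ (pow_ne_zero _ b2)
    -- the choice of `κ`
    have kk : ∀ {w : Fin 4 → ℂ} (d : Dat A w) {c : ℂ}, c ≠ 0 →
        {k : ℂ | c * d.N + k * -d.R = 0}.Finite := fun d c hc => fin_lin (by
          rcases d.hRN with h | h
          · exact Or.inr (neg_ne_zero.mpr h)
          · exact Or.inl (mul_ne_zero hc h))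
    set cr : Crv := ⟨c.p0, c.p1, c.p2, β⟩ with hcr
    set T : Set ℂ := {κ | (J2 a b (c.p0.eval c.u1) (c.p1.eval c.u1) (c.p2.eval c.u1) ≠ 0) ∧
      ∃ j, Qh (av A (1 - β * cr.th c.u1 j) (cr.th c.u1 j)) 1 κ = 0 ∨
        Qh (av A (1 - β * cr.th' c.u1 j) (cr.th' c.u1 j)) 1 κ = 0} with hTd
    have fT : T.Finite := by
      by_cases h : J2 a b (c.p0.eval c.u1) (c.p1.eval c.u1) (c.p2.eval c.u1) = 0
      · have : T = ∅ := by
          ext z
          simp [hTd, h]
        rw [this]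
        exact Set.finite_empty
      · have hN : cr.N c.u1 ≠ 0 := by
          rw [cr.N_eq]
          intro h1
          exact b3 ⟨h, h1⟩
        have hj : ∀ j, Ja (av A (1 - β * cr.th c.u1 j) (cr.th c.u1 j)) ≠ 0 ∧
            Ja (av A (1 - β * cr.th' c.u1 j) (cr.th' c.u1 j)) ≠ 0 := by
          intro j
          have h1 := cr.J_mul hJ hN j
          have h2 : cr.J A (cr.th c.u1 j) * cr.J A (cr.th' c.u1 j) ≠ 0 := by
            rw [h1]
            exact div_ne_zero h (pow_ne_zero _ hN)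
          exact ⟨left_ne_zero_of_mul h2, right_ne_zero_of_mul h2⟩
        refine ((Set.finite_iUnion fun j => (fin_Qh (hj j).1)).union
          (Set.finite_iUnion fun j => (fin_Qh (hj j).2))).subset ?_
        rintro κ ⟨-, j, h1 | h1⟩
        · left; exact Set.mem_iUnion.mpr ⟨j, h1⟩
        · right; exact Set.mem_iUnion.mpr ⟨j, h1⟩
    obtain ⟨κ, hκ⟩ := avoid (((((kk d1 b1).union (kk d2 b2)).union (fin_Qh jne)).union
      (fin_Qh jne')).union fT)
    simp only [Set.mem_union, Set.mem_ofPred_eq, not_or] at hκ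
    obtain ⟨⟨⟨⟨k1, k2⟩, k3⟩, k4⟩, k5⟩ := hκ
    obtain ⟨f, f1, f2, f3, f4, f5, f6, f7⟩ := d1.mkf _ κ b1 (by
      intro h; apply k1; linear_combination h)
    obtain ⟨g, g1, g2, g3, g4, g5, g6, g7⟩ := d2.mkf _ κ b2 (by
      intro h; apply k2; linear_combination h)
    rw [← Sy_eq_B4 f g f6 f7 g6 g7, ← Sy_eq_B4 g f g6 g7 f6 f7]
    have hf : f.Y = 1 - β * f.Z := by
      rw [f2, f3, eq_sub_iff_add_eq, ← mul_div_assoc, ← add_div, ← hc1]
      exact div_self b1
    have hg : g.Y = 1 - β * g.Z := by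
      rw [g2, g3, eq_sub_iff_add_eq, ← mul_div_assoc, ← add_div, ← hc2]
      exact div_self b2
    refine swap_rel hR hA hJ f g (by rw [f1, g1]) hf hg (by rw [f1, f2, f3]; exact k3)
      (by rw [f1, g2, g3]; exact k4) d1.hη d2.hη x1 x2
      (c.resc (d := c1 * c2) (mul_ne_zero b1 b2) ?_ ?_ ?_ ?_ ?_) ?_
    · rw [f2, g2]; field_simp
    · rw [f2, g2, f3, g3]; field_simp
    · rw [f3, g3]; field_simp
    · rw [f4, g4]; field_simp
    · rw [f5, g5]; field_simp
    · rintro ⟨m, -, -, hm⟩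
      have hm' : J2 a b (c.p0.eval c.u1) (c.p1.eval c.u1) (c.p2.eval c.u1) ≠ 0 := hm
      refine ⟨?_, ?_⟩
      · have : cr.N c.u1 ≠ 0 := by
          rw [cr.N_eq]
          intro h1
          exact b3 ⟨hm', h1⟩
        exact this
      · intro j
        rw [f1]
        constructor
        · intro h
          exact k5 ⟨hm', j, Or.inl h⟩
        · intro h
          exact k5 ⟨hm', j, Or.inr h⟩

end Pool.Agent.Equi60
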