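import Pool.Agent.Equi60.CoverFam

/-! Points of the double plane over a line through the centre, in terms of the elliptic curve
`y^2 = Z (4 x^3 - J)`. -/

noncomputable section

namespace Pool.Agent.Equi60

open Polynomial Pool.Agent.Voisin60

/-- The polar form `Q(ρ,ρ,ρ,ω)`, `ρ = (r,n)`, `ω = (w,v)`. -/
def q3 (a : Fin 5 → ℂ) (r n w v : ℂ) : ℂ :=
  w * (a 0 * r ^ 3 + 3 * a 1 * r ^ 2 * n + 3 * a 2 * r * n ^ 2 + a 3 * n ^ 3)
    + v * (a 1 * r ^ 3 + 3 * a 2 * r ^ 2 * n + 3 * a 3 * r * n ^ 2 + a 4 * n ^ 3)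

/-- The polar form `Q(ρ,ρ,ω,ω)`. -/
def q2 (a : Fin 5 → ℂ) (r n w v : ℂ) : ℂ :=
  w ^ 2 * (a 0 * r ^ 2 + 2 * a 1 * r * n + a 2 * n ^ 2)
    + 2 * w * v * (a 1 * r ^ 2 + 2 * a 2 * r * n + a 3 * n ^ 2)
    + v ^ 2 * (a 2 * r ^ 2 + 2 * a 3 * r * n + a 4 * n ^ 2)

/-- The quartic in the basis `ρ, ω`. -/
lemma Qh_basis (a : Fin 5 → ℂ) (r n w v D q : ℂ) :
    Qh a (D * r + q * w) (D * n + q * v) = D ^ 4 * Qh a r n + 4 * D ^ 3 * q * q3 a r n w v
      + 6 * D ^ 2 * q ^ 2 * q2 a r n w v + 4 * D * q ^ 3 * q3 a w v r n + q ^ 4 * Qh a w v := by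
  unfold Qh q3 q2
  ring

lemma Ia_basis (a : Fin 5 → ℂ) (r n w v : ℂ) :
    Qh a r n * Qh a w v - 4 * q3 a r n w v * q3 a w v r n + 3 * q2 a r n w v ^ 2
      = (w * n - v * r) ^ 4 * Ia a := by
  unfold Qh q3 q2 Ia
  ring

lemma Ja_basis (a : Fin 5 → ℂ) (r n w v : ℂ) :
    Qh a r n * q2 a r n w v * Qh a w v + 2 * q3 a r n w v * q2 a r n w v * q3 a w v r n
      - q2 a r n w v ^ 3 - q3 a r n w v ^ 2 * Qh a w v - Qh a r n * q3 a w v r n ^ 2
      = (w * n - v * r) ^ 6 * Ja a := by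
  unfold Qh q3 q2 Ja
  ring

/-- The quartic at the point with parameters `x`. -/
lemma Qh_pt {a : Fin 5 → ℂ} (hI : Ia a = 0) {r n w v : ℂ} (h0 : Qh a r n = 0)
    (hd : w * n - v * r = 1) (x : ℂ) :
    Qh a ((x - q2 a r n w v / 2) * r + q3 a r n w v * w)
      ((x - q2 a r n w v / 2) * n + q3 a r n w v * v)
      = q3 a r n w v ^ 2 * (4 * x ^ 3 - Ja a) := by
  rw [Qh_basis]
  have i := Ia_basis a r n w v
  have j := Ja_basis a r n w v
  rw [hd, hI, h0] at i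
  rw [hd, h0] at j
  rw [h0]
  set q := q3 a r n w v
  set p := q2 a r n w v
  set c := q3 a w v r n
  set d := Qh a w v
  linear_combination (-q ^ 2 * x) * i - q ^ 2 * j

lemma q3_ne {a : Fin 5 → ℂ} (hI : Ia a = 0) (hJ : Ja a ≠ 0) {r n w v : ℂ} (h0 : Qh a r n = 0)
    (hd : w * n - v * r = 1) : q3 a r n w v ≠ 0 := by
  intro h
  have i := Ia_basis a r n w v
  have j := Ja_basis a r n w v
  rw [hd, hI, h0, h] at i
  rw [hd, h0, h] at j
  have p0 : q2 a r n w v = 0 := by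
    have : q2 a r n w v ^ 2 = 0 := by linear_combination i / 3
    exact pow_eq_zero_iff (two_ne_zero) |>.mp this
  apply hJ
  rw [p0] at j
  linear_combination -j

/-- The point of the double plane with parameters `x, y` and root `ρ = (r, 1 + k r)`. -/
def pv (a : Fin 5 → ℂ) (Y Z k r x y : ℂ) : Fin 4 → ℂ :=
  ![(x - q2 a r (1 + k * r) 1 k / 2) * r + q3 a r (1 + k * r) 1 k * 1,
    ((x - q2 a r (1 + k * r) 1 k / 2) * (1 + k * r) + q3 a r (1 + k * r) 1 k * k) * Y,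
    ((x - q2 a r (1 + k * r) 1 k / 2) * (1 + k * r) + q3 a r (1 + k * r) 1 k * k) * Z,
    ((x - q2 a r (1 + k * r) 1 k / 2) * (1 + k * r) + q3 a r (1 + k * r) 1 k * k)
      * q3 a r (1 + k * r) 1 k * y]

lemma eval_hom2 {B : MvPolynomial (Fin 2) ℂ} {n : ℕ} (h : B.IsHomogeneous n) (c Y Z : ℂ) :
    MvPolynomial.eval ![c * Y, c * Z] B = c ^ n * MvPolynomial.eval ![Y, Z] B := by
  rw [MvPolynomial.eval_eq', MvPolynomial.eval_eq', Finset.mul_sum]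
  refine Finset.sum_congr rfl fun d hd => ?_
  have hdeg := h (MvPolynomial.mem_support_iff.mp hd)
  have h5 : d 0 + d 1 = n := by
    rw [← hdeg, Finsupp.weight_apply, Finsupp.sum_fintype _ _ (by simp)]
    simp [Fin.sum_univ_two]
  simp only [Fin.prod_univ_two, Matrix.cons_val]
  rw [← h5]
  ring

variable {A : Fin 5 → MvPolynomial (Fin 2) ℂ}

/-- The hypotheses on the forms. -/
structure Hyp (A : Fin 5 → MvPolynomial (Fin 2) ℂ) : Prop where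
  hom : ∀ i : Fin 5, (A i).IsHomogeneous (i + 1)
  I0 : ∀ Y Z : ℂ, Ia (av A Y Z) = 0

lemma quintic_hom (h : ∀ i : Fin 5, (A i).IsHomogeneous (i + 1)) :
    (quintic A).IsHomogeneous 5 := by
  have h0 := (h 0).rename_isHomogeneous (f := Fin.succ)
  have h1 := (h 1).rename_isHomogeneous (f := Fin.succ)
  have h2 := (h 2).rename_isHomogeneous (f := Fin.succ)
  have h3 := (h 3).rename_isHomogeneous (f := Fin.succ)
  have h4 := (h 4).rename_isHomogeneous (f := Fin.succ)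
  have hX := MvPolynomial.isHomogeneous_X ℂ (0 : Fin 3)
  have c : ∀ n : ℕ, (n : MvPolynomial (Fin 3) ℂ).IsHomogeneous 0 := by
    intro n
    rw [← map_natCast (MvPolynomial.C : ℂ →+* MvPolynomial (Fin 3) ℂ)]
    exact MvPolynomial.isHomogeneous_C _ _
  have c4 := c 4
  have c6 := c 6
  unfold quintic
  have t0 := h0.mul (hX.pow 4)
  have t1 := (c4.mul h1).mul (hX.pow 3)
  have t2 := (c6.mul h2).mul (hX.pow 2)
  have t3 := (c4.mul h3).mul hX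
  norm_num at t0 t1 t2 t3 h4
  exact (((t0.add t1).add t2).add t3).add h4

lemma eval_quintic (A : Fin 5 → MvPolynomial (Fin 2) ℂ) (X Y Z : ℂ) :
    MvPolynomial.eval ![X, Y, Z] (quintic A) = Qh (av A Y Z) X 1 := by
  have e : ∀ i, MvPolynomial.eval ![X, Y, Z] (MvPolynomial.rename Fin.succ (A i))
      = av A Y Z i := by
    intro i
    rw [MvPolynomial.eval_rename]
    unfold av
    congr 2
  unfold quintic Qh
  simp only [map_add, map_mul, map_pow, map_ofNat, MvPolynomial.eval_X, e, Matrix.cons_val]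
  ring

lemma av_scale (h : ∀ i : Fin 5, (A i).IsHomogeneous (i + 1)) (c Y Z : ℂ) (i : Fin 5) :
    av A (c * Y) (c * Z) i = c ^ (i.1 + 1) * av A Y Z i := eval_hom2 (h i) c Y Z

lemma eval_quintic' (h : ∀ i : Fin 5, (A i).IsHomogeneous (i + 1)) (X m Y Z : ℂ) :
    MvPolynomial.eval ![X, m * Y, m * Z] (quintic A) = m * Qh (av A Y Z) X m := by
  rw [eval_quintic]
  have e := av_scale h m Y Z
  unfold Qh
  rw [e 0, e 1, e 2, e 3, e 4]
  simp only [Fin.val_zero, Fin.val_one, Fin.val_two, Fin.isValue]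
  norm_num [Fin.val]
  ring

/-- The vector `pv` satisfies the equation of the double plane. -/
lemma pv_eq (hA : Hyp A) {Y Z k r x y : ℂ} (h0 : Qh (av A Y Z) r (1 + k * r) = 0)
    (hy : y ^ 2 = Z * (4 * x ^ 3 - Ja (av A Y Z))) :
    (pv (av A Y Z) Y Z k r x y 3) ^ 2 = pv (av A Y Z) Y Z k r x y 2 *
      MvPolynomial.eval ![pv (av A Y Z) Y Z k r x y 0, pv (av A Y Z) Y Z k r x y 1,
        pv (av A Y Z) Y Z k r x y 2] (quintic A) := by
  simp only [pv, Matrix.cons_val]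
  rw [eval_quintic' hA.hom]
  have h := Qh_pt (hA.I0 Y Z) h0 (by ring : (1 : ℂ) * (1 + k * r) - k * r = 1) x
  rw [h, mul_pow, mul_pow, hy]
  ring

lemma pv_ne (hA : Hyp A) {Y Z k r x y : ℂ} (h0 : Qh (av A Y Z) r (1 + k * r) = 0)
    (hJ : Ja (av A Y Z) ≠ 0) :
    ¬ (pv (av A Y Z) Y Z k r x y 0 = 0 ∧ pv (av A Y Z) Y Z k r x y 1 = 0 ∧
      pv (av A Y Z) Y Z k r x y 2 = 0) := by
  rintro ⟨e0, e1, e2⟩
  have hq := q3_ne (hA.I0 Y Z) hJ h0 (by ring : (1 : ℂ) * (1 + k * r) - k * r = 1)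
  simp only [pv, Matrix.cons_val] at e0 e1 e2
  have hYZ : Y ≠ 0 ∨ Z ≠ 0 := by
    by_contra hcon
    push Not at hcon
    apply hJ
    obtain ⟨rfl, rfl⟩ := hcon
    have e := fun i => av_scale hA.hom 0 0 0 i
    simp only [zero_mul] at e
    unfold Ja
    rw [e 0, e 1, e 2, e 3, e 4]
    simp
  set q := q3 (av A Y Z) r (1 + k * r) 1 k with hqd
  set D := x - q2 (av A Y Z) r (1 + k * r) 1 k / 2
  have hm : D * (1 + k * r) + q * k = 0 := by
    rcases hYZ with h | h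
    · exact (mul_eq_zero.mp e1).resolve_right h
    · exact (mul_eq_zero.mp e2).resolve_right h
  have hD : D = 0 := by linear_combination hm - k * e0
  apply hq
  rw [hD] at e0
  linear_combination e0

lemma pv_onPlane (hA : Hyp A) {Y Z k r x y : ℂ} (h0 : Qh (av A Y Z) r (1 + k * r) = 0)
    (hJ : Ja (av A Y Z) ≠ 0) (hy : y ^ 2 = Z * (4 * x ^ 3 - Ja (av A Y Z))) :
    OnPlane (quintic A) (pv (av A Y Z) Y Z k r x y) :=
  ⟨pv_ne hA h0 hJ, pv_eq hA h0 hy⟩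

lemma pv_neg (a : Fin 5 → ℂ) (Y Z k r x y : ℂ) :
    pv a Y Z k r x (-y) = neg3 (pv a Y Z k r x y) := by
  funext i
  fin_cases i <;> simp [pv, neg3]

/-- A line through the centre with a root of the quartic and radicals. -/
structure Fib (A : Fin 5 → MvPolynomial (Fin 2) ℂ) where
  k : ℂ
  Y : ℂ
  Z : ℂ
  r : ℂ
  ρ : ℂ
  σ : ℂ
  hZ : Z ≠ 0
  hJ : Ja (av A Y Z) ≠ 0
  root : Qh (av A Y Z) r (1 + k * r) = 0
  hρ : ρ ^ 3 = Ja (av A Y Z)
  hσ : σ ^ 2 = Z * Ja (av A Y Z)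

/-- The point of the double plane over the line `f` given by the point `(ξ, η)` of the curve
`η^2 = 4 ξ^3 - 1`. -/
def Fib.pt (f : Fib A) (ξ η : ℂ) : Fin 4 → ℂ :=
  pv (av A f.Y f.Z) f.Y f.Z f.k f.r (f.ρ * ξ) (f.σ * η)

lemma Fib.y_eq (f : Fib A) {ξ η : ℂ} (h : η ^ 2 = 4 * ξ ^ 3 - 1) :
    (f.σ * η) ^ 2 = f.Z * (4 * (f.ρ * ξ) ^ 3 - Ja (av A f.Y f.Z)) := by
  rw [mul_pow, mul_pow, f.hσ, f.hρ, h]
  ring

lemma Fib.onPlane (hA : Hyp A) (f : Fib A) {ξ η : ℂ} (h : η ^ 2 = 4 * ξ ^ 3 - 1) :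
    OnPlane (quintic A) (f.pt ξ η) :=
  pv_onPlane hA f.root f.hJ (f.y_eq h)

lemma Fib.pt_neg (f : Fib A) (ξ η : ℂ) : f.pt ξ (-η) = neg3 (f.pt ξ η) := by
  unfold Fib.pt
  rw [mul_neg, pv_neg]

/-- The class of `(P(e) - P(-e)) × (P(e') - P(-e'))`. -/
def Sy (f g : Fib A) (ξ η ξ' η' : ℂ) : CH (quintic A) :=
  e (P (quintic A) (f.pt ξ η)) (P (quintic A) (g.pt ξ' η'))
    - e (P (quintic A) (f.pt ξ (-η))) (P (quintic A) (g.pt ξ' η'))
    - e (P (quintic A) (f.pt ξ η)) (P (quintic A) (g.pt ξ' (-η')))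
    + e (P (quintic A) (f.pt ξ (-η))) (P (quintic A) (g.pt ξ' (-η')))

lemma Sy_zero_left (f g : Fib A) (ξ ξ' η' : ℂ) : Sy f g ξ 0 ξ' η' = 0 := by
  unfold Sy; rw [neg_zero]; abel

lemma Sy_zero_right (f g : Fib A) (ξ η ξ' : ℂ) : Sy f g ξ η ξ' 0 = 0 := by
  unfold Sy; rw [neg_zero]; abel

lemma Sy_neg_left (f g : Fib A) (ξ η ξ' η' : ℂ) : Sy f g ξ (-η) ξ' η' = - Sy f g ξ η ξ' η' := by
  unfold Sy; rw [neg_neg]; abel

lemma Sy_neg_right (f g : Fib A) (ξ η ξ' η' : ℂ) : Sy f g ξ η ξ' (-η') = - Sy f g ξ η ξ' η' := by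
  unfold Sy; rw [neg_neg]; abel

/-- Coordinates of the points are regular on a cover if the parameters are. -/
lemma Fib.pt_mem {U : Set ℂ} {ι : Type} [Fintype ι] (C : Cover U ι) (f : Fib A)
    {x y : ℂ → ι → ℂ} (hx : C.mem x) (hy : C.mem y) (k : Fin 4) :
    C.mem (fun s i => f.pt (x s i) (y s i) k) := by
  have hD : C.mem (fun s i => f.ρ * x s i - q2 (av A f.Y f.Z) f.r (1 + f.k * f.r) 1 f.k / 2) :=
    C.sub (C.mul (C.const _) hx) (C.const _)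
  have hm : C.mem (fun s i => (f.ρ * x s i
      - q2 (av A f.Y f.Z) f.r (1 + f.k * f.r) 1 f.k / 2) * (1 + f.k * f.r)
      + q3 (av A f.Y f.Z) f.r (1 + f.k * f.r) 1 f.k * f.k) :=
    C.add (C.mul hD (C.const _)) (C.const _)
  fin_cases k
  · exact C.add (C.mul hD (C.const _)) (C.const _)
  · exact C.mul hm (C.const _)
  · exact C.mul hm (C.const _)
  · exact C.mul (C.mul hm (C.const _)) (C.mul (C.const _) hy)

/-- The relation for families of pairs of points over two fixed lines. -/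
theorem pair_rel (hA : Hyp A) (f g : Fib A) {ι : Type} [Fintype ι] (x y x' y' : ℂ → ι → ℂ)
    (U₁ : Set ℂ) (hU₁ : U₁ᶜ.Finite) {s t : ℂ} (hs : s ∈ U₁) (ht : t ∈ U₁)
    (hcov : ∀ U ⊆ U₁, ∃ C : Cover U ι, C.mem x ∧ C.mem y ∧ C.mem x' ∧ C.mem y')
    (h1 : ∀ s ∈ U₁, ∀ i, y s i ^ 2 = 4 * x s i ^ 3 - 1)
    (h2 : ∀ s ∈ U₁, ∀ i, y' s i ^ 2 = 4 * x' s i ^ 3 - 1) :
    ∑ i, e (P (quintic A) (f.pt (x s i) (y s i))) (P (quintic A) (g.pt (x' s i) (y' s i)))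
      = ∑ i, e (P (quintic A) (f.pt (x t i) (y t i)))
        (P (quintic A) (g.pt (x' t i) (y' t i))) := by
  refine cover_rel (quintic_hom hA.hom) (fun s i => f.pt (x s i) (y s i))
    (fun s i => g.pt (x' s i) (y' s i)) U₁ hU₁ hs ht ?_ ?_ ?_ ?_ ?_ ?_ ?_
  · intro U hU
    obtain ⟨C, c1, c2, c3, c4⟩ := hcov U hU
    exact ⟨C, fun k => f.pt_mem C c1 c2 k, fun k => g.pt_mem C c3 c4 k⟩
  · intro s hs i
    exact (f.onPlane hA (h1 s hs i)).2
  · intro s hs i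
    exact (g.onPlane hA (h2 s hs i)).2
  · intro i; exact (f.onPlane hA (h1 s hs i)).1
  · intro i; exact (f.onPlane hA (h1 t ht i)).1
  · intro i; exact (g.onPlane hA (h2 s hs i)).1
  · intro i; exact (g.onPlane hA (h2 t ht i)).1

/-- The relation for the symbols. -/
theorem sy_rel (hA : Hyp A) (f g : Fib A) {ι : Type} [Fintype ι] (x y x' y' : ℂ → ι → ℂ)
    (U₁ : Set ℂ) (hU₁ : U₁ᶜ.Finite) {s t : ℂ} (hs : s ∈ U₁) (ht : t ∈ U₁)
    (hcov : ∀ U ⊆ U₁, ∃ C : Cover U ι, C.mem x ∧ C.mem y ∧ C.mem x' ∧ C.mem y')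
    (h1 : ∀ s ∈ U₁, ∀ i, y s i ^ 2 = 4 * x s i ^ 3 - 1)
    (h2 : ∀ s ∈ U₁, ∀ i, y' s i ^ 2 = 4 * x' s i ^ 3 - 1) :
    ∑ i, Sy f g (x s i) (y s i) (x' s i) (y' s i)
      = ∑ i, Sy f g (x t i) (y t i) (x' t i) (y' t i) := by
  have r1 := pair_rel hA f g x y x' y' U₁ hU₁ hs ht hcov h1 h2
  have r2 := pair_rel hA f g x (fun s i => - y s i) x' y' U₁ hU₁ hs ht
    (fun U hU => by
      obtain ⟨C, c1, c2, c3, c4⟩ := hcov U hU
      exact ⟨C, c1, C.neg c2, c3, c4⟩) (fun s hs i => by rw [neg_sq]; exact h1 s hs i) h2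
  have r3 := pair_rel hA f g x y x' (fun s i => - y' s i) U₁ hU₁ hs ht
    (fun U hU => by
      obtain ⟨C, c1, c2, c3, c4⟩ := hcov U hU
      exact ⟨C, c1, c2, c3, C.neg c4⟩) h1 (fun s hs i => by rw [neg_sq]; exact h2 s hs i)
  have r4 := pair_rel hA f g x (fun s i => - y s i) x' (fun s i => - y' s i) U₁ hU₁ hs ht
    (fun U hU => by
      obtain ⟨C, c1, c2, c3, c4⟩ := hcov U hU
      exact ⟨C, c1, C.neg c2, c3, C.neg c4⟩) (fun s hs i => by rw [neg_sq]; exact h1 s hs i)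
    (fun s hs i => by rw [neg_sq]; exact h2 s hs i)
  unfold Sy
  simp only [Finset.sum_add_distrib, Finset.sum_sub_distrib]
  rw [r1, r2, r3, r4]

end Pool.Agent.Equi60
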