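import Pool.Agent.Equi60.Points

/-! Relations over two fixed lines. -/

noncomputable section

namespace Pool.Agent.Equi60

open Polynomial Pool.Agent.Voisin60

/-- A primitive cube root of unity. -/
lemma exists_om : ∃ ω : ℂ, ω ^ 2 + ω + 1 = 0 := by
  obtain ⟨s, hs⟩ := IsAlgClosed.exists_pow_nat_eq (-3 : ℂ) (n := 2) (by norm_num)
  refine ⟨(-1 + s) / 2, ?_⟩
  linear_combination hs / 4

def om : ℂ := Classical.choose exists_om

lemma om_rel : om ^ 2 + om + 1 = 0 := Classical.choose_spec exists_om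

lemma om_cube : om ^ 3 = 1 := by
  linear_combination (om - 1) * om_rel

lemma om_ne : om ≠ 0 := by
  intro h
  have := om_rel
  rw [h] at this
  norm_num at this

lemma rt_sum_of {d : ℕ} (a : Fin d → ℂ) (S : Multiset ℂ)
    (h : mon a = (S.map fun t => X - C t).prod) {M : Type*} [AddCommMonoid M] (g : ℂ → M) :
    ∑ j, g (rt a j) = (S.map g).sum := by
  rw [rt_sum, h, roots_multiset_prod_X_sub_C]

lemma rt_sum3 {c ξ : ℂ} (h : ξ ^ 3 = c) {M : Type*} [AddCommMonoid M] (g : ℂ → M) :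
    ∑ j, g (rt ![-c, 0, 0] j) = g ξ + (g (om * ξ) + g (om ^ 2 * ξ)) := by
  rw [rt_sum_of _ {ξ, om * ξ, om ^ 2 * ξ}]
  · simp
  · have h1 : (C om : ℂ[X]) ^ 2 + C om + 1 = 0 := by
      have := congrArg (C : ℂ → ℂ[X]) om_rel
      simpa using this
    simp only [mon, Fin.sum_univ_three, Multiset.insert_eq_cons, Multiset.map_cons,
      Multiset.map_singleton, Multiset.prod_cons, Multiset.prod_singleton]
    simp only [Matrix.cons_val, Fin.val_zero, Fin.val_one, Fin.val_two, map_neg, map_zero,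
      map_mul, map_pow]
    rw [← h, map_pow]
    linear_combination ((X : ℂ[X]) ^ 2 * C ξ - (X : ℂ[X]) * C ξ ^ 2 * C om
      + C ξ ^ 3 * (C om - 1)) * h1

lemma rt_sum2 {b c α β : ℂ} (h1 : α + β = -b) (h2 : α * β = c) {M : Type*} [AddCommMonoid M]
    (g : ℂ → M) : ∑ j, g (rt ![c, b] j) = g α + g β := by
  rw [rt_sum_of _ {α, β}]
  · simp
  · simp only [mon, Fin.sum_univ_two, Multiset.insert_eq_cons, Multiset.map_cons,
      Multiset.map_singleton, Multiset.prod_cons, Multiset.prod_singleton]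
    simp only [Matrix.cons_val, Fin.val_zero, Fin.val_one]
    have hb : b = -(α + β) := by rw [h1]; ring
    rw [← h2, hb]
    simp only [map_mul, map_neg, map_add]
    ring

lemma rt2_root (b c : ℂ) (j : Fin 2) : rt ![c, b] j ^ 2 + b * rt ![c, b] j + c = 0 := by
  have h := rt_root ![c, b] j
  simp only [Fin.sum_univ_two, Matrix.cons_val, Fin.val_zero, Fin.val_one] at h
  linear_combination h

lemma rt3_root (c : ℂ) (j : Fin 3) : rt ![-c, 0, 0] j ^ 3 = c := by
  have h := rt_root ![-c, 0, 0] j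
  simp only [Fin.sum_univ_three, Matrix.cons_val, Fin.val_zero, Fin.val_one, Fin.val_two] at h
  linear_combination h

variable {U : Set ℂ} {ι : Type} [Fintype ι]

theorem Cover.root2 (C : Cover U ι) {b c : ℂ → ι → ℂ} (hb : C.mem b) (hc : C.mem c) :
    ∃ C' : Cover U (ι × Fin 2), (∀ φ, C.mem φ → C'.mem (fun s x => φ s x.1)) ∧
      C'.mem (fun s x => rt ![c s x.1, b s x.1] x.2) := by
  obtain ⟨C', h1, h2⟩ := C.exists_root ![c, b] (by
    intro k; fin_cases k
    · exact hc
    · exact hb)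
  refine ⟨C', h1, C'.congr h2 fun s _ x => ?_⟩
  congr 1
  funext k
  fin_cases k <;> rfl

theorem Cover.root3 (C : Cover U ι) {c : ℂ → ι → ℂ} (hc : C.mem c) :
    ∃ C' : Cover U (ι × Fin 3), (∀ φ, C.mem φ → C'.mem (fun s x => φ s x.1)) ∧
      C'.mem (fun s x => rt ![- c s x.1, 0, 0] x.2) := by
  obtain ⟨C', h1, h2⟩ := C.exists_root ![fun s i => - c s i, fun _ _ => 0, fun _ _ => 0] (by
    intro k; fin_cases k
    · exact C.neg hc
    · exact C.const 0
    · exact C.const 0)
  refine ⟨C', h1, C'.congr h2 fun s _ x => ?_⟩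
  congr 1
  funext k
  fin_cases k <;> rfl

variable {A : Fin 5 → MvPolynomial (Fin 2) ℂ}

/-- S3, left. -/
theorem S3_left (hA : Hyp A) (f g : Fib A) {ξ η ξ' η' : ℂ} (h1 : η ^ 2 = 4 * ξ ^ 3 - 1)
    (h2 : η' ^ 2 = 4 * ξ' ^ 3 - 1) :
    Sy f g ξ η ξ' η' + (Sy f g (om * ξ) η ξ' η' + Sy f g (om ^ 2 * ξ) η ξ' η') = 0 := by
  have key := sy_rel hA f g (ι := Unit × Fin 3)
    (fun s x => rt ![-((s ^ 2 + 1) / 4), 0, 0] x.2) (fun s _ => s) (fun _ _ => ξ') (fun _ _ => η')
    Set.univ (by simp) (s := η) (t := 0) (Set.mem_univ _) (Set.mem_univ _)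
    (by
      intro U _
      obtain ⟨C', c1, c2⟩ := (Cover.triv U).root3 (c := fun s _ => (s ^ 2 + 1) / 4)
        (((RegF.poly (X ^ 2 + 1)).mul (RegF.const (1 / 4))).congr fun s _ => by simp; ring)
      refine ⟨C', c2, ?_, C'.const _, C'.const _⟩
      exact C'.congr (C'.poly X) fun s _ x => by simp)
    (by
      intro s _ x
      have := rt3_root ((s ^ 2 + 1) / 4) x.2
      rw [this]; ring)
    (by intro s _ x; exact h2)
  rw [Fintype.sum_prod_type, Fintype.sum_prod_type] at key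
  simp only [Finset.univ_unique, Finset.sum_singleton] at key
  rw [rt_sum3 (c := (η ^ 2 + 1) / 4) (ξ := ξ) (by linear_combination -h1 / 4)
    (fun t => Sy f g t η ξ' η')] at key
  rw [key]
  simp [Sy_zero_left]

/-- S3, right. -/
theorem S3_right (hA : Hyp A) (f g : Fib A) {ξ η ξ' η' : ℂ} (h1 : η ^ 2 = 4 * ξ ^ 3 - 1)
    (h2 : η' ^ 2 = 4 * ξ' ^ 3 - 1) :
    Sy f g ξ η ξ' η' + (Sy f g ξ η (om * ξ') η' + Sy f g ξ η (om ^ 2 * ξ') η') = 0 := by
  have key := sy_rel hA f g (ι := Unit × Fin 3)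
    (fun _ _ => ξ) (fun _ _ => η)
    (fun s x => rt ![-((s ^ 2 + 1) / 4), 0, 0] x.2) (fun s _ => s)
    Set.univ (by simp) (s := η') (t := 0) (Set.mem_univ _) (Set.mem_univ _)
    (by
      intro U _
      obtain ⟨C', c1, c2⟩ := (Cover.triv U).root3 (c := fun s _ => (s ^ 2 + 1) / 4)
        (((RegF.poly (X ^ 2 + 1)).mul (RegF.const (1 / 4))).congr fun s _ => by simp; ring)
      refine ⟨C', C'.const _, C'.const _, c2, ?_⟩
      exact C'.congr (C'.poly X) fun s _ x => by simp)
    (by intro s _ x; exact h1)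
    (by
      intro s _ x
      have := rt3_root ((s ^ 2 + 1) / 4) x.2
      rw [this]; ring)
  rw [Fintype.sum_prod_type, Fintype.sum_prod_type] at key
  simp only [Finset.univ_unique, Finset.sum_singleton] at key
  rw [rt_sum3 (c := (η' ^ 2 + 1) / 4) (ξ := ξ') (by linear_combination -h2 / 4)
    (fun t => Sy f g ξ η t η')] at key
  rw [key]
  simp [Sy_zero_right]

/-- N3. -/
theorem N3 (hA : Hyp A) (f g : Fib A) {ξ η ξ' η' : ℂ} (h1 : η ^ 2 = 4 * ξ ^ 3 - 1)
    (h2 : η' ^ 2 = 4 * ξ' ^ 3 - 1) (n1 : ξ ≠ 0) (n2 : ξ' ≠ 0) :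
    Sy f g ξ η ξ' η' + (Sy f g (om * ξ) η (om * ξ') η'
      + Sy f g (om ^ 2 * ξ) η (om ^ 2 * ξ') η') = 0 := by
  set c := ξ / ξ' with hc
  have hc0 : c ≠ 0 := div_ne_zero n1 n2
  have hcξ : ξ = c * ξ' := by rw [hc]; field_simp
  have conic : η ^ 2 - c ^ 3 * η' ^ 2 = c ^ 3 - 1 := by
    rw [h1, h2, hcξ]; ring
  by_cases hK : c ^ 3 = 1
  · -- degenerate conic
    have hη : η = η' ∨ η = -η' := by
      rw [hK, one_mul, sub_self] at conic
      exact sq_eq_sq_iff_eq_or_eq_neg.mp (sub_eq_zero.mp conic)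
    have key : ∀ ε : ℂ, ε ^ 2 = 1 → η = ε * η' → Sy f g ξ η ξ' η' +
        (Sy f g (om * ξ) η (om * ξ') η' + Sy f g (om ^ 2 * ξ) η (om ^ 2 * ξ') η') = 0 := by
      intro ε hε he
      have key := sy_rel hA f g (ι := Unit × Fin 3)
        (fun s x => c * rt ![-((s ^ 2 + 1) / 4), 0, 0] x.2) (fun s _ => ε * s)
        (fun s x => rt ![-((s ^ 2 + 1) / 4), 0, 0] x.2) (fun s _ => s)
        Set.univ (by simp) (s := η') (t := 0) (Set.mem_univ _) (Set.mem_univ _)
        (by
          intro U _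
          obtain ⟨C', c1, c2⟩ := (Cover.triv U).root3 (c := fun s _ => (s ^ 2 + 1) / 4)
            (((RegF.poly (X ^ 2 + 1)).mul (RegF.const (1 / 4))).congr fun s _ => by simp; ring)
          have cs : C'.mem (fun s _ => s) := C'.congr (C'.poly X) fun s _ x => by simp
          exact ⟨C', C'.mul (C'.const _) c2, C'.mul (C'.const _) cs, c2, cs⟩)
        (by
          intro s _ x
          have := rt3_root ((s ^ 2 + 1) / 4) x.2
          rw [mul_pow, mul_pow, this, hK, hε]; ring)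
        (by
          intro s _ x
          have := rt3_root ((s ^ 2 + 1) / 4) x.2
          rw [this]; ring)
      rw [Fintype.sum_prod_type, Fintype.sum_prod_type] at key
      simp only [Finset.univ_unique, Finset.sum_singleton] at key
      rw [rt_sum3 (ξ := ξ') (by linear_combination -h2 / 4)
        (fun t => Sy f g (c * t) (ε * η') t η')] at key
      simp only [mul_zero, Sy_zero_left, Finset.sum_const_zero] at key
      rw [← he] at key
      rw [← key, hcξ]
      congr 2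
      · congr 1; ring
      · congr 1; ring
    rcases hη with h | h
    · exact key 1 (by norm_num) (by rw [h]; ring)
    · exact key (-1) (by norm_num) (by rw [h]; ring)
  · -- nondegenerate conic
    obtain ⟨R, hR⟩ := IsAlgClosed.exists_pow_nat_eq (c ^ 3) (n := 2) (by norm_num)
    have hR0 : R ≠ 0 := by
      intro h
      rw [h] at hR
      have : c ^ 3 = 0 := by rw [← hR]; norm_num
      exact hc0 (pow_eq_zero_iff (by norm_num) |>.mp this)
    set K := c ^ 3 - 1 with hKd
    have hK0 : K ≠ 0 := sub_ne_zero.mpr hK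
    obtain ⟨t, ht⟩ := IsAlgClosed.exists_pow_nat_eq (-K) (n := 2) (by norm_num)
    have ht0 : t ≠ 0 := by
      intro h
      rw [h] at ht
      apply hK0
      linear_combination ht
    set s₀ := η - R * η' with hs0
    have hprod : s₀ * (η + R * η') = K := by
      rw [hs0]
      linear_combination conic - η' ^ 2 * hR
    have hs0' : s₀ ≠ 0 := by
      intro h
      rw [h, zero_mul] at hprod
      exact hK0 hprod.symm
    have key := sy_rel hA f g (ι := Unit × Fin 3)
      (fun s x => c * rt ![-((((K / s - s) / (2 * R)) ^ 2 + 1) / 4), 0, 0] x.2)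
      (fun s _ => (s + K / s) / 2)
      (fun s x => rt ![-((((K / s - s) / (2 * R)) ^ 2 + 1) / 4), 0, 0] x.2)
      (fun s _ => (K / s - s) / (2 * R))
      {s | s ≠ 0} (by
        have : {s : ℂ | s ≠ 0}ᶜ = {0} := by ext; simp
        rw [this]; exact Set.finite_singleton 0) (s := s₀) (t := t) hs0' ht0
      (by
        intro U hU
        have hX : RegF U (fun s => s) := (RegF.poly X).congr fun s _ => by simp
        have hinv : RegF U (fun s => s⁻¹) := hX.inv fun s hs => hU hs
        have r1 : RegF U (fun s => (s + K / s) / 2) :=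
          ((hX.add ((RegF.const K).mul hinv)).mul (RegF.const (1 / 2))).congr
            fun s _ => by ring
        have r2 : RegF U (fun s => (K / s - s) / (2 * R)) :=
          ((((RegF.const K).mul hinv).sub hX).mul (RegF.const (1 / (2 * R)))).congr
            fun s _ => by ring
        obtain ⟨C', c1, c2⟩ := (Cover.triv U).root3
          (c := fun s _ => (((K / s - s) / (2 * R)) ^ 2 + 1) / 4)
          ((((r2.pow 2).add (RegF.const 1)).mul (RegF.const (1 / 4))).congr
            fun s _ => by ring)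
        exact ⟨C', C'.mul (C'.const _) c2, C'.base _ r1, c2, C'.base _ r2⟩)
      (by
        intro s hs x
        have hs' : s ≠ 0 := hs
        have := rt3_root ((((K / s - s) / (2 * R)) ^ 2 + 1) / 4) x.2
        rw [mul_pow, this]
        have : c ^ 3 = R ^ 2 := hR.symm
        rw [this]
        have hK' : K = R ^ 2 - 1 := by rw [hR]
        rw [hK']
        field_simp
        ring)
      (by
        intro s _ x
        have := rt3_root ((((K / s - s) / (2 * R)) ^ 2 + 1) / 4) x.2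
        rw [this]; ring)
    rw [Fintype.sum_prod_type, Fintype.sum_prod_type] at key
    simp only [Finset.univ_unique, Finset.sum_singleton] at key
    have hKs : K / s₀ = η + R * η' := by rw [← hprod]; field_simp
    have e1 : (s₀ + K / s₀) / 2 = η := by rw [hKs, hs0]; ring
    have e2 : (K / s₀ - s₀) / (2 * R) = η' := by rw [hKs, hs0]; field_simp; ring
    have e3 : (t + K / t) / 2 = 0 := by
      have : K = -t ^ 2 := by rw [ht]; ring
      rw [this]; field_simp; ring
    rw [e1, e2, e3] at key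
    rw [rt_sum3 (ξ := ξ') (by linear_combination -h2 / 4)
        (fun t => Sy f g (c * t) η t η')] at key
    simp only [Sy_zero_left, Finset.sum_const_zero] at key
    rw [← key, hcξ]
    congr 2
    · congr 1; ring
    · congr 1; ring

/-- Bilinearity over the cube roots of unity (up to 3-torsion). -/
theorem K_rel (hA : Hyp A) (f g : Fib A) {ξ η ξ' η' : ℂ} (h1 : η ^ 2 = 4 * ξ ^ 3 - 1)
    (h2 : η' ^ 2 = 4 * ξ' ^ 3 - 1) (n1 : ξ ≠ 0) (n2 : ξ' ≠ 0) :
    (3 : ℕ) • Sy f g (om * ξ) η (om ^ 2 * ξ') η' = (3 : ℕ) • Sy f g ξ η ξ' η' ∧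
    (3 : ℕ) • Sy f g (om ^ 2 * ξ) η (om * ξ') η' = (3 : ℕ) • Sy f g ξ η ξ' η' := by
  -- `M i j = Sy (om^i ξ) (om^j ξ')`
  set M : ℕ → ℕ → CH (quintic A) := fun i j => Sy f g (om ^ i * ξ) η (om ^ j * ξ') η' with hM
  have hE : ∀ (i : ℕ) (z : ℂ), 4 * (om ^ i * z) ^ 3 = 4 * z ^ 3 := by
    intro i z
    rw [mul_pow, ← pow_mul, mul_comm i 3, pow_mul, om_cube, one_pow, one_mul]
  have e1 : ∀ i, η ^ 2 = 4 * (om ^ i * ξ) ^ 3 - 1 := fun i => by rw [hE]; exact h1
  have e2 : ∀ i, η' ^ 2 = 4 * (om ^ i * ξ') ^ 3 - 1 := fun i => by rw [hE]; exact h2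
  have per : ∀ i j, M (i + 3) j = M i j := by
    intro i j; simp only [hM, pow_add, om_cube, mul_one]
  have per' : ∀ i j, M i (j + 3) = M i j := by
    intro i j; simp only [hM, pow_add, om_cube, mul_one]
  have row : ∀ j, M 0 j + (M 1 j + M 2 j) = 0 := by
    intro j
    have := S3_left hA f g (h1) (e2 j)
    simpa [hM] using this
  have col : ∀ i, M i 0 + (M i 1 + M i 2) = 0 := by
    intro i
    have := S3_right hA f g (e1 i) h2
    simpa [hM] using this
  have dia : ∀ j, M 0 j + (M 1 (j + 1) + M 2 (j + 2)) = 0 := by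
    intro j
    have := N3 hA f g h1 (e2 j) n1 (mul_ne_zero (pow_ne_zero _ om_ne) n2)
    have a1 : om * (om ^ j * ξ') = om ^ (j + 1) * ξ' := by ring
    have a2 : om ^ 2 * (om ^ j * ξ') = om ^ (j + 2) * ξ' := by ring
    rw [a1, a2] at this
    simpa [hM] using this
  have d0 := dia 0
  have d1 := dia 1
  have d2 := dia 2
  simp only [zero_add] at d0
  have p1 : M 2 3 = M 2 0 := per' 2 0
  have p2 : M 1 3 = M 1 0 := per' 1 0
  have p3 : M 2 4 = M 2 1 := per' 2 1
  norm_num at d1 d2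
  rw [p1] at d1
  rw [p2, p3] at d2
  have r0 := row 0
  have r1 := row 1
  have r2 := row 2
  have c0 := col 0
  have c1 := col 1
  have c2 := col 2
  have g0 : M 0 0 = Sy f g ξ η ξ' η' := by simp [hM]
  have g1 : M 1 2 = Sy f g (om * ξ) η (om ^ 2 * ξ') η' := by simp [hM]
  have g2 : M 2 1 = Sy f g (om ^ 2 * ξ) η (om * ξ') η' := by simp [hM]
  rw [← g0, ← g1, ← g2]
  constructor
  · rw [← sub_eq_zero]
    have : (3 : ℕ) • M 1 2 - (3 : ℕ) • M 0 0
        = (M 0 2 + (M 1 2 + M 2 2)) + (M 1 0 + (M 1 1 + M 1 2))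
          + (M 0 1 + (M 1 2 + M 2 0))
          - (M 0 0 + (M 0 1 + M 0 2)) - (M 0 0 + (M 1 0 + M 2 0)) - (M 0 0 + (M 1 1 + M 2 2)) := by
      simp only [succ_nsmul, zero_nsmul]; abel
    rw [this, r2, c1, d1, c0, r0, d0]
    simp
  · rw [← sub_eq_zero]
    have : (3 : ℕ) • M 2 1 - (3 : ℕ) • M 0 0
        = (M 0 1 + (M 1 1 + M 2 1)) + (M 2 0 + (M 2 1 + M 2 2))
          + (M 0 2 + (M 1 0 + M 2 1))
          - (M 0 0 + (M 0 1 + M 0 2)) - (M 0 0 + (M 1 0 + M 2 0)) - (M 0 0 + (M 1 1 + M 2 2)) := by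
      simp only [succ_nsmul, zero_nsmul]; abel
    rw [this, r1, c2, d2, c0, r0, d0]
    simp

end Pool.Agent.Equi60
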