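import Pool.Agent.Equi60.Cover

/-! Adjoining a root of a monic polynomial to a cover. -/

noncomputable section

namespace Pool.Agent.Equi60

open Polynomial

/-- The monic polynomial with given lower coefficients. -/
def mon {d : ℕ} (a : Fin d → ℂ) : ℂ[X] := X ^ d + ∑ k : Fin d, C (a k) * X ^ (k : ℕ)

lemma mon_monic {d : ℕ} (a : Fin d → ℂ) : (mon a).Monic := by
  unfold mon
  exact monic_X_pow_add (Polynomial.degree_sum_fin_lt a)

lemma mon_natDegree {d : ℕ} (a : Fin d → ℂ) : (mon a).natDegree = d := by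
  unfold mon
  have h : (∑ k : Fin d, C (a k) * X ^ (k : ℕ) : ℂ[X]).degree < (X ^ d : ℂ[X]).degree := by
    rw [degree_X_pow]
    exact Polynomial.degree_sum_fin_lt a
  rw [Polynomial.natDegree_add_eq_left_of_degree_lt h, natDegree_X_pow]

lemma exists_rt {d : ℕ} (a : Fin d → ℂ) :
    ∃ r : Fin d → ℂ, Finset.univ.val.map r = (mon a).roots := by
  have hc : Multiset.card (mon a).roots = d := by
    rw [← (IsAlgClosed.splits (mon a)).natDegree_eq_card_roots, mon_natDegree]
  obtain ⟨l, hl⟩ := Quotient.exists_rep (mon a).roots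
  have hlen : l.length = d := by
    rw [← hc, ← hl]
    rfl
  subst hlen
  refine ⟨l.get, ?_⟩
  rw [← hl]
  simp

/-- A chosen enumeration of the roots. -/
def rt {d : ℕ} (a : Fin d → ℂ) : Fin d → ℂ := Classical.choose (exists_rt a)

lemma rt_spec {d : ℕ} (a : Fin d → ℂ) : Finset.univ.val.map (rt a) = (mon a).roots :=
  Classical.choose_spec (exists_rt a)

lemma rt_root {d : ℕ} (a : Fin d → ℂ) (j : Fin d) :
    rt a j ^ d + ∑ k : Fin d, a k * rt a j ^ (k : ℕ) = 0 := by
  have h : rt a j ∈ (mon a).roots := by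
    rw [← rt_spec]
    exact Multiset.mem_map.mpr ⟨j, Finset.mem_univ_val j, rfl⟩
  have h2 := (mem_roots (mon_monic a).ne_zero).mp h
  rw [IsRoot.def] at h2
  rw [← h2]
  simp [mon, eval_finsetSum]

/-- The sum over the roots does not depend on the enumeration. -/
lemma rt_sum {d : ℕ} (a : Fin d → ℂ) {M : Type*} [AddCommMonoid M] (g : ℂ → M) :
    ∑ j, g (rt a j) = ((mon a).roots.map g).sum := by
  rw [← rt_spec, Multiset.map_map]
  rfl

lemma rt_esymm {d : ℕ} (a : Fin d → ℂ) (k : ℕ) :
    MvPolynomial.eval (rt a) (MvPolynomial.esymm (Fin d) ℂ k) = (mon a).roots.esymm k := by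
  rw [← rt_spec, ← MvPolynomial.aeval_esymm_eq_multiset_esymm (Fin d) ℂ k (rt a),
    MvPolynomial.aeval_eq_eval]

lemma mon_coeff {d : ℕ} (a : Fin d → ℂ) (k : Fin d) : (mon a).coeff k = a k := by
  unfold mon
  rw [coeff_add, coeff_X_pow, if_neg (by have := k.2; omega), zero_add, finsetSum_coeff]
  simp only [coeff_C_mul, coeff_X_pow]
  rw [Finset.sum_eq_single k]
  · simp
  · intro j _ hj
    rw [if_neg]
    · simp
    · intro h; exact hj (Fin.ext h.symm)
  · intro h; exact absurd (Finset.mem_univ k) h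

lemma rt_esymm_coeff {d : ℕ} (a : Fin d → ℂ) (k : Fin d) :
    MvPolynomial.eval (rt a) (MvPolynomial.esymm (Fin d) ℂ (d - k)) = (-1) ^ (d - k) * a k := by
  have hc : Multiset.card (mon a).roots = (mon a).natDegree :=
    (IsAlgClosed.splits (mon a)).natDegree_eq_card_roots.symm
  have h := Polynomial.coeff_eq_esymm_roots_of_card hc (k := k) (by
    rw [mon_natDegree]; exact k.2.le)
  rw [mon_coeff, mon_natDegree, (mon_monic a).leadingCoeff, one_mul] at h
  rw [rt_esymm, h, ← mul_assoc, ← mul_pow]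
  simp

lemma rt_esymm_big {d : ℕ} (a : Fin d → ℂ) {k : ℕ} (hk : d < k) :
    MvPolynomial.eval (rt a) (MvPolynomial.esymm (Fin d) ℂ k) = 0 := by
  rw [MvPolynomial.esymm, Finset.powersetCard_eq_empty.mpr (by simpa using hk)]
  simp

variable {U : Set ℂ} {ι : Type} [Fintype ι]

/-- Evaluation of functions. -/
def ev (s : ℂ) (i : ι) : (ℂ → ι → ℂ) →+* ℂ :=
  (Pi.evalRingHom (fun _ : ι => ℂ) i).comp (Pi.evalRingHom (fun _ : ℂ => ι → ℂ) s)

omit [Fintype ι] in
@[simp] lemma ev_apply (s : ℂ) (i : ι) (φ : ℂ → ι → ℂ) : ev s i φ = φ s i := rfl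

lemma Cover.psum_mem (C : Cover U ι) {d : ℕ} (r : ℂ → ι → Fin d → ℂ)
    (hr : ∀ k, C.mem (fun s i => MvPolynomial.eval (r s i) (MvPolynomial.esymm (Fin d) ℂ k)))
    (k : ℕ) : C.mem (fun s i => ∑ j, r s i j ^ k) := by
  classical
  have goal : C.mem (fun s i => MvPolynomial.eval (r s i) (MvPolynomial.psum (Fin d) ℂ k)) := by
    induction k using Nat.strong_induction_on with
    | _ k ih =>
      rcases Nat.eq_zero_or_pos k with rfl | hk
      · exact C.congr (C.const d) fun s _ i => by simp [MvPolynomial.psum]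
      · have newt := MvPolynomial.psum_eq_mul_esymm_sub_sum (Fin d) ℂ k hk
        have m : C.mem (fun s i => (-1) ^ (k + 1) * (k : ℂ) *
            MvPolynomial.eval (r s i) (MvPolynomial.esymm (Fin d) ℂ k) -
            ∑ a ∈ (Finset.HasAntidiagonal.antidiagonal k).filter
              (fun a : ℕ × ℕ => a.1 ∈ Set.Ioo 0 k), (-1) ^ a.1 *
              MvPolynomial.eval (r s i) (MvPolynomial.esymm (Fin d) ℂ a.1) *
              MvPolynomial.eval (r s i) (MvPolynomial.psum (Fin d) ℂ a.2)) := by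
          refine C.sub (C.mul (C.const _) (hr k)) (C.sum _ _ fun a ha => ?_)
          have ha' := Finset.mem_filter.mp ha
          have h1 : a.1 + a.2 = k := Finset.HasAntidiagonal.mem_antidiagonal.mp ha'.1
          have h2 := ha'.2
          have h3 : a.2 < k := by
            have : 0 < a.1 := h2.1
            omega
          exact C.mul (C.mul (C.const _) (hr a.1)) (ih a.2 h3)
        refine C.congr m fun s _ i => ?_
        have e := congrArg (MvPolynomial.eval (r s i)) newt
        simp only [map_sub, map_mul, map_natCast, map_pow, map_neg, map_one, map_sum] at e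
        rw [e]
  refine C.congr goal fun s _ i => ?_
  simp [MvPolynomial.psum]

/-- The cover obtained by adjoining the roots `r s i j`. -/
def Cover.ext (C : Cover U ι) {d : ℕ} (r : ℂ → ι → Fin d → ℂ)
    (hr : ∀ k, C.mem (fun s i => MvPolynomial.eval (r s i) (MvPolynomial.esymm (Fin d) ℂ k))) :
    Cover U (ι × Fin d) where
  mem := fun ψ => ∃ p : (ℂ → ι → ℂ)[X], (∀ k, C.mem (p.coeff k)) ∧
    ∀ s ∈ U, ∀ x, ψ s x = (p.map (ev s x.1)).eval (r s x.1 x.2)
  base := fun g hg => by
    refine ⟨Polynomial.C (fun s _ => g s), fun k => ?_, fun s _ x => by simp⟩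
    rw [coeff_C]
    split_ifs
    · exact C.base g hg
    · exact C.const 0
  add := by
    rintro φ ψ ⟨p, hp, hp'⟩ ⟨q, hq, hq'⟩
    refine ⟨p + q, fun k => ?_, fun s hs x => ?_⟩
    · rw [coeff_add]
      exact C.add (hp k) (hq k)
    · simp [hp' s hs x, hq' s hs x]
  mul := by
    rintro φ ψ ⟨p, hp, hp'⟩ ⟨q, hq, hq'⟩
    refine ⟨p * q, fun k => ?_, fun s hs x => ?_⟩
    · have : (p * q).coeff k = fun s i => ∑ y ∈ Finset.HasAntidiagonal.antidiagonal k,
          p.coeff y.1 s i * q.coeff y.2 s i := by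
        rw [coeff_mul]
        funext s i
        simp
      rw [this]
      exact C.sum _ _ fun y _ => C.mul (hp y.1) (hq y.2)
    · simp [hp' s hs x, hq' s hs x]
  congr := by
    rintro φ ψ ⟨p, hp, hp'⟩ h
    exact ⟨p, hp, fun s hs x => (h s hs x).trans (hp' s hs x)⟩
  tr := by
    rintro φ ⟨p, hp, hp'⟩
    have m : C.mem (fun s i => ∑ k ∈ Finset.range (p.natDegree + 1),
        p.coeff k s i * ∑ j, r s i j ^ k) :=
      C.sum _ _ fun k _ => C.mul (hp k) (C.psum_mem r hr k)
    refine (C.tr m).congr fun s hs => ?_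
    rw [Fintype.sum_prod_type]
    refine Finset.sum_congr rfl fun i _ => ?_
    have e : ∀ j, φ s (i, j) = ∑ k ∈ Finset.range (p.natDegree + 1),
        p.coeff k s i * r s i j ^ k := by
      intro j
      rw [hp' s hs (i, j), Polynomial.eval_map, Polynomial.eval₂_eq_sum_range]
      rfl
    rw [Finset.sum_congr rfl fun j _ => e j, Finset.sum_comm]
    exact Finset.sum_congr rfl fun k _ => (Finset.mul_sum _ _ _).symm

lemma Cover.ext_old (C : Cover U ι) {d : ℕ} (r : ℂ → ι → Fin d → ℂ)
    (hr : ∀ k, C.mem (fun s i => MvPolynomial.eval (r s i) (MvPolynomial.esymm (Fin d) ℂ k)))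
    {φ : ℂ → ι → ℂ} (h : C.mem φ) : (C.ext r hr).mem (fun s x => φ s x.1) := by
  refine ⟨Polynomial.C φ, fun k => ?_, fun s _ x => by simp⟩
  rw [coeff_C]
  split_ifs
  · exact h
  · exact C.const 0

lemma Cover.ext_new (C : Cover U ι) {d : ℕ} (r : ℂ → ι → Fin d → ℂ)
    (hr : ∀ k, C.mem (fun s i => MvPolynomial.eval (r s i) (MvPolynomial.esymm (Fin d) ℂ k))) :
    (C.ext r hr).mem (fun s x => r s x.1 x.2) := by
  refine ⟨X, fun k => ?_, fun s _ x => by simp⟩
  rw [coeff_X]
  split_ifs
  · exact C.const 1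
  · exact C.const 0

/-- The cover adjoining the roots of the monic polynomial with coefficients `a`. -/
theorem Cover.exists_root (C : Cover U ι) {d : ℕ} (a : Fin d → ℂ → ι → ℂ)
    (ha : ∀ k, C.mem (a k)) :
    ∃ C' : Cover U (ι × Fin d), (∀ φ, C.mem φ → C'.mem (fun s x => φ s x.1)) ∧
      C'.mem (fun s x => rt (fun k => a k s x.1) x.2) := by
  have hr : ∀ k, C.mem (fun s i => MvPolynomial.eval (rt (fun k => a k s i))
      (MvPolynomial.esymm (Fin d) ℂ k)) := by
    intro k
    rcases Nat.eq_zero_or_pos k with rfl | hk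
    · exact C.congr (C.const 1) fun s _ i => by simp
    · rcases le_or_gt k d with hkd | hkd
      · have hlt : d - k < d := by omega
        have h1 : d - (⟨d - k, hlt⟩ : Fin d).1 = k := by simp; omega
        refine C.congr (C.mul (C.const ((-1) ^ k)) (ha ⟨d - k, hlt⟩)) fun s _ i => ?_
        have := rt_esymm_coeff (fun k => a k s i) ⟨d - k, hlt⟩
        rw [h1] at this
        exact this
      · exact C.congr (C.const 0) fun s _ i => rt_esymm_big _ hkd
  exact ⟨C.ext (fun s i => rt (fun k => a k s i)) hr, fun φ h => C.ext_old _ hr h,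
    C.ext_new _ hr⟩

end Pool.Agent.Equi60
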