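import Pool.Agent.Equi60.Chord

/-! Families over moving lines: summing over the roots of both quartics. -/

noncomputable section

namespace Pool.Agent.Equi60

open Polynomial Pool.Agent.Voisin60

/-- The roots `r` of `Qh a r (1 + k r)`. -/
def rq (a : Fin 5 → ℂ) (k : ℂ) : Fin 4 → ℂ :=
  rt ![a 4 / Qh a 1 k, (4 * a 3 + 4 * k * a 4) / Qh a 1 k,
    (6 * a 2 + 12 * k * a 3 + 6 * k ^ 2 * a 4) / Qh a 1 k,
    (4 * a 1 + 12 * k * a 2 + 12 * k ^ 2 * a 3 + 4 * k ^ 3 * a 4) / Qh a 1 k]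

lemma rq_root {a : Fin 5 → ℂ} {k : ℂ} (h : Qh a 1 k ≠ 0) (j : Fin 4) :
    Qh a (rq a k j) (1 + k * rq a k j) = 0 := by
  have e := rt_root ![a 4 / Qh a 1 k, (4 * a 3 + 4 * k * a 4) / Qh a 1 k,
    (6 * a 2 + 12 * k * a 3 + 6 * k ^ 2 * a 4) / Qh a 1 k,
    (4 * a 1 + 12 * k * a 2 + 12 * k ^ 2 * a 3 + 4 * k ^ 3 * a 4) / Qh a 1 k] j
  rw [← rq] at e
  simp only [Fin.sum_univ_four, Matrix.cons_val] at e
  have e' := congrArg (fun z => Qh a 1 k * z) e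
  simp only [mul_zero] at e'
  rw [← e']
  have v3 : ((3 : Fin 4) : ℕ) = 3 := rfl
  simp only [Fin.val_zero, Fin.val_one, Fin.val_two, v3]
  field_simp
  unfold Qh
  ring

variable {U : Set ℂ} {ι : Type} [Fintype ι] {A : Fin 5 → MvPolynomial (Fin 2) ℂ}

lemma Cover.av_mem (C : Cover U ι) (A : Fin 5 → MvPolynomial (Fin 2) ℂ) {Y Z : ℂ → ι → ℂ}
    (hY : C.mem Y) (hZ : C.mem Z) (j : Fin 5) : C.mem (fun s i => av A (Y s i) (Z s i) j) := by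
  refine C.congr (C.mvPoly (A j) ![Y, Z] (by
    intro k; fin_cases k
    · exact hY
    · exact hZ)) fun s _ i => ?_
  unfold av
  congr 2
  funext k
  fin_cases k <;> rfl

lemma Cover.Qh_mem (C : Cover U ι) {a : Fin 5 → ℂ → ι → ℂ} (ha : ∀ j, C.mem (a j))
    {X m : ℂ → ι → ℂ} (hX : C.mem X) (hm : C.mem m) :
    C.mem (fun s i => Qh (fun j => a j s i) (X s i) (m s i)) := by
  have c4 := C.const 4
  have c6 := C.const 6
  exact C.add (C.add (C.add (C.add (C.mul (ha 0) (C.pow hX 4))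
    (C.mul (C.mul (C.mul c4 (ha 1)) (C.pow hX 3)) hm))
    (C.mul (C.mul (C.mul c6 (ha 2)) (C.pow hX 2)) (C.pow hm 2)))
    (C.mul (C.mul (C.mul c4 (ha 3)) hX) (C.pow hm 3))) (C.mul (ha 4) (C.pow hm 4))

lemma Cover.Ja_mem (C : Cover U ι) {a : Fin 5 → ℂ → ι → ℂ} (ha : ∀ j, C.mem (a j)) :
    C.mem (fun s i => Ja (fun j => a j s i)) := by
  have c2 := C.const 2
  exact C.sub (C.sub (C.sub (C.add (C.mul (C.mul (ha 0) (ha 2)) (ha 4))
    (C.mul (C.mul (C.mul c2 (ha 1)) (ha 2)) (ha 3))) (C.pow (ha 2) 3))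
    (C.mul (C.pow (ha 1) 2) (ha 4))) (C.mul (ha 0) (C.pow (ha 3) 2))

lemma Cover.q3_mem (C : Cover U ι) {a : Fin 5 → ℂ → ι → ℂ} (ha : ∀ j, C.mem (a j))
    {r n : ℂ → ι → ℂ} (hr : C.mem r) (hn : C.mem n) (w v : ℂ) :
    C.mem (fun s i => q3 (fun j => a j s i) (r s i) (n s i) w v) := by
  have c3 := C.const 3
  exact C.add (C.mul (C.const w) (C.add (C.add (C.add (C.mul (ha 0) (C.pow hr 3))
      (C.mul (C.mul (C.mul c3 (ha 1)) (C.pow hr 2)) hn))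
      (C.mul (C.mul (C.mul c3 (ha 2)) hr) (C.pow hn 2))) (C.mul (ha 3) (C.pow hn 3))))
    (C.mul (C.const v) (C.add (C.add (C.add (C.mul (ha 1) (C.pow hr 3))
      (C.mul (C.mul (C.mul c3 (ha 2)) (C.pow hr 2)) hn))
      (C.mul (C.mul (C.mul c3 (ha 3)) hr) (C.pow hn 2))) (C.mul (ha 4) (C.pow hn 3))))

lemma Cover.q2_mem (C : Cover U ι) {a : Fin 5 → ℂ → ι → ℂ} (ha : ∀ j, C.mem (a j))
    {r n : ℂ → ι → ℂ} (hr : C.mem r) (hn : C.mem n) (w v : ℂ) :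
    C.mem (fun s i => q2 (fun j => a j s i) (r s i) (n s i) w v) := by
  have c2 := C.const 2
  exact C.add (C.add (C.mul (C.const (w ^ 2)) (C.add (C.add (C.mul (ha 0) (C.pow hr 2))
      (C.mul (C.mul (C.mul c2 (ha 1)) hr) hn)) (C.mul (ha 2) (C.pow hn 2))))
    (C.mul (C.const (2 * w * v)) (C.add (C.add (C.mul (ha 1) (C.pow hr 2))
      (C.mul (C.mul (C.mul c2 (ha 2)) hr) hn)) (C.mul (ha 3) (C.pow hn 2)))))
    (C.mul (C.const (v ^ 2)) (C.add (C.add (C.mul (ha 2) (C.pow hr 2))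
      (C.mul (C.mul (C.mul c2 (ha 3)) hr) hn)) (C.mul (ha 4) (C.pow hn 2))))

lemma Cover.pv_mem (C : Cover U ι) {a : Fin 5 → ℂ → ι → ℂ} (ha : ∀ j, C.mem (a j))
    {Y Z r x y : ℂ → ι → ℂ} (hY : C.mem Y) (hZ : C.mem Z) (hr : C.mem r) (hx : C.mem x)
    (hy : C.mem y) (k : ℂ) (j : Fin 4) :
    C.mem (fun s i => pv (fun j => a j s i) (Y s i) (Z s i) k (r s i) (x s i) (y s i) j) := by
  have hn : C.mem (fun s i => 1 + k * r s i) := C.add (C.const 1) (C.mul (C.const k) hr)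
  have hq := C.q3_mem ha hr hn 1 k
  have hp := C.q2_mem ha hr hn 1 k
  have hD : C.mem (fun s i => x s i - q2 (fun j => a j s i) (r s i) (1 + k * r s i) 1 k / 2) :=
    C.congr (C.sub hx (C.mul hp (C.const (1 / 2)))) fun s _ i => by ring
  have hm : C.mem (fun s i =>
      (x s i - q2 (fun j => a j s i) (r s i) (1 + k * r s i) 1 k / 2) * (1 + k * r s i)
        + q3 (fun j => a j s i) (r s i) (1 + k * r s i) 1 k * k) :=
    C.add (C.mul hD hn) (C.mul hq (C.const k))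
  fin_cases j
  · exact C.add (C.mul hD hr) (C.mul hq (C.const 1))
  · exact C.mul hm hY
  · exact C.mul hm hZ
  · exact C.mul (C.mul hm hq) hy

/-- Adjoining the roots of the quartic. -/
lemma Cover.exists_rq (C : Cover U ι) (A : Fin 5 → MvPolynomial (Fin 2) ℂ) (k : ℂ)
    {Y Z : ℂ → ι → ℂ} (hY : C.mem Y) (hZ : C.mem Z)
    (h0 : ∀ s ∈ U, ∀ i, Qh (av A (Y s i) (Z s i)) 1 k ≠ 0) :
    ∃ C' : Cover U (ι × Fin 4), (∀ φ, C.mem φ → C'.mem (fun s x => φ s x.1)) ∧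
      C'.mem (fun s x => rq (av A (Y s x.1) (Z s x.1)) k x.2) := by
  have ha := C.av_mem A hY hZ
  have hQ : C.mem (fun s i => Qh (av A (Y s i) (Z s i)) 1 k) :=
    C.Qh_mem ha (C.const 1) (C.const k)
  have hQi := C.inv hQ h0
  obtain ⟨C', h1, h2⟩ := C.exists_root
    ![fun s i => av A (Y s i) (Z s i) 4 / Qh (av A (Y s i) (Z s i)) 1 k,
      fun s i => (4 * av A (Y s i) (Z s i) 3 + 4 * k * av A (Y s i) (Z s i) 4)
        / Qh (av A (Y s i) (Z s i)) 1 k,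
      fun s i => (6 * av A (Y s i) (Z s i) 2 + 12 * k * av A (Y s i) (Z s i) 3
        + 6 * k ^ 2 * av A (Y s i) (Z s i) 4) / Qh (av A (Y s i) (Z s i)) 1 k,
      fun s i => (4 * av A (Y s i) (Z s i) 1 + 12 * k * av A (Y s i) (Z s i) 2
        + 12 * k ^ 2 * av A (Y s i) (Z s i) 3 + 4 * k ^ 3 * av A (Y s i) (Z s i) 4)
        / Qh (av A (Y s i) (Z s i)) 1 k] (by
    intro j
    fin_cases j
    · exact C.mul (ha 4) hQi
    · exact C.mul (C.add (C.mul (C.const 4) (ha 3)) (C.mul (C.const (4 * k)) (ha 4))) hQi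
    · exact C.mul (C.add (C.add (C.mul (C.const 6) (ha 2)) (C.mul (C.const (12 * k)) (ha 3)))
        (C.mul (C.const (6 * k ^ 2)) (ha 4))) hQi
    · exact C.mul (C.add (C.add (C.add (C.mul (C.const 4) (ha 1))
        (C.mul (C.const (12 * k)) (ha 2))) (C.mul (C.const (12 * k ^ 2)) (ha 3)))
        (C.mul (C.const (4 * k ^ 3)) (ha 4))) hQi)
  refine ⟨C', h1, C'.congr h2 fun s _ x => ?_⟩
  unfold rq
  congr 1
  funext j
  fin_cases j <;> rfl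

/-- The sum over all roots. -/
def RS (A : Fin 5 → MvPolynomial (Fin 2) ℂ) (k Y Z x y Y' Z' x' y' : ℂ) : CH (quintic A) :=
  ∑ j : Fin 4, ∑ j' : Fin 4,
    e (P (quintic A) (pv (av A Y Z) Y Z k (rq (av A Y Z) k j) x y))
      (P (quintic A) (pv (av A Y' Z') Y' Z' k (rq (av A Y' Z') k j') x' y'))

/-- The relation for families of pairs of points over moving lines. -/
theorem rootsum_rel (hA : Hyp A) (k : ℂ) (Y Z x y Y' Z' x' y' : ℂ → ι → ℂ)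
    (U₁ : Set ℂ) (hU₁ : U₁ᶜ.Finite) {s t : ℂ} (hs : s ∈ U₁) (ht : t ∈ U₁)
    (hcov : ∀ U ⊆ U₁, ∃ C : Cover U ι, C.mem Y ∧ C.mem Z ∧ C.mem x ∧ C.mem y ∧ C.mem Y' ∧
      C.mem Z' ∧ C.mem x' ∧ C.mem y')
    (h1 : ∀ s ∈ U₁, ∀ i, y s i ^ 2 = Z s i * (4 * x s i ^ 3 - Ja (av A (Y s i) (Z s i))))
    (h2 : ∀ s ∈ U₁, ∀ i, y' s i ^ 2 = Z' s i * (4 * x' s i ^ 3 - Ja (av A (Y' s i) (Z' s i))))
    (j1 : ∀ s ∈ U₁, ∀ i, Ja (av A (Y s i) (Z s i)) ≠ 0)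
    (j2 : ∀ s ∈ U₁, ∀ i, Ja (av A (Y' s i) (Z' s i)) ≠ 0)
    (l1 : ∀ s ∈ U₁, ∀ i, Qh (av A (Y s i) (Z s i)) 1 k ≠ 0)
    (l2 : ∀ s ∈ U₁, ∀ i, Qh (av A (Y' s i) (Z' s i)) 1 k ≠ 0) :
    ∑ i, RS A k (Y s i) (Z s i) (x s i) (y s i) (Y' s i) (Z' s i) (x' s i) (y' s i)
      = ∑ i, RS A k (Y t i) (Z t i) (x t i) (y t i) (Y' t i) (Z' t i) (x' t i) (y' t i) := by
  have key := cover_rel (F := quintic A) (quintic_hom hA.hom) (ι := (ι × Fin 4) × Fin 4)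
    (fun s i => pv (av A (Y s i.1.1) (Z s i.1.1)) (Y s i.1.1) (Z s i.1.1) k
      (rq (av A (Y s i.1.1) (Z s i.1.1)) k i.1.2) (x s i.1.1) (y s i.1.1))
    (fun s i => pv (av A (Y' s i.1.1) (Z' s i.1.1)) (Y' s i.1.1) (Z' s i.1.1) k
      (rq (av A (Y' s i.1.1) (Z' s i.1.1)) k i.2) (x' s i.1.1) (y' s i.1.1))
    U₁ hU₁ hs ht (by
      intro U hU
      obtain ⟨C, mY, mZ, mx, my, mY', mZ', mx', my'⟩ := hcov U hU
      obtain ⟨C1, o1, n1⟩ := C.exists_rq A k mY mZ fun s hs i => l1 s (hU hs) i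
      obtain ⟨C2, o2, n2⟩ := C1.exists_rq A k (o1 _ mY') (o1 _ mZ')
        fun s hs i => l2 s (hU hs) i.1
      refine ⟨C2, fun j => ?_, fun j => ?_⟩
      · exact C2.pv_mem (C2.av_mem A (o2 _ (o1 _ mY)) (o2 _ (o1 _ mZ))) (o2 _ (o1 _ mY))
          (o2 _ (o1 _ mZ)) (o2 _ n1) (o2 _ (o1 _ mx)) (o2 _ (o1 _ my)) k j
      · exact C2.pv_mem (C2.av_mem A (o2 _ (o1 _ mY')) (o2 _ (o1 _ mZ'))) (o2 _ (o1 _ mY'))
          (o2 _ (o1 _ mZ')) n2 (o2 _ (o1 _ mx')) (o2 _ (o1 _ my')) k j)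
    (by intro s hs i; exact pv_eq hA (rq_root (l1 s hs _) _) (h1 s hs _))
    (by intro s hs i; exact pv_eq hA (rq_root (l2 s hs _) _) (h2 s hs _))
    (by intro i; exact pv_ne hA (rq_root (l1 s hs _) _) (j1 s hs _))
    (by intro i; exact pv_ne hA (rq_root (l1 t ht _) _) (j1 t ht _))
    (by intro i; exact pv_ne hA (rq_root (l2 s hs _) _) (j2 s hs _))
    (by intro i; exact pv_ne hA (rq_root (l2 t ht _) _) (j2 t ht _))
  simp only [Fintype.sum_prod_type] at key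
  exact key

end Pool.Agent.Equi60
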