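import Pool.Agent.Equi60.T3Use

/-! Symmetry of the symbol. -/

noncomputable section

namespace Pool.Agent.Equi60

open Polynomial Pool.Agent.Voisin60

variable {A : Fin 5 → MvPolynomial (Fin 2) ℂ}

/-- Rational curves through a point of the threefold, with a second point as needed. -/
structure Curve3 (a b : Fin 9 → ℂ) (q0 q1 q2 X0 W0 : ℂ) where
  p0 : ℂ[X]
  p1 : ℂ[X]
  p2 : ℂ[X]
  x : ℂ[X]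
  w : ℂ[X]
  u0 : ℂ
  u1 : ℂ
  c0 : ℂ
  hc0 : c0 ≠ 0
  curve : w ^ 2 = p2 * (4 * x ^ 3 - J2p a b p0 p1 p2)
  e0 : p0.eval u0 = c0 * q0
  e1 : p1.eval u0 = c0 * q1
  e2 : p2.eval u0 = c0 * q2
  ex : x.eval u0 = c0 ^ 3 * X0
  ew : w.eval u0 = c0 ^ 5 * W0
  case : (∃ c1 : ℂ, c1 ≠ 0 ∧ p0.eval u1 = c1 * q0 ∧ p1.eval u1 = c1 * q1 ∧
      p2.eval u1 = c1 * q2 ∧ x.eval u1 = c1 ^ 3 * X0 ∧ w.eval u1 = -(c1 ^ 5 * W0)) ∨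
    (∃ m : ℂ[X], w = p2 * m ∧ m.eval u1 = 0 ∧
      J2 a b (p0.eval u1) (p1.eval u1) (p2.eval u1) ≠ 0)

/-- Rescaling. -/
def Curve3.rescale {a b : Fin 9 → ℂ} {q0 q1 q2 X0 W0 : ℂ} (c : Curve3 a b q0 q1 q2 X0 W0)
    {d : ℂ} (hd : d ≠ 0) : Curve3 a b (q0 / d) (q1 / d) (q2 / d) (X0 / d ^ 3) (W0 / d ^ 5) where
  p0 := c.p0
  p1 := c.p1
  p2 := c.p2
  x := c.x
  w := c.w
  u0 := c.u0
  u1 := c.u1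
  c0 := c.c0 * d
  hc0 := mul_ne_zero c.hc0 hd
  curve := c.curve
  e0 := by rw [c.e0]; field_simp
  e1 := by rw [c.e1]; field_simp
  e2 := by rw [c.e2]; field_simp
  ex := by rw [c.ex]; field_simp
  ew := by rw [c.ew]; field_simp
  case := by
    rcases c.case with ⟨c1, h, f0, f1, f2, fx, fw⟩ | h
    · left
      refine ⟨c1 * d, mul_ne_zero h hd, ?_, ?_, ?_, ?_, ?_⟩
      · rw [f0]; field_simp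
      · rw [f1]; field_simp
      · rw [f2]; field_simp
      · rw [fx]; field_simp
      · rw [fw]; field_simp
    · right; exact h

lemma exists_curve3 (hT : T_T3) {a b : Fin 9 → ℂ} (hab : ∀ i j, i ≠ j → a i * b j - a j * b i ≠ 0)
    {q0 q1 q2 x0 w0 : ℂ} (h2 : q2 ≠ 0) (hJ : J2 a b q0 q1 q2 ≠ 0) (hx : x0 ≠ 0) (hw : w0 ≠ 0)
    (h : w0 ^ 2 = q2 * (4 * x0 ^ 3 - J2 a b q0 q1 q2)) :
    Nonempty (Curve3 a b q0 q1 q2 x0 w0) := by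
  obtain ⟨p0, p1, p2, x, w, u0, u1, c0, hc0, g1, g2, g3, g4, g5, g6, g7⟩ :=
    hT a b hab q0 q1 q2 x0 w0 h2 hJ hx hw h
  exact ⟨⟨p0, p1, p2, x, w, u0, u1, c0, hc0, g1, g2, g3, g4, g5, g6, g7⟩⟩

/-- The second condition on the parameters `β, κ`. -/
def Curve3.Gen (A : Fin 5 → MvPolynomial (Fin 2) ℂ) {a b : Fin 9 → ℂ} {q0 q1 q2 X0 W0 : ℂ}
    (c : Curve3 a b q0 q1 q2 X0 W0) (β κ : ℂ) : Prop :=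
  (⟨c.p0, c.p1, c.p2, β⟩ : Crv).N c.u1 ≠ 0 ∧
    ∀ j, Qh (av A (1 - β * (⟨c.p0, c.p1, c.p2, β⟩ : Crv).th c.u1 j)
      ((⟨c.p0, c.p1, c.p2, β⟩ : Crv).th c.u1 j)) 1 κ ≠ 0 ∧
    Qh (av A (1 - β * (⟨c.p0, c.p1, c.p2, β⟩ : Crv).th' c.u1 j)
      ((⟨c.p0, c.p1, c.p2, β⟩ : Crv).th' c.u1 j)) 1 κ ≠ 0

/-- The relation `D`. -/
theorem D_rel (hR : T_R0) (hA : Hyp A) {a b : Fin 9 → ℂ}
    (hJ : ∀ Y Z, Ja (av A Y Z) = ∏ j, (b j * Y - a j * Z)) (f g : Fib A) (hk : g.k = f.k)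
    {β : ℂ} (hf : f.Y = 1 - β * f.Z) (hg : g.Y = 1 - β * g.Z)
    (l1 : Qh (av A f.Y f.Z) 1 f.k ≠ 0) (l2 : Qh (av A g.Y g.Z) 1 f.k ≠ 0) {ξ η ξ' η' : ℂ}
    (h1 : η ^ 2 = 4 * ξ ^ 3 - 1) (h2 : η' ^ 2 = 4 * ξ' ^ 3 - 1) (n1 : ξ ≠ 0) (n2 : ξ' ≠ 0)
    (c : Curve3 a b (f.Y * g.Y) (f.Y * g.Z + f.Z * g.Y) (f.Z * g.Z) (f.ρ * g.ρ * ξ')
      (f.σ * g.σ * η'))
    (hG : (∃ m : ℂ[X], c.w = c.p2 * m ∧ m.eval c.u1 = 0 ∧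
      J2 a b (c.p0.eval c.u1) (c.p1.eval c.u1) (c.p2.eval c.u1) ≠ 0) → c.Gen A β f.k) :
    (288 : ℕ) • (Sy f g ξ η ξ' η' + Sy g f ξ η ξ' η') = 0 := by
  have hcase : (∃ c1 : ℂ, c1 ≠ 0 ∧ c.p0.eval c.u1 = c1 * (f.Y * g.Y) ∧
        c.p1.eval c.u1 = c1 * (f.Y * g.Z + f.Z * g.Y) ∧ c.p2.eval c.u1 = c1 * (f.Z * g.Z) ∧
          c.x.eval c.u1 = c1 ^ 3 * (f.ρ * g.ρ * ξ') ∧
          c.w.eval c.u1 = -(c1 ^ 5 * (f.σ * g.σ * η'))) ∨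
        ((∃ m : ℂ[X], c.w = c.p2 * m ∧ m.eval c.u1 = 0 ∧
          J2 a b (c.p0.eval c.u1) (c.p1.eval c.u1) (c.p2.eval c.u1) ≠ 0) ∧ c.Gen A β f.k) := by
    rcases c.case with h | h
    · exact Or.inl h
    · exact Or.inr ⟨h, hG h⟩
  have t1 := T3_rel hA hJ f g (κ := f.k) hf hg l1 l2 h1 c.p0 c.p1 c.p2 c.x c.w c.u0 c.u1 c.c0
    c.hc0 c.curve c.e0 c.e1 c.e2 c.ex c.ew hcase
  have t2 := T3_rel hA hJ f g (κ := f.k) hf hg l1 l2 (η := -η) (by rw [neg_sq]; exact h1)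
    c.p0 c.p1 c.p2 c.x c.w c.u0 c.u1 c.c0
    c.hc0 c.curve c.e0 c.e1 c.e2 c.ex c.ew hcase
  have s1 := TA_eq hR hA f g hk hf hg l1 l2 h1 h2 n1 n2
  have s2 := TA_eq hR hA g f hk.symm hg hf (by rw [hk]; exact l2) (by rw [hk]; exact l1)
    h1 h2 n1 n2
  rw [hk, mul_comm g.ρ f.ρ, mul_comm g.σ f.σ] at s2
  have s3 : TA A f.k β ξ η (f.ρ * g.ρ * ξ') (f.σ * g.σ * η') f.Z g.Z
      + TA A f.k β ξ η (f.ρ * g.ρ * ξ') (f.σ * g.σ * η') g.Z f.Z = 0 := by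
    unfold TA
    rw [← sub_eq_zero] at t1 t2
    have : ∀ a1 a2 a3 a4 b1 b2 b3 b4 : CH (quintic A),
        a1 - a2 - a3 + a4 + (b1 - b2 - b3 + b4)
          = (a1 + b1 - (a3 + b3)) - (a2 + b2 - (a4 + b4)) := by
      intros; abel
    rw [this, t1, t2, sub_zero]
  rw [nsmul_add, ← s1, ← s2, ← nsmul_add, s3, nsmul_zero]

/-- Symmetry of the symbol. -/
theorem swap_rel (hR : T_R0) (hA : Hyp A) {a b : Fin 9 → ℂ}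
    (hJ : ∀ Y Z, Ja (av A Y Z) = ∏ j, (b j * Y - a j * Z)) (f g : Fib A) (hk : g.k = f.k)
    {β : ℂ} (hf : f.Y = 1 - β * f.Z) (hg : g.Y = 1 - β * g.Z)
    (l1 : Qh (av A f.Y f.Z) 1 f.k ≠ 0) (l2 : Qh (av A g.Y g.Z) 1 f.k ≠ 0) {ξ η ξ' η' : ℂ}
    (h1 : η ^ 2 = 4 * ξ ^ 3 - 1) (h2 : η' ^ 2 = 4 * ξ' ^ 3 - 1) (n1 : ξ ≠ 0) (n2 : ξ' ≠ 0)
    (c : Curve3 a b (f.Y * g.Y) (f.Y * g.Z + f.Z * g.Y) (f.Z * g.Z) (f.ρ * g.ρ * ξ)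
      (f.σ * g.σ * η))
    (hG : (∃ m : ℂ[X], c.w = c.p2 * m ∧ m.eval c.u1 = 0 ∧
      J2 a b (c.p0.eval c.u1) (c.p1.eval c.u1) (c.p2.eval c.u1) ≠ 0) → c.Gen A β f.k) :
    (288 : ℕ) • (Sy f g ξ η ξ' η' - Sy g f ξ' η' ξ η) = 0 := by
  have d := D_rel hR hA hJ f g hk hf hg l1 l2 h2 h1 n2 n1 c hG
  have e := E_rel hA f g h1 h2
  have : Sy f g ξ η ξ' η' - Sy g f ξ' η' ξ η
      = (Sy f g ξ η ξ' η' + Sy f g ξ' η' ξ η) - (Sy f g ξ' η' ξ η + Sy g f ξ' η' ξ η) := by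
    abel
  rw [this, e, zero_sub, neg_nsmul, d, neg_zero]

end Pool.Agent.Equi60
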