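import Pool.Agent.Equi60.RootSum

/-! The families over the rational curves of the threefold. -/

noncomputable section

namespace Pool.Agent.Equi60

open Polynomial Pool.Agent.Voisin60

lemma J2_scale (a b : Fin 9 → ℂ) (c p0 p1 p2 : ℂ) :
    J2 a b (c * p0) (c * p1) (c * p2) = c ^ 9 * J2 a b p0 p1 p2 := by
  unfold J2
  have : ∀ j, b j ^ 2 * (c * p0) - a j * b j * (c * p1) + a j ^ 2 * (c * p2)
      = c * (b j ^ 2 * p0 - a j * b j * p1 + a j ^ 2 * p2) := fun j => by ring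
  simp only [this, Finset.prod_mul_distrib, Finset.prod_const, Finset.card_univ, Fintype.card_fin]

lemma J2_pair (a b : Fin 9 → ℂ) (Y Z Y' Z' : ℂ) :
    J2 a b (Y * Y') (Y * Z' + Z * Y') (Z * Z')
      = (∏ j, (b j * Y - a j * Z)) * ∏ j, (b j * Y' - a j * Z') := by
  unfold J2
  rw [← Finset.prod_mul_distrib]
  refine Finset.prod_congr rfl fun j _ => ?_
  ring

lemma J2p_eval (a b : Fin 9 → ℂ) (p0 p1 p2 : ℂ[X]) (s : ℂ) :
    (J2p a b p0 p1 p2).eval s = J2 a b (p0.eval s) (p1.eval s) (p2.eval s) := by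
  unfold J2p J2
  rw [eval_prod]
  refine Finset.prod_congr rfl fun j _ => ?_
  simp

/-- Data of a curve in the space of pairs of lines. -/
structure Crv where
  p0 : ℂ[X]
  p1 : ℂ[X]
  p2 : ℂ[X]
  β : ℂ

namespace Crv

variable (c : Crv)

def Np : ℂ[X] := c.p0 + C c.β * c.p1 + C (c.β ^ 2) * c.p2

def N (s : ℂ) : ℂ := c.Np.eval s

lemma N_eq (s : ℂ) : c.N s = c.p0.eval s + c.β * c.p1.eval s + c.β ^ 2 * c.p2.eval s := by
  simp [N, Np]

def S (s : ℂ) : ℂ := (c.p1.eval s + 2 * c.β * c.p2.eval s) / c.N s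

def Q (s : ℂ) : ℂ := c.p2.eval s / c.N s

/-- The first member of the pair. -/
def th (s : ℂ) (j : Fin 2) : ℂ := rt ![c.Q s, -c.S s] j

/-- The second member of the pair. -/
def th' (s : ℂ) (j : Fin 2) : ℂ := c.S s - c.th s j

lemma th_mul (s : ℂ) (j : Fin 2) : c.th s j * c.th' s j = c.Q s := by
  have h := rt2_root (-c.S s) (c.Q s) j
  unfold th'
  unfold th
  linear_combination -h

lemma prod0 {s : ℂ} (h : c.N s ≠ 0) (j : Fin 2) :
    (1 - c.β * c.th s j) * (1 - c.β * c.th' s j) = c.p0.eval s / c.N s := by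
  have h1 := c.th_mul s j
  have h2 : c.th s j + c.th' s j = c.S s := by unfold th'; ring
  have e : (1 - c.β * c.th s j) * (1 - c.β * c.th' s j)
      = 1 - c.β * c.S s + c.β ^ 2 * c.Q s := by
    rw [← h1, ← h2]; ring
  rw [e, S, Q]
  field_simp
  rw [c.N_eq]
  ring

lemma prod1 {s : ℂ} (h : c.N s ≠ 0) (j : Fin 2) :
    (1 - c.β * c.th s j) * c.th' s j + c.th s j * (1 - c.β * c.th' s j)
      = c.p1.eval s / c.N s := by
  have h1 := c.th_mul s j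
  have h2 : c.th s j + c.th' s j = c.S s := by unfold th'; ring
  have e : (1 - c.β * c.th s j) * c.th' s j + c.th s j * (1 - c.β * c.th' s j)
      = c.S s - 2 * c.β * c.Q s := by
    rw [← h1, ← h2]; ring
  rw [e, S, Q]
  field_simp
  ring

lemma prod2 (s : ℂ) (j : Fin 2) : c.th s j * c.th' s j = c.p2.eval s / c.N s := c.th_mul s j

variable {A : Fin 5 → MvPolynomial (Fin 2) ℂ}

/-- The value of `J` at the normalised point `(1 - β θ, θ)`. -/
def J (A : Fin 5 → MvPolynomial (Fin 2) ℂ) (θ : ℂ) : ℂ := Ja (av A (1 - c.β * θ) θ)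

lemma J_mul {a b : Fin 9 → ℂ} (hJ : ∀ Y Z, Ja (av A Y Z) = ∏ j, (b j * Y - a j * Z))
    {s : ℂ} (h : c.N s ≠ 0) (j : Fin 2) :
    c.J A (c.th s j) * c.J A (c.th' s j)
      = J2 a b (c.p0.eval s) (c.p1.eval s) (c.p2.eval s) / c.N s ^ 9 := by
  unfold J
  rw [hJ, hJ, ← J2_pair, c.prod0 h j, c.prod1 h j, c.prod2 s j]
  have e : ∀ x : ℂ, x / c.N s = (c.N s)⁻¹ * x := fun x => by rw [div_eq_inv_mul]
  rw [e, e, e, J2_scale, inv_pow, ← div_eq_inv_mul]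

/-- The cube roots of `J`. -/
def rho (A : Fin 5 → MvPolynomial (Fin 2) ℂ) (s : ℂ) (j : Fin 2) (k : Fin 3) : ℂ :=
  rt ![-(c.J A (c.th s j)), 0, 0] k

/-- The square roots of `Z J`. -/
def sg (A : Fin 5 → MvPolynomial (Fin 2) ℂ) (s : ℂ) (j : Fin 2) (l : Fin 2) : ℂ :=
  rt ![-(c.th s j * c.J A (c.th s j)), 0] l

lemma rho_cube (s : ℂ) (j : Fin 2) (k : Fin 3) : c.rho A s j k ^ 3 = c.J A (c.th s j) :=
  rt3_root _ k

lemma sg_sq (s : ℂ) (j : Fin 2) (l : Fin 2) :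
    c.sg A s j l ^ 2 = c.th s j * c.J A (c.th s j) := by
  have h := rt2_root 0 (-(c.th s j * c.J A (c.th s j))) l
  unfold sg
  linear_combination h

/-- The sheets. -/
abbrev Sh : Type := ((Unit × Fin 2) × Fin 3) × Fin 2

/-- The conditions on the parameter. -/
def Ok (A : Fin 5 → MvPolynomial (Fin 2) ℂ) (a b : Fin 9 → ℂ) (E : ℂ[X]) (κ s : ℂ) : Prop :=
  (c.N s ≠ 0 ∧ J2 a b (c.p0.eval s) (c.p1.eval s) (c.p2.eval s) ≠ 0 ∧ E.eval s ≠ 0) ∧
    ∀ j, Qh (av A (1 - c.β * c.th s j) (c.th s j)) 1 κ ≠ 0 ∧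
      Qh (av A (1 - c.β * c.th' s j) (c.th' s j)) 1 κ ≠ 0

/-- The functions of the tower. -/
lemma tower (A : Fin 5 → MvPolynomial (Fin 2) ℂ) (U : Set ℂ) (hU : ∀ s ∈ U, c.N s ≠ 0) :
    ∃ C' : Cover U Sh, C'.mem (fun s i => c.th s i.1.1.2) ∧ C'.mem (fun s i => c.th' s i.1.1.2) ∧
      C'.mem (fun s i => c.J A (c.th s i.1.1.2)) ∧ C'.mem (fun s i => c.J A (c.th' s i.1.1.2)) ∧
      C'.mem (fun s i => c.rho A s i.1.1.2 i.1.2) ∧ C'.mem (fun s i => c.sg A s i.1.1.2 i.2) := by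
  have rN : RegF U (fun s => (c.N s)⁻¹) := (RegF.poly c.Np).inv hU
  have rS : RegF U c.S := by
    refine ((RegF.poly (c.p1 + C (2 * c.β) * c.p2)).mul rN).congr fun s _ => ?_
    simp [S, div_eq_mul_inv]
  have rQ : RegF U c.Q := ((RegF.poly c.p2).mul rN).congr fun s _ => by
    simp [Q, div_eq_mul_inv]
  obtain ⟨C1, o1, n1⟩ := (Cover.triv U).root2 (b := fun s _ => -c.S s) (c := fun s _ => c.Q s)
    rS.neg rQ
  have m1 : C1.mem (fun s i => c.th s i.2) := n1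
  have m1' : C1.mem (fun s i => c.th' s i.2) := C1.sub (C1.base _ rS) m1
  have mJ : ∀ {φ : ℂ → Unit × Fin 2 → ℂ}, C1.mem φ → C1.mem (fun s i => c.J A (φ s i)) := by
    intro φ hφ
    exact C1.Ja_mem (C1.av_mem A (C1.sub (C1.const 1) (C1.mul (C1.const c.β) hφ)) hφ)
  have j1 := mJ m1
  have j1' := mJ m1'
  obtain ⟨C2, o2, n2⟩ := C1.root3 (c := fun s i => c.J A (c.th s i.2)) j1
  obtain ⟨C3, o3, n3⟩ := C2.root2 (b := fun _ _ => 0)
    (c := fun s i => -(c.th s i.1.2 * c.J A (c.th s i.1.2))) (C2.const 0)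
    (C2.neg (C2.mul (o2 _ m1) (o2 _ j1)))
  exact ⟨C3, o3 _ (o2 _ m1), o3 _ (o2 _ m1'), o3 _ (o2 _ j1), o3 _ (o2 _ j1'), o3 _ n2, n3⟩

lemma cofinite {a b : Fin 9 → ℂ} {E : ℂ[X]} {κ s₀ : ℂ} (h : c.Ok A a b E κ s₀) :
    {s | c.Ok A a b E κ s}ᶜ.Finite := by
  classical
  obtain ⟨⟨h1, h2, h3⟩, h4⟩ := h
  have hN : c.Np ≠ 0 := by
    intro h0; apply h1; rw [N, h0]; simp
  have hJ : J2p a b c.p0 c.p1 c.p2 ≠ 0 := by
    intro h0; apply h2; rw [← J2p_eval, h0]; simp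
  have hE : E ≠ 0 := by
    intro h0; apply h3; rw [h0]; simp
  set U₀ : Set ℂ := {s | c.N s ≠ 0} with hU₀
  obtain ⟨C1, mt, mt', -, -, -, -⟩ := c.tower A U₀ (fun s hs => hs)
  have q1 : C1.mem (fun s i => Qh (av A (1 - c.β * c.th s i.1.1.2) (c.th s i.1.1.2)) 1 κ) :=
    C1.Qh_mem (C1.av_mem A (C1.sub (C1.const 1) (C1.mul (C1.const c.β) mt)) mt)
      (C1.const 1) (C1.const κ)
  have q2 : C1.mem (fun s i => Qh (av A (1 - c.β * c.th' s i.1.1.2) (c.th' s i.1.1.2)) 1 κ) :=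
    C1.Qh_mem (C1.av_mem A (C1.sub (C1.const 1) (C1.mul (C1.const c.β) mt')) mt')
      (C1.const 1) (C1.const κ)
  have f1 := C1.finite_zero q1 (s₀ := s₀) h1 (fun i => (h4 i.1.1.2).1)
  have f2 := C1.finite_zero q2 (s₀ := s₀) h1 (fun i => (h4 i.1.1.2).2)
  have f3 : {s | c.N s = 0}.Finite := by
    refine (c.Np.roots.toFinset.finite_toSet).subset fun s hs => ?_
    simp only [Finset.mem_coe, Multiset.mem_toFinset, mem_roots hN, IsRoot.def]
    exact hs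
  have f4 : {s | J2 a b (c.p0.eval s) (c.p1.eval s) (c.p2.eval s) = 0}.Finite := by
    refine ((J2p a b c.p0 c.p1 c.p2).roots.toFinset.finite_toSet).subset fun s hs => ?_
    simp only [Finset.mem_coe, Multiset.mem_toFinset, mem_roots hJ, IsRoot.def]
    rw [J2p_eval]
    exact hs
  have f5 : {s | E.eval s = 0}.Finite := by
    refine (E.roots.toFinset.finite_toSet).subset fun s hs => ?_
    simp only [Finset.mem_coe, Multiset.mem_toFinset, mem_roots hE, IsRoot.def]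
    exact hs
  refine ((((f1.union f2).union f3).union f4).union f5).subset ?_
  intro s hs
  by_contra hcon
  simp only [Set.mem_union, not_or] at hcon
  obtain ⟨⟨⟨⟨g1, g2⟩, g3⟩, g4⟩, g5⟩ := hcon
  apply hs
  refine ⟨⟨g3, g4, g5⟩, fun j => ⟨?_, ?_⟩⟩
  · intro h0
    exact g1 ⟨g3, ((((), j), 0), 0), h0⟩
  · intro h0
    exact g2 ⟨g3, ((((), j), 0), 0), h0⟩

/-- The family over a curve. -/
theorem fam (hA : Hyp A) {a b : Fin 9 → ℂ}
    (hJ : ∀ Y Z, Ja (av A Y Z) = ∏ j, (b j * Y - a j * Z)) {ξ η : ℂ}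
    (hE : η ^ 2 = 4 * ξ ^ 3 - 1) (x E : ℂ[X]) (κ : ℂ) (y2 : ℂ → Sh → ℂ)
    (hmem : ∀ (U : Set ℂ) (C' : Cover U Sh), (∀ s ∈ U, c.N s ≠ 0 ∧
        J2 a b (c.p0.eval s) (c.p1.eval s) (c.p2.eval s) ≠ 0 ∧ E.eval s ≠ 0) →
      C'.mem (fun s i => c.th s i.1.1.2) → C'.mem (fun s i => c.th' s i.1.1.2) →
      C'.mem (fun s i => c.J A (c.th s i.1.1.2)) →
      C'.mem (fun s i => c.rho A s i.1.1.2 i.1.2) → C'.mem (fun s i => c.sg A s i.1.1.2 i.2) →
      C'.mem y2)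
    (heq : ∀ s, (c.N s ≠ 0 ∧
        J2 a b (c.p0.eval s) (c.p1.eval s) (c.p2.eval s) ≠ 0 ∧ E.eval s ≠ 0) → ∀ i : Sh,
      y2 s i ^ 2 = c.th' s i.1.1.2 *
        (4 * (x.eval s / c.N s ^ 3 / c.rho A s i.1.1.2 i.1.2) ^ 3 - c.J A (c.th' s i.1.1.2)))
    {s t : ℂ} (hs : c.Ok A a b E κ s) (ht : c.Ok A a b E κ t) :
    ∑ i : Sh, RS A κ (1 - c.β * c.th s i.1.1.2) (c.th s i.1.1.2)
        (c.rho A s i.1.1.2 i.1.2 * ξ) (c.sg A s i.1.1.2 i.2 * η)
        (1 - c.β * c.th' s i.1.1.2) (c.th' s i.1.1.2)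
        (x.eval s / c.N s ^ 3 / c.rho A s i.1.1.2 i.1.2) (y2 s i)
      = ∑ i : Sh, RS A κ (1 - c.β * c.th t i.1.1.2) (c.th t i.1.1.2)
        (c.rho A t i.1.1.2 i.1.2 * ξ) (c.sg A t i.1.1.2 i.2 * η)
        (1 - c.β * c.th' t i.1.1.2) (c.th' t i.1.1.2)
        (x.eval t / c.N t ^ 3 / c.rho A t i.1.1.2 i.1.2) (y2 t i) := by
  have jne : ∀ s, c.Ok A a b E κ s → ∀ j, c.J A (c.th s j) ≠ 0 ∧ c.J A (c.th' s j) ≠ 0 := by
    intro s hs j
    have h := c.J_mul hJ hs.1.1 j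
    have : c.J A (c.th s j) * c.J A (c.th' s j) ≠ 0 := by
      rw [h]
      exact div_ne_zero hs.1.2.1 (pow_ne_zero _ hs.1.1)
    exact ⟨left_ne_zero_of_mul this, right_ne_zero_of_mul this⟩
  have rne : ∀ s, c.Ok A a b E κ s → ∀ j k, c.rho A s j k ≠ 0 := by
    intro s hs j k h0
    have := c.rho_cube (A := A) s j k
    rw [h0] at this
    exact (jne s hs j).1 (by rw [← this]; norm_num)
  have key := rootsum_rel hA κ (ι := Sh) (fun s i => 1 - c.β * c.th s i.1.1.2)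
    (fun s i => c.th s i.1.1.2)
    (fun s i => c.rho A s i.1.1.2 i.1.2 * ξ) (fun s i => c.sg A s i.1.1.2 i.2 * η)
    (fun s i => 1 - c.β * c.th' s i.1.1.2) (fun s i => c.th' s i.1.1.2)
    (fun s i => x.eval s / c.N s ^ 3 / c.rho A s i.1.1.2 i.1.2) y2
    {s | c.Ok A a b E κ s} (c.cofinite hs) (s := s) (t := t) hs ht ?_ ?_ ?_ ?_ ?_ ?_ ?_
  · exact key
  · intro U hU
    obtain ⟨C', mt, mt', mJ, mJ', mr, ms⟩ := c.tower A U (fun s hs => (hU hs).1.1)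
    have rN : RegF U (fun s => (c.N s)⁻¹) := (RegF.poly c.Np).inv fun s hs => (hU hs).1.1
    have mri := C'.inv mr fun s hs i => rne s (hU hs) _ _
    refine ⟨C', C'.sub (C'.const 1) (C'.mul (C'.const _) mt), mt, C'.mul mr (C'.const _),
      C'.mul ms (C'.const _), C'.sub (C'.const 1) (C'.mul (C'.const _) mt'), mt', ?_,
      hmem U C' (fun s hs => (hU hs).1) mt mt' mJ mr ms⟩
    have mx : C'.mem (fun s _ => x.eval s / c.N s ^ 3) := C'.base _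
      (((RegF.poly x).mul (rN.pow 3)).congr fun s _ => by
        rw [div_eq_mul_inv, inv_pow])
    exact C'.mul mx mri
  · intro s hs i
    rw [mul_pow, mul_pow, c.sg_sq, c.rho_cube, hE]
    unfold J
    ring
  · intro s hs i
    exact heq s hs.1 i
  · intro s hs i
    exact (jne s hs _).1
  · intro s hs i
    exact (jne s hs _).2
  · intro s hs i
    exact (hs.2 _).1
  · intro s hs i
    exact (hs.2 _).2

end Crv

end Pool.Agent.Equi60
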