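import Pool.Agent.Equi60.DCore

/-! Using the rational curves on the threefold. -/

noncomputable section

namespace Pool.Agent.Equi60

open Polynomial Pool.Agent.Voisin60

variable {A : Fin 5 → MvPolynomial (Fin 2) ℂ}

namespace Crv

variable (c : Crv)

/-- The sum over the sheets, when the second `y` is `w / σ`. -/
lemma sum_TT (A : Fin 5 → MvPolynomial (Fin 2) ℂ) (κ ξ η X W s : ℂ) :
    ∑ i : Sh, RS A κ (1 - c.β * c.th s i.1.1.2) (c.th s i.1.1.2)
        (c.rho A s i.1.1.2 i.1.2 * ξ) (c.sg A s i.1.1.2 i.2 * η)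
        (1 - c.β * c.th' s i.1.1.2) (c.th' s i.1.1.2)
        (X / c.rho A s i.1.1.2 i.1.2) (W / c.sg A s i.1.1.2 i.2)
      = ∑ j : Fin 2, TT A κ c.β ξ η X W (c.th s j) (c.th' s j) := by
  simp only [Fintype.sum_prod_type, Finset.univ_unique, Finset.sum_singleton]
  rfl

lemma sum_pair {s z z' : ℂ} (hS : c.S s = z + z') (hQ : c.Q s = z * z')
    {M : Type*} [AddCommMonoid M] (G : ℂ → ℂ → M) :
    ∑ j : Fin 2, G (c.th s j) (c.th' s j) = G z z' + G z' z := by
  have h := rt_sum2 (b := -c.S s) (c := c.Q s) (α := z) (β := z') (by rw [hS]; ring)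
    (by rw [hQ]) (fun t => G t (c.S s - t))
  rw [hS] at h
  have e1 : z + z' - z = z' := by ring
  have e2 : z + z' - z' = z := by ring
  rw [e1, e2] at h
  rw [← h]
  unfold th' th
  rw [hS]

lemma th_cases {s z z' : ℂ} (hS : c.S s = z + z') (hQ : c.Q s = z * z') (j : Fin 2) :
    (c.th s j = z ∧ c.th' s j = z') ∨ (c.th s j = z' ∧ c.th' s j = z) := by
  have h := rt2_root (-c.S s) (c.Q s) j
  have h2 : (c.th s j - z) * (c.th s j - z') = 0 := by
    unfold th
    linear_combination h + rt ![c.Q s, -c.S s] j * hS - hQ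
  have h3 : c.th s j + c.th' s j = z + z' := by rw [← hS]; unfold th'; ring
  rcases mul_eq_zero.mp h2 with h4 | h4
  · left
    have h5 : c.th s j = z := sub_eq_zero.mp h4
    refine ⟨h5, ?_⟩
    rw [h5] at h3
    exact add_left_cancel h3
  · right
    have h5 : c.th s j = z' := sub_eq_zero.mp h4
    refine ⟨h5, ?_⟩
    rw [h5] at h3
    linear_combination h3

end Crv

lemma Crv.S_congr (c : Crv) {s t r : ℂ} (hr : r ≠ 0) (h0 : c.p0.eval t = r * c.p0.eval s)
    (h1 : c.p1.eval t = r * c.p1.eval s) (h2 : c.p2.eval t = r * c.p2.eval s) :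
    c.N t = r * c.N s ∧ c.S t = c.S s ∧ c.Q t = c.Q s := by
  have hN : c.N t = r * c.N s := by
    rw [c.N_eq, c.N_eq, h0, h1, h2]; ring
  refine ⟨hN, ?_, ?_⟩
  · unfold Crv.S
    rw [hN, h1, h2]
    have : r * c.p1.eval s + 2 * c.β * (r * c.p2.eval s)
        = r * (c.p1.eval s + 2 * c.β * c.p2.eval s) := by ring
    rw [this, mul_div_mul_left _ _ hr]
  · unfold Crv.Q
    rw [hN, h2, mul_div_mul_left _ _ hr]

/-- The relation between the two signs of `W`. -/
theorem T3_rel (hA : Hyp A) {a b : Fin 9 → ℂ}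
    (hJ : ∀ Y Z, Ja (av A Y Z) = ∏ j, (b j * Y - a j * Z)) (f g : Fib A) {β κ : ℂ}
    (hf : f.Y = 1 - β * f.Z) (hg : g.Y = 1 - β * g.Z)
    (l1 : Qh (av A f.Y f.Z) 1 κ ≠ 0) (l2 : Qh (av A g.Y g.Z) 1 κ ≠ 0) {ξ η X0 W0 : ℂ}
    (h1 : η ^ 2 = 4 * ξ ^ 3 - 1) (p0 p1 p2 x w : ℂ[X]) (u0 u1 c0 : ℂ) (hc0 : c0 ≠ 0)
    (hcurve : w ^ 2 = p2 * (4 * x ^ 3 - J2p a b p0 p1 p2))
    (e0 : p0.eval u0 = c0 * (f.Y * g.Y)) (e1 : p1.eval u0 = c0 * (f.Y * g.Z + f.Z * g.Y))
    (e2 : p2.eval u0 = c0 * (f.Z * g.Z)) (ex : x.eval u0 = c0 ^ 3 * X0)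
    (ew : w.eval u0 = c0 ^ 5 * W0)
    (hcase : (∃ c1 : ℂ, c1 ≠ 0 ∧ p0.eval u1 = c1 * (f.Y * g.Y) ∧
        p1.eval u1 = c1 * (f.Y * g.Z + f.Z * g.Y) ∧ p2.eval u1 = c1 * (f.Z * g.Z) ∧
          x.eval u1 = c1 ^ 3 * X0 ∧ w.eval u1 = -(c1 ^ 5 * W0)) ∨
        ((∃ m : ℂ[X], w = p2 * m ∧ m.eval u1 = 0 ∧
          J2 a b (p0.eval u1) (p1.eval u1) (p2.eval u1) ≠ 0) ∧
          (⟨p0, p1, p2, β⟩ : Crv).N u1 ≠ 0 ∧
          ∀ j, Qh (av A (1 - β * (⟨p0, p1, p2, β⟩ : Crv).th u1 j)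
              ((⟨p0, p1, p2, β⟩ : Crv).th u1 j)) 1 κ ≠ 0 ∧
            Qh (av A (1 - β * (⟨p0, p1, p2, β⟩ : Crv).th' u1 j)
              ((⟨p0, p1, p2, β⟩ : Crv).th' u1 j)) 1 κ ≠ 0)) :
    TT A κ β ξ η X0 W0 f.Z g.Z + TT A κ β ξ η X0 W0 g.Z f.Z
      = TT A κ β ξ η X0 (-W0) f.Z g.Z + TT A κ β ξ η X0 (-W0) g.Z f.Z := by
  set c : Crv := ⟨p0, p1, p2, β⟩ with hc
  have hN0 : c.N u0 = c0 := by
    rw [c.N_eq]
    simp only [hc]
    rw [e0, e1, e2, hf, hg]
    ring
  have hS0 : c.S u0 = f.Z + g.Z := by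
    unfold Crv.S
    rw [hN0]
    simp only [hc]
    rw [e1, e2, hf, hg]
    field_simp
    ring
  have hQ0 : c.Q u0 = f.Z * g.Z := by
    unfold Crv.Q
    rw [hN0]
    simp only [hc]
    rw [e2]
    field_simp
  have hJ0 : J2 a b (p0.eval u0) (p1.eval u0) (p2.eval u0) ≠ 0 := by
    rw [e0, e1, e2, J2_scale, J2_pair, ← hJ, ← hJ]
    exact mul_ne_zero (pow_ne_zero _ hc0) (mul_ne_zero f.hJ g.hJ)
  have hlead : ∀ j, Qh (av A (1 - c.β * c.th u0 j) (c.th u0 j)) 1 κ ≠ 0 ∧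
      Qh (av A (1 - c.β * c.th' u0 j) (c.th' u0 j)) 1 κ ≠ 0 := by
    intro j
    rcases c.th_cases hS0 hQ0 j with ⟨t1, t2⟩ | ⟨t1, t2⟩
    · rw [t1, t2]
      simp only [hc]
      rw [← hf, ← hg]
      exact ⟨l1, l2⟩
    · rw [t1, t2]
      simp only [hc]
      rw [← hf, ← hg]
      exact ⟨l2, l1⟩
  have hx0 : x.eval u0 / c.N u0 ^ 3 = X0 := by
    rw [hN0, ex]; field_simp
  have hw0 : w.eval u0 / c.N u0 ^ 5 = W0 := by
    rw [hN0, ew]; field_simp
  rcases hcase with ⟨c1, hc1, f0, f1, f2, fx, fw⟩ | ⟨⟨m, hm, hm1, hJ1⟩, hN1, hlead1⟩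
  · -- conic
    have hr : c1 / c0 ≠ 0 := div_ne_zero hc1 hc0
    obtain ⟨hN1, hS1, hQ1⟩ := c.S_congr (s := u0) (t := u1) (r := c1 / c0) hr
      (by simp only [hc]; rw [f0, e0]; field_simp)
      (by simp only [hc]; rw [f1, e1]; field_simp)
      (by simp only [hc]; rw [f2, e2]; field_simp)
    have hN1' : c.N u1 = c1 := by rw [hN1, hN0]; field_simp
    have hth : ∀ j, c.th u1 j = c.th u0 j ∧ c.th' u1 j = c.th' u0 j := by
      intro j
      unfold Crv.th' Crv.th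
      rw [hS1, hQ1]
      exact ⟨rfl, rfl⟩
    have ok0 : c.Ok A a b p2 κ u0 := by
      refine ⟨⟨by rw [hN0]; exact hc0, hJ0, ?_⟩, hlead⟩
      rw [e2]
      exact mul_ne_zero hc0 (mul_ne_zero f.hZ g.hZ)
    have ok1 : c.Ok A a b p2 κ u1 := by
      refine ⟨⟨by rw [hN1']; exact hc1, ?_, ?_⟩, ?_⟩
      · simp only [hc]
        rw [f0, f1, f2, J2_scale, J2_pair, ← hJ, ← hJ]
        exact mul_ne_zero (pow_ne_zero _ hc1) (mul_ne_zero f.hJ g.hJ)
      · rw [f2]
        exact mul_ne_zero hc1 (mul_ne_zero f.hZ g.hZ)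
      · intro j
        rw [(hth j).1, (hth j).2]
        exact hlead j
    have key := c.fam hA hJ h1 x p2 κ
      (fun s i => w.eval s / c.N s ^ 5 / c.sg A s i.1.1.2 i.2) (by
        intro U C' hU mt mt' mJ mr ms
        have rN : RegF U (fun s => (c.N s)⁻¹) := (RegF.poly c.Np).inv fun s hs => (hU s hs).1
        have mw : C'.mem (fun s _ => w.eval s / c.N s ^ 5) := C'.base _
          (((RegF.poly w).mul (rN.pow 5)).congr fun s _ => by
            rw [div_eq_mul_inv, inv_pow])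
        refine C'.mul mw (C'.inv ms fun s hs i h0 => ?_)
        have h2 := c.sg_sq (A := A) s i.1.1.2 i.2
        rw [h0] at h2
        have h3 : c.th s i.1.1.2 * c.J A (c.th s i.1.1.2) = 0 := by rw [← h2]; norm_num
        rcases mul_eq_zero.mp h3 with h4 | h4
        · have h5 := c.prod2 s i.1.1.2
          rw [h4, zero_mul] at h5
          exact div_ne_zero (hU s hs).2.2 (hU s hs).1 h5.symm
        · have h5 := c.J_mul hJ (hU s hs).1 i.1.1.2
          rw [h4, zero_mul] at h5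
          exact div_ne_zero (hU s hs).2.1 (pow_ne_zero _ (hU s hs).1) h5.symm)
      (by
        intro s hs i
        have hr3 := c.rho_cube (A := A) s i.1.1.2 i.1.2
        have hs2 := c.sg_sq (A := A) s i.1.1.2 i.2
        have hJm := c.J_mul hJ hs.1 i.1.1.2
        have hp2 := c.prod2 s i.1.1.2
        have hcv := congrArg (Polynomial.eval s) hcurve
        simp only [eval_pow, eval_mul, eval_sub, eval_ofNat, J2p_eval] at hcv
        have hne : c.J A (c.th s i.1.1.2) * c.J A (c.th' s i.1.1.2) ≠ 0 := by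
          rw [hJm]; exact div_ne_zero hs.2.1 (pow_ne_zero _ hs.1)
        have hJ1 : c.J A (c.th s i.1.1.2) ≠ 0 := left_ne_zero_of_mul hne
        have hth0 : c.th s i.1.1.2 * c.th' s i.1.1.2 ≠ 0 := by
          rw [hp2]; exact div_ne_zero hs.2.2 hs.1
        have ht0 : c.th s i.1.1.2 ≠ 0 := left_ne_zero_of_mul hth0
        have hN := hs.1
        have hJ2v : J2 a b (p0.eval s) (p1.eval s) (p2.eval s)
            = c.J A (c.th s i.1.1.2) * c.J A (c.th' s i.1.1.2) * c.N s ^ 9 := by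
          rw [hJm, div_mul_cancel₀ _ (pow_ne_zero _ hN)]
        have hp2v : p2.eval s = c.th s i.1.1.2 * c.th' s i.1.1.2 * c.N s := by
          rw [hp2, div_mul_cancel₀ _ hN]
        simp only [div_pow, hr3, hs2]
        rw [hcv, hJ2v, hp2v]
        field_simp)
      ok0 ok1
    rw [c.sum_TT A κ ξ η _ _ u0, c.sum_TT A κ ξ η _ _ u1] at key
    have hx1 : x.eval u1 / c.N u1 ^ 3 = X0 := by
      rw [hN1', fx]; field_simp
    have hw1 : w.eval u1 / c.N u1 ^ 5 = -W0 := by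
      rw [hN1', fw]; field_simp
    rw [hx0, hw0, hx1, hw1, c.sum_pair hS0 hQ0 (fun z z' => TT A κ c.β ξ η X0 W0 z z'),
      c.sum_pair (hS1.trans hS0) (hQ1.trans hQ0) (fun z z' => TT A κ c.β ξ η X0 (-W0) z z')] at key
    exact key
  · -- section
    have hp2 : p2 ≠ 0 := by
      intro h
      rw [h, eval_zero] at e2
      exact mul_ne_zero hc0 (mul_ne_zero f.hZ g.hZ) e2.symm
    have hcurve' : p2 * m ^ 2 = 4 * x ^ 3 - J2p a b p0 p1 p2 := by
      have : p2 * (p2 * m ^ 2) = p2 * (4 * x ^ 3 - J2p a b p0 p1 p2) := by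
        rw [← hcurve, hm]; ring
      exact mul_left_cancel₀ hp2 this
    have ok0 : c.Ok A a b 1 κ u0 :=
      ⟨⟨by rw [hN0]; exact hc0, hJ0, by simp⟩, hlead⟩
    have ok1 : c.Ok A a b 1 κ u1 := ⟨⟨hN1, hJ1, by simp⟩, hlead1⟩
    have main : ∀ ε : ℂ, ε ^ 2 = 1 →
        TT A κ β ξ η X0 (ε * W0) f.Z g.Z + TT A κ β ξ η X0 (ε * W0) g.Z f.Z
        = ∑ i : Crv.Sh, RS A κ (1 - c.β * c.th u1 i.1.1.2) (c.th u1 i.1.1.2)
          (c.rho A u1 i.1.1.2 i.1.2 * ξ) (c.sg A u1 i.1.1.2 i.2 * η)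
          (1 - c.β * c.th' u1 i.1.1.2) (c.th' u1 i.1.1.2)
          (x.eval u1 / c.N u1 ^ 3 / c.rho A u1 i.1.1.2 i.1.2) 0 := by
      intro ε hε
      have key := c.fam hA hJ h1 x 1 κ
        (fun s i => ε * (m.eval s / c.N s ^ 4) * c.th' s i.1.1.2 * c.sg A s i.1.1.2 i.2
          * (c.J A (c.th s i.1.1.2))⁻¹) (by
          intro U C' hU mt mt' mJ mr ms
          have rN : RegF U (fun s => (c.N s)⁻¹) := (RegF.poly c.Np).inv fun s hs => (hU s hs).1
          have mm : C'.mem (fun s _ => ε * (m.eval s / c.N s ^ 4)) := C'.base _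
            (((RegF.const ε).mul ((RegF.poly m).mul (rN.pow 4))).congr fun s _ => by
              rw [div_eq_mul_inv, inv_pow])
          refine C'.mul (C'.mul (C'.mul mm mt') ms) (C'.inv mJ fun s hs i h4 => ?_)
          have h5 := c.J_mul hJ (hU s hs).1 i.1.1.2
          rw [h4, zero_mul] at h5
          exact div_ne_zero (hU s hs).2.1 (pow_ne_zero _ (hU s hs).1) h5.symm)
        (by
          intro s hs i
          have hr3 := c.rho_cube (A := A) s i.1.1.2 i.1.2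
          have hs2 := c.sg_sq (A := A) s i.1.1.2 i.2
          have hJm := c.J_mul hJ hs.1 i.1.1.2
          have hp2 := c.prod2 s i.1.1.2
          have hcv := congrArg (Polynomial.eval s) hcurve'
          simp only [eval_pow, eval_mul, eval_sub, eval_ofNat, J2p_eval] at hcv
          have hne : c.J A (c.th s i.1.1.2) * c.J A (c.th' s i.1.1.2) ≠ 0 := by
            rw [hJm]; exact div_ne_zero hs.2.1 (pow_ne_zero _ hs.1)
          have hJ1 : c.J A (c.th s i.1.1.2) ≠ 0 := left_ne_zero_of_mul hne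
          have hN := hs.1
          have hJ2v : J2 a b (p0.eval s) (p1.eval s) (p2.eval s)
              = c.J A (c.th s i.1.1.2) * c.J A (c.th' s i.1.1.2) * c.N s ^ 9 := by
            rw [hJm, div_mul_cancel₀ _ (pow_ne_zero _ hN)]
          have hp2v : p2.eval s = c.th s i.1.1.2 * c.th' s i.1.1.2 * c.N s := by
            rw [hp2, div_mul_cancel₀ _ hN]
          rw [hJ2v, hp2v] at hcv
          simp only [mul_pow, div_pow, hr3, hs2, hε, inv_pow]
          field_simp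
          linear_combination (c.th' s i.1.1.2) * hcv)
        ok0 ok1
      have z1 : ∀ i : Crv.Sh, ε * (m.eval u1 / c.N u1 ^ 4) * c.th' u1 i.1.1.2
          * c.sg A u1 i.1.1.2 i.2 * (c.J A (c.th u1 i.1.1.2))⁻¹ = 0 := by
        intro i; rw [hm1]; ring
      have z0 : ∀ i : Crv.Sh, ε * (m.eval u0 / c.N u0 ^ 4) * c.th' u0 i.1.1.2
          * c.sg A u0 i.1.1.2 i.2 * (c.J A (c.th u0 i.1.1.2))⁻¹
          = (ε * W0) / c.sg A u0 i.1.1.2 i.2 := by
        intro i
        have hs2 := c.sg_sq (A := A) u0 i.1.1.2 i.2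
        have hJm := c.J_mul (A := A) hJ (by rw [hN0]; exact hc0 : c.N u0 ≠ 0) i.1.1.2
        have hne : c.J A (c.th u0 i.1.1.2) * c.J A (c.th' u0 i.1.1.2) ≠ 0 := by
          rw [hJm]; exact div_ne_zero hJ0 (pow_ne_zero _ (by rw [hN0]; exact hc0))
        have hJ1 : c.J A (c.th u0 i.1.1.2) ≠ 0 := left_ne_zero_of_mul hne
        have hp2 := c.th_mul u0 i.1.1.2
        rw [hQ0] at hp2
        have hth0 : c.th u0 i.1.1.2 * c.th' u0 i.1.1.2 ≠ 0 := by
          rw [hp2]; exact mul_ne_zero f.hZ g.hZ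
        have ht0 : c.th u0 i.1.1.2 ≠ 0 := left_ne_zero_of_mul hth0
        have hsg : c.sg A u0 i.1.1.2 i.2 ≠ 0 := by
          intro h
          rw [h] at hs2
          exact mul_ne_zero ht0 hJ1 (by rw [← hs2]; norm_num)
        have hmw : c0 ^ 5 * W0 = c0 * (f.Z * g.Z) * m.eval u0 := by
          rw [← ew, hm, eval_mul, e2]
        rw [hN0, eq_div_iff hsg]
        have h7 : W0 = f.Z * g.Z * m.eval u0 / c0 ^ 4 := by
          field_simp
          have : c0 * (c0 ^ 4 * W0 - f.Z * g.Z * m.eval u0) = 0 := by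
            linear_combination hmw
          rcases mul_eq_zero.mp this with h | h
          · exact absurd h hc0
          · linear_combination h
        rw [h7, ← hp2]
        field_simp
        linear_combination (m.eval u0 * c.th' u0 i.1.1.2 * ε) * hs2
      simp only [z1, z0] at key
      rw [c.sum_TT A κ ξ η _ _ u0, hx0,
        c.sum_pair hS0 hQ0 (fun z z' => TT A κ c.β ξ η X0 (ε * W0) z z')] at key
      exact key
    have m1 := main 1 (by norm_num)
    have m2 := main (-1) (by norm_num)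
    rw [one_mul] at m1
    rw [neg_one_mul] at m2
    rw [m1, m2]

end Pool.Agent.Equi60
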