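import Pool.Agent.Voisin60.Basic

/-! Targets for the project EQ60 (MP_60b111_ag: Voisin's identity for all pairs of cycles on the
double planes `W^2 = Z F` with `F` equianharmonic from a point of the line). -/

noncomputable section

namespace Pool.Agent.Equi60

open Polynomial

/-- The binary quartic with coefficients `a` (with binomial coefficients). -/
def Qh (a : Fin 5 → ℂ) (X m : ℂ) : ℂ :=
  a 0 * X ^ 4 + 4 * a 1 * X ^ 3 * m + 6 * a 2 * X ^ 2 * m ^ 2 + 4 * a 3 * X * m ^ 3 + a 4 * m ^ 4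

/-- The invariant `I` of a binary quartic. -/
def Ia (a : Fin 5 → ℂ) : ℂ := a 0 * a 4 - 4 * a 1 * a 3 + 3 * a 2 ^ 2

/-- The invariant `J` of a binary quartic. -/
def Ja (a : Fin 5 → ℂ) : ℂ :=
  a 0 * a 2 * a 4 + 2 * a 1 * a 2 * a 3 - a 2 ^ 3 - a 1 ^ 2 * a 4 - a 0 * a 3 ^ 2

/-- The binary quintic-in-the-plane `A_1 X^4 + 4 A_2 X^3 + 6 A_3 X^2 + 4 A_4 X + A_5`, with
`A_i` a binary form in `Y, Z` (here `A i` has degree `i + 1`). -/
def quintic (A : Fin 5 → MvPolynomial (Fin 2) ℂ) : MvPolynomial (Fin 3) ℂ :=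
  MvPolynomial.rename Fin.succ (A 0) * MvPolynomial.X 0 ^ 4
    + 4 * MvPolynomial.rename Fin.succ (A 1) * MvPolynomial.X 0 ^ 3
    + 6 * MvPolynomial.rename Fin.succ (A 2) * MvPolynomial.X 0 ^ 2
    + 4 * MvPolynomial.rename Fin.succ (A 3) * MvPolynomial.X 0
    + MvPolynomial.rename Fin.succ (A 4)

/-- The values of the five forms at `(Y,Z)`. -/
def av (A : Fin 5 → MvPolynomial (Fin 2) ℂ) (Y Z : ℂ) : Fin 5 → ℂ :=
  fun i => MvPolynomial.eval ![Y, Z] (A i)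

/-- `J` of a pair of points of the projective line, as a function of
`p = (Y1 Y2, Y1 Z2 + Y2 Z1, Z1 Z2)`, when `J(Y,Z) = ∏ (b_j Y - a_j Z)`. -/
def J2 (a b : Fin 9 → ℂ) (p0 p1 p2 : ℂ) : ℂ :=
  ∏ j, (b j ^ 2 * p0 - a j * b j * p1 + a j ^ 2 * p2)

/-- The same for polynomials. -/
def J2p (a b : Fin 9 → ℂ) (p0 p1 p2 : ℂ[X]) : ℂ[X] :=
  ∏ j, (C (b j ^ 2) * p0 - C (a j * b j) * p1 + C (a j ^ 2) * p2)

/-- EQ-T3. Rational curves on the threefold `w^2 = p_2 (4 x^3 - J(p))`.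

Proof. Choose a two-dimensional complement `⟨v', v''⟩` of `q` in `ℂ^3`. Unknowns: `v` in this
complement (2), `x(λ) = x0 + x1 λ + x2 λ^2 + x3 λ^3` (3), `m(λ) = 1 + m1 λ + ... + m4 λ^4` (4),
`l(λ) = l0 + l1 λ` (1) with `l0 = w0^2/q2 = 4 x0^3 - J(q)`. The coefficients of `λ^1, ..., λ^9` in
`4 x(λ)^3 - J(q + λ v) - l(λ) m(λ)^2` are 9 polynomials in the 10 unknowns vanishing at 0 (the
constant coefficient is 0), so by `Pool/Agent/KRL/NonzeroZero.lean` (namespace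
Pool.Agent.Voisin60) there is a nonzero solution.
If `v = 0`, then `4 x^3 - c = l m^2` with `c = J(q) ≠ 0`; `m` is coprime to `x` (a common root
gives `c = 0`), and `m` divides the derivative `12 x^2 x'`, so `m` divides `x'`; if `x' ≠ 0` then
`deg m ≤ deg x - 1` and `3 deg x = deg l + 2 deg m ≤ 1 + 2 (deg x - 1)`, impossible. So `x = x0`,
`l m^2 = l0` is constant, `l = l0`, `m = 1`: the solution would be zero. So `v ≠ 0` and `q, v` are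
independent.
Put `z(λ) = q2 + λ v2`, `δ = l1 q2 - l0 v2`.
Case δ ≠ 0: `D(u) = u^2 l1 - v2`, `E(u) = q2 - u^2 l0`, `p = D q + E v`,
`x = Σ x_k D^(3-k) E^k`, `M = Σ m_k D^(4-k) E^k`, `w = δ u M`, `u0 = q2/w0`, `u1 = -u0`,
`c0 = c1 = D(u0) = δ/l0`, `E(±u0) = 0`. (Identity: `D z(E/D) = D q2 + E v2 = u^2 (l1 q2 - l0 v2)
= u^2 δ` and `D l(E/D) = D l0 + E l1 = δ`, so `w^2 = δ^2 u^2 M^2 = (D q2 + E v2)(D l0 + E l1) M^2`
and `(D l0 + E l1) M^2 = 4 x^3 - J(D q + E v)` by homogeneity (degree 9).)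
Case δ = 0: `l(λ) = (l0/q2) z(λ)`; with `μ = w0/q2` (so `μ^2 = l0/q2`):
`4 x^3 - J(q + λ v) = z(λ) (μ m(λ))^2`. Homogenise: for a suitable `ε` put
`p = (1 - ε u) q + u v`, `x~ = Σ x_k (1 - ε u)^(3-k) u^k`, `m~ = μ Σ m_k (1 - ε u)^(4-k) u^k`
with `ε` such that `m~` has degree exactly 4 (the coefficient of `u^4` is
`μ Σ m_k (-ε)^(4-k)`, a nonzero polynomial in ε of degree 4 as `m_0 = 1`); `u0 = 0`, `c0 = 1`.
Claim: there is a root `u1` of `m~` with `J(p(u1)) ≠ 0`. Otherwise every root `s` of `m~` has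
`J(p(s)) = 0`, so `x~(s) = 0`. Three pairwise different factors of `J(p(u)) = ∏ g_j(u)` have no
common root (`p(s) ≠ 0`, Vandermonde) and each `g_j` is a nonzero polynomial of degree ≤ 1, so
`(u - s)^3` does not divide `J(p(u))`. If `s` were a double root of `m~`, or `p_2(s) = 0`, then
`(u - s)^3` divides `4 x~^3 - p_2 m~^2 = J(p(u))`, contradiction. So `m~` has 4 different roots,
all roots of `x~` (degree ≤ 3), so `x~ = 0`, but `x~(0) = x0 ≠ 0`. -/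
def T_T3 : Prop :=
  ∀ (a b : Fin 9 → ℂ), (∀ i j, i ≠ j → a i * b j - a j * b i ≠ 0) →
    ∀ (q0 q1 q2 x0 w0 : ℂ), q2 ≠ 0 → J2 a b q0 q1 q2 ≠ 0 → x0 ≠ 0 → w0 ≠ 0 →
    w0 ^ 2 = q2 * (4 * x0 ^ 3 - J2 a b q0 q1 q2) →
    ∃ (p0 p1 p2 x w : ℂ[X]) (u0 u1 c0 : ℂ), c0 ≠ 0 ∧
      w ^ 2 = p2 * (4 * x ^ 3 - J2p a b p0 p1 p2) ∧
      p0.eval u0 = c0 * q0 ∧ p1.eval u0 = c0 * q1 ∧ p2.eval u0 = c0 * q2 ∧
      x.eval u0 = c0 ^ 3 * x0 ∧ w.eval u0 = c0 ^ 5 * w0 ∧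
      ((∃ c1 : ℂ, c1 ≠ 0 ∧ p0.eval u1 = c1 * q0 ∧ p1.eval u1 = c1 * q1 ∧ p2.eval u1 = c1 * q2 ∧
          x.eval u1 = c1 ^ 3 * x0 ∧ w.eval u1 = -(c1 ^ 5 * w0)) ∨
        (∃ m : ℂ[X], w = p2 * m ∧ m.eval u1 = 0 ∧
          J2 a b (p0.eval u1) (p1.eval u1) (p2.eval u1) ≠ 0))

/-- EQ-QUART. A binary quartic with `I = J = 0` has a triple linear factor.

Proof. If `a 0 = 0` and `a 4 = 0` or in general: take a linear factor (ℂ is algebraically closed;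
if `a 0 = 0` the factor is `m`, otherwise a root `r` of `Qh a X 1`). After a linear change of
coordinates (unimodular, so `I, J` do not change) the factor is `X`, i.e. `a 4 = 0`; then
`I = -4 a1 a3 + 3 a2^2`, `J = 2 a1 a2 a3 - a2^3 - a0 a3^2`. If `a3 = 0`, then `a2 = 0` and
`Qh = X^3 (a0 X + 4 a1 m)`. If `a3 ≠ 0`, then `a1 = 3 a2^2/(4 a3)`, `a0 = a2^3/(2 a3^2)` and
`Qh = 4 a3 X (m + a2/(2 a3) X)^3`. -/
def T_QUART : Prop :=
  ∀ a : Fin 5 → ℂ, Ia a = 0 → Ja a = 0 → ∃ α β γ δ : ℂ, ∀ X m : ℂ,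
    Qh a X m = (α * X + β * m) ^ 3 * (γ * X + δ * m)

end Pool.Agent.Equi60
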